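import Mathlib

set_option autoImplicit false

/-!
# Tuples of roots of monic polynomials: the algebra
-/

namespace Pool.Agent.Helper94.KM

open Polynomial

section red
variable {R : Type*} [CommRing R] {ι : Type*}

/-- the ideal of the polynomials `P i (X i)` -/
noncomputable def idl (P : ι → R[X]) : Ideal (MvPolynomial ι R) :=
  Ideal.span (Set.range fun i => aeval (MvPolynomial.X i : MvPolynomial ι R) (P i))

theorem degreeOf_aeval_self [Nontrivial R] (i : ι) (p : R[X]) :
    (aeval (MvPolynomial.X i : MvPolynomial ι R) p).degreeOf i ≤ p.natDegree := by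
  classical
  rw [aeval_eq_sum_range]
  refine (MvPolynomial.degreeOf_sum_le _ _ _).trans (Finset.sup_le fun k hk => ?_)
  rw [MvPolynomial.smul_eq_C_mul]
  refine (MvPolynomial.degreeOf_mul_le _ _ _).trans ?_
  rw [MvPolynomial.degreeOf_C, MvPolynomial.degreeOf_X_self_pow, zero_add]
  exact Nat.lt_succ_iff.1 (Finset.mem_range.1 hk)

theorem degreeOf_aeval_ne [Nontrivial R] {i j : ι} (hij : i ≠ j) (p : R[X]) :
    (aeval (MvPolynomial.X j : MvPolynomial ι R) p).degreeOf i = 0 := by
  classical
  apply Nat.eq_zero_of_le_zero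
  rw [aeval_eq_sum_range]
  refine (MvPolynomial.degreeOf_sum_le _ _ _).trans (Finset.sup_le fun k hk => ?_)
  rw [MvPolynomial.smul_eq_C_mul]
  refine (MvPolynomial.degreeOf_mul_le _ _ _).trans ?_
  rw [MvPolynomial.degreeOf_C, zero_add, MvPolynomial.X_pow_eq_monomial,
    MvPolynomial.degreeOf_monomial_eq _ _ one_ne_zero, Finsupp.single_apply, if_neg (Ne.symm hij)]

variable [Fintype ι]

/-- division by the polynomials `P i (X i)` -/
theorem exists_red [Nontrivial R] (P : ι → R[X]) (hm : ∀ i, (P i).Monic) (hd : ∀ i, 0 < (P i).natDegree)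
    (f : MvPolynomial ι R) : ∃ r : MvPolynomial ι R, f - r ∈ idl P ∧
      ∀ i, r.degreeOf i < (P i).natDegree := by
  classical
  induction f using MvPolynomial.induction_on' with
  | monomial u a =>
    refine ⟨MvPolynomial.C a * ∏ i, aeval (MvPolynomial.X i : MvPolynomial ι R) (X ^ u i %ₘ P i), ?_,
      fun i => ?_⟩
    · rw [← Ideal.Quotient.eq, MvPolynomial.monomial_eq, map_mul, map_mul, Finsupp.prod_fintype _ _ (by simp),
        map_prod, map_prod]
      congr 1
      refine Finset.prod_congr rfl fun i _ => ?_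
      rw [Ideal.Quotient.eq]
      have h1 : (MvPolynomial.X i : MvPolynomial ι R) ^ u i =
          aeval (MvPolynomial.X i : MvPolynomial ι R) (X ^ u i : R[X]) := by simp
      rw [h1]
      nth_rewrite 1 [← modByMonic_add_div (X ^ u i : R[X]) (P i)]
      rw [map_add, map_mul, add_sub_cancel_left]
      exact Ideal.mul_mem_right _ _ (Ideal.subset_span ⟨i, rfl⟩)
    · refine lt_of_le_of_lt (MvPolynomial.degreeOf_mul_le _ _ _) ?_
      rw [MvPolynomial.degreeOf_C, zero_add]
      refine lt_of_le_of_lt (MvPolynomial.degreeOf_prod_le _ _ _) ?_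
      rw [Finset.sum_eq_single i (fun j _ hj => degreeOf_aeval_ne (Ne.symm hj) _)
        (fun h => absurd (Finset.mem_univ i) h)]
      refine lt_of_le_of_lt (degreeOf_aeval_self _ _) ?_
      exact natDegree_modByMonic_lt _ (hm i) (fun h => by
        have := hd i
        rw [h, natDegree_one] at this
        exact lt_irrefl _ this)
  | add p q hp hq =>
    obtain ⟨r, h1, h2⟩ := hp
    obtain ⟨s, h3, h4⟩ := hq
    refine ⟨r + s, ?_, fun i => ?_⟩
    · have : p + q - (r + s) = (p - r) + (q - s) := by ring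
      rw [this]
      exact add_mem h1 h3
    · exact lt_of_le_of_lt (MvPolynomial.degreeOf_add_le _ _ _) (max_lt (h2 i) (h4 i))

/-- A polynomial which vanishes at the tuples of roots in `Ω` is in the ideal. -/
theorem mem_idl {Ω : Type*} [Field Ω] (j : R →+* Ω) (hj : Function.Injective j) (P : ι → R[X])
    (hm : ∀ i, (P i).Monic) (hd : ∀ i, 0 < (P i).natDegree)
    (hr : ∀ i, ∃ S : Finset Ω, S.card = (P i).natDegree ∧ ∀ y ∈ S, (P i).eval₂ j y = 0)
    (f : MvPolynomial ι R)
    (hf : ∀ x : ι → Ω, (∀ i, (P i).eval₂ j (x i) = 0) → f.eval₂ j x = 0) : f ∈ idl P := by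
  classical
  have : Nontrivial R := (hj.isDomain j).toNontrivial
  choose S hS1 hS2 using hr
  obtain ⟨r, h1, h2⟩ := exists_red P hm hd f
  have hval : ∀ g ∈ idl P, ∀ x : ι → Ω, (∀ i, (P i).eval₂ j (x i) = 0) → g.eval₂ j x = 0 := by
    intro g hg x hx
    have h3 : idl P ≤ RingHom.ker (MvPolynomial.eval₂Hom j x) := by
      unfold idl
      rw [Ideal.span_le]
      rintro _ ⟨i, rfl⟩
      rw [SetLike.mem_coe, RingHom.mem_ker]
      have h4 : MvPolynomial.eval₂Hom j x (aeval (MvPolynomial.X i : MvPolynomial ι R) (P i)) =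
          (P i).eval₂ j (x i) := by
        rw [aeval_def, hom_eval₂]
        congr 1
        · refine RingHom.ext fun a => ?_
          rw [RingHom.comp_apply, MvPolynomial.algebraMap_eq, MvPolynomial.eval₂Hom_C]
        · rw [MvPolynomial.eval₂Hom_X']
      rw [h4]
      exact hx i
    exact h3 hg
  have h3 : MvPolynomial.map j r = 0 := by
    refine MvPolynomial.eq_zero_of_eval_zero_at_prod_finset _ S (fun i => ?_) fun x hx => ?_
    · rw [hS1]
      refine lt_of_le_of_lt ?_ (h2 i)
      rw [MvPolynomial.degreeOf_le_iff]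
      intro m hm'
      exact MvPolynomial.monomial_le_degreeOf i (MvPolynomial.support_map_subset j r hm')
    · have hx' : ∀ i, (P i).eval₂ j (x i) = 0 := fun i => hS2 i _ (hx i)
      rw [MvPolynomial.eval_map]
      have h5 := hval _ h1 x hx'
      rw [MvPolynomial.eval₂_sub, hf x hx', zero_sub, neg_eq_zero] at h5
      exact h5
  have h4 : r = 0 := by
    apply MvPolynomial.map_injective j hj
    rw [h3, map_zero]
  rw [h4, sub_zero] at h1
  exact h1

end red

section clear
variable {R K : Type*} [CommRing R] [IsDomain R] [Field K] [Algebra R K] [IsFractionRing R K] {ι : Type*}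

/-- the denominators -/
theorem clear_mv (f : MvPolynomial ι K) : ∃ (c : R) (g : MvPolynomial ι R), c ≠ 0 ∧
    MvPolynomial.map (algebraMap R K) g = MvPolynomial.C (algebraMap R K c) * f := by
  classical
  obtain ⟨b, hb⟩ := IsLocalization.exist_integer_multiples (nonZeroDivisors R) f.support (fun m => f.coeff m)
  choose! t ht using hb
  refine ⟨b, ∑ m ∈ f.support, MvPolynomial.monomial m (t m), nonZeroDivisors.ne_zero b.2, ?_⟩
  rw [map_sum]
  conv_rhs => rw [f.as_sum]
  rw [Finset.mul_sum]
  refine Finset.sum_congr rfl fun m hm => ?_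
  rw [MvPolynomial.map_monomial, MvPolynomial.C_mul_monomial, ht m hm, Algebra.smul_def]

end clear

section ext
variable {K Ω : Type*} [Field K] [Field Ω] [Algebra K Ω] [IsAlgClosed Ω] [Algebra.IsAlgebraic K Ω]
  {ι : Type*}

/-- the extension of isomorphisms -/
theorem exists_conj (x x' : ι → Ω) (h : ∀ f : MvPolynomial ι K, MvPolynomial.aeval x f = 0 →
    MvPolynomial.aeval x' f = 0) : ∃ σ : Ω ≃ₐ[K] Ω, ∀ i, σ (x i) = x' i := by
  classical
  obtain ⟨L, hL⟩ : ∃ L : IntermediateField K Ω, L = IntermediateField.adjoin K (Set.range x) := ⟨_, rfl⟩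
  have hLs : L.toSubalgebra = (MvPolynomial.aeval (R := K) x).range := by
    rw [hL, IntermediateField.adjoin_toSubalgebra_of_isAlgebraic fun y _ => Algebra.IsAlgebraic.isAlgebraic y,
      Algebra.adjoin_range_eq_range_aeval]
  have hxL : ∀ i, x i ∈ L := fun i => by
    rw [hL]
    exact IntermediateField.subset_adjoin K _ ⟨i, rfl⟩
  let xL : ι → L := fun i => ⟨x i, hxL i⟩
  have hcoe : ∀ f : MvPolynomial ι K, ((MvPolynomial.aeval xL f : L) : Ω) = MvPolynomial.aeval x f := by
    intro f
    have : (L.val.comp (MvPolynomial.aeval xL)) = MvPolynomial.aeval (R := K) x := by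
      apply MvPolynomial.algHom_ext
      intro i
      simp [xL]
    exact congrArg (fun g => g f) this
  have hsurj : Function.Surjective (MvPolynomial.aeval (R := K) xL) := by
    intro y
    have hy : (y : Ω) ∈ (MvPolynomial.aeval (R := K) x).range := by
      rw [← hLs]
      exact y.2
    obtain ⟨f, hf⟩ := hy
    refine ⟨f, Subtype.ext ?_⟩
    rw [hcoe]
    exact hf
  have hker : RingHom.ker (MvPolynomial.aeval (R := K) xL) ≤ RingHom.ker (MvPolynomial.aeval (R := K) x') := by
    intro f hf
    rw [RingHom.mem_ker] at hf ⊢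
    apply h
    rw [← hcoe, hf]
    rfl
  let e := Ideal.quotientKerAlgEquivOfSurjective hsurj
  let θ : L →ₐ[K] Ω := (Ideal.Quotient.liftₐ _ (MvPolynomial.aeval (R := K) x') fun a ha => hker ha).comp
    e.symm.toAlgHom
  have hθ : ∀ i, θ (xL i) = x' i := by
    intro i
    have h1 : e (Ideal.Quotient.mk _ (MvPolynomial.X i)) = xL i := by
      show MvPolynomial.aeval xL (MvPolynomial.X i) = xL i
      rw [MvPolynomial.aeval_X]
    show (Ideal.Quotient.liftₐ _ (MvPolynomial.aeval (R := K) x') fun a ha => hker ha) (e.symm (xL i)) = x' i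
    rw [← h1, AlgEquiv.symm_apply_apply]
    show MvPolynomial.aeval x' (MvPolynomial.X i) = x' i
    rw [MvPolynomial.aeval_X]
  obtain ⟨φ, hφ⟩ := IsAlgClosed.surjective_domRestrict_of_isAlgebraic (K := K) (L := L) (M := Ω) (E := Ω) θ
  have hbij : Function.Bijective φ := Algebra.IsAlgebraic.algHom_bijective φ
  refine ⟨AlgEquiv.ofBijective φ hbij, fun i => ?_⟩
  show φ (x i) = x' i
  rw [← hθ i, ← hφ]
  rfl

end ext

end Pool.Agent.Helper94.KM
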