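import Pool.Agent.R410.NG.Res
import Pool.Agent.R410.NG.Asy
import Pool.Agent.R410.NG.Sf

set_option autoImplicit false
set_option linter.all false

/-!
# The residue of the series of the average numbers of the points with an invariant property
-/

namespace Pool.Agent.Helper94.KM

open Polynomial NumberField IsDedekindDomain Filter Topology
open Pool.Agent.Y707.PR (HasResidue)
open Pool.Agent.R410.BS (cF cF_le cB cB_nonneg)
open Pool.Agent.R410.NG (Asy Ff residue_fun)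
open Pool.Agent.H921R2.TatePole (kerPrime)

section
variable {k : Type} [Field k] [NumberField k] {T : Type} [CommRing T] (ρ : 𝓞 k →+* T)
  (P : ∀ (F : Type) [Field F], (T →+* F) → Prop)

/-- the average number of the points over `v` -/
noncomputable def cntAvg (e : ℕ) (v : HeightOneSpectrum (𝓞 k)) : ℝ :=
  ((Nat.card (𝓞 k ⧸ v.asIdeal) : ℝ) ^ e)⁻¹ *
    (Nat.card {Φ : T →+* 𝓞 k ⧸ v.asIdeal //
      P (𝓞 k ⧸ v.asIdeal) Φ ∧ Φ.comp ρ = Ideal.Quotient.mk v.asIdeal} : ℝ)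

variable {ρ P}

theorem cnt_ker (hiso : ∀ (F F' : Type) [Field F] [Field F'] (e : F ≃+* F') (Φ : T →+* F),
      P F' ((e : F →+* F').comp Φ) ↔ P F Φ) (m : ℕ)
    (p : Nat.Primes) (ψ : 𝓞 k →+* ZMod (p : ℕ)) :
    letI : Fact (p : ℕ).Prime := ⟨p.2⟩
    cntAvg ρ P m (kerPrime p ψ).1.1 =
      (((p : ℕ) : ℝ) ^ m)⁻¹ * (Nat.card {Φ : T →+* ZMod (p : ℕ) // P (ZMod (p : ℕ)) Φ ∧
        Φ.comp ρ = ψ} : ℝ) := by
  letI : Fact (p : ℕ).Prime := ⟨p.2⟩
  have hsurj : Function.Surjective ψ := ZMod.ringHom_surjective ψ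
  let e : (𝓞 k ⧸ (kerPrime p ψ).1.1.asIdeal) ≃+* ZMod (p : ℕ) :=
    RingHom.quotientKerEquivOfSurjective hsurj
  have he : (e : (𝓞 k ⧸ (kerPrime p ψ).1.1.asIdeal) →+* ZMod (p : ℕ)).comp
      (Ideal.Quotient.mk (kerPrime p ψ).1.1.asIdeal) = ψ := by
    ext x
    rfl
  let E : {Φ : T →+* 𝓞 k ⧸ (kerPrime p ψ).1.1.asIdeal // P (𝓞 k ⧸ (kerPrime p ψ).1.1.asIdeal) Φ ∧
        Φ.comp ρ = Ideal.Quotient.mk (kerPrime p ψ).1.1.asIdeal} ≃
      {Φ : T →+* ZMod (p : ℕ) // P (ZMod (p : ℕ)) Φ ∧ Φ.comp ρ = ψ} :=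
    { toFun := fun Φ => ⟨(e : (𝓞 k ⧸ (kerPrime p ψ).1.1.asIdeal) →+* ZMod (p : ℕ)).comp Φ.1,
        (hiso _ _ e Φ.1).2 Φ.2.1, by rw [RingHom.comp_assoc, Φ.2.2, he]⟩
      invFun := fun Φ => ⟨(e.symm : ZMod (p : ℕ) →+* (𝓞 k ⧸ (kerPrime p ψ).1.1.asIdeal)).comp Φ.1,
        (hiso _ _ e.symm Φ.1).2 Φ.2.1, by
          rw [RingHom.comp_assoc, Φ.2.2]
          refine RingHom.ext fun x => ?_
          exact e.symm_apply_apply (Ideal.Quotient.mk (kerPrime p ψ).1.1.asIdeal x)⟩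
      left_inv := fun Φ => Subtype.ext (RingHom.ext fun x => e.symm_apply_apply _)
      right_inv := fun Φ => Subtype.ext (RingHom.ext fun x => e.apply_symm_apply _) }
  unfold cntAvg
  have h2 : Nat.card (𝓞 k ⧸ (kerPrime p ψ).1.1.asIdeal) = (p : ℕ) := by
    rw [Nat.card_congr e.toEquiv, Nat.card_eq_fintype_card, ZMod.card]
  rw [h2, Nat.card_congr E]

/-- **The residue of the series of the average numbers of the points.** -/
theorem residue_count (hfinT : ∀ (F : Type) [Field F] [Finite F], Finite (T →+* F))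
    (hiso : ∀ (F F' : Type) [Field F] [Field F'] (e : F ≃+* F') (Φ : T →+* F),
      P F' ((e : F →+* F').comp Φ) ↔ P F Φ) {e r : ℕ}
    (hasy : Asy (fun F _ _ => (Nat.card {Φ : T →+* F // P F Φ} : ℝ)) e r)
    {C : ℝ} (hle : ∀ (F : Type) [Field F] [Finite F],
      (Nat.card {Φ : T →+* F // P F Φ} : ℝ) ≤ C * (Nat.card F : ℝ) ^ e)
    (S : Finset (HeightOneSpectrum (𝓞 k))) : HasResidue S (fun v => cntAvg ρ P e v) 1 r := by
  classical
  obtain ⟨κ, i1, L, i2, i3, a, ha, C₀, m, hC₀, hm, h⟩ := hasy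
  have hb : ∀ v : HeightOneSpectrum (𝓞 k), |cntAvg ρ P e v| ≤ C := by
    intro v
    have hfin := Pool.Agent.H341R2.finite_v v
    have hfT := hfinT (𝓞 k ⧸ v.asIdeal)
    have h1 := hle (𝓞 k ⧸ v.asIdeal)
    have hq : (0 : ℝ) < (Nat.card (𝓞 k ⧸ v.asIdeal) : ℝ) ^ e := by
      have : (0 : ℝ) < (Nat.card (𝓞 k ⧸ v.asIdeal) : ℝ) := by exact_mod_cast Nat.card_pos
      positivity
    unfold cntAvg
    rw [abs_mul, abs_of_pos (inv_pos.2 hq), inv_mul_le_iff₀ hq, Nat.abs_cast, mul_comm]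
    refine le_trans ?_ h1
    rw [Nat.cast_le]
    refine Nat.card_le_card_of_injective (fun Φ => (⟨Φ.1, Φ.2.1⟩ :
      {Φ : T →+* 𝓞 k ⧸ v.asIdeal // P (𝓞 k ⧸ v.asIdeal) Φ})) ?_
    intro a b hab
    have := congrArg Subtype.val hab
    exact Subtype.ext this
  have key := residue_fun (k := k) hb L a (r := (r : ℤ)) (by rw [ha]; push_cast; rfl) (D := C₀) ?_ S
  · simpa using key
  have hcof : ∀ᶠ p : Nat.Primes in Filter.cofinite, ((m : ℕ) : ZMod (p : ℕ)) ≠ 0 := by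
    have hfin : {p : Nat.Primes | ((m : ℕ) : ZMod (p : ℕ)) = 0}.Finite := by
      refine Set.Finite.of_injOn (f := fun p : Nat.Primes => (p : ℕ))
        (t := (m.primeFactors : Set ℕ)) ?_ ?_ (Finset.finite_toSet _)
      · intro p hp
        rw [Set.mem_ofPred_eq, ZMod.natCast_eq_zero_iff] at hp
        exact Nat.mem_primeFactors.2 ⟨p.2, hp, hm⟩
      · intro p _ q _ h
        exact Subtype.ext h
    rw [Filter.eventually_cofinite]
    simpa only [ne_eq, not_not] using hfin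
  filter_upwards [hcof] with p hp
  have : Fact (p : ℕ).Prime := ⟨p.2⟩
  have hfin := Pool.Agent.H921R2.TatePole.hom_finite (K := k) p
  let _ := Fintype.ofFinite (𝓞 k →+* ZMod (p : ℕ))
  have hfT := hfinT (ZMod (p : ℕ))
  have hcard : (Nat.card (ZMod (p : ℕ)) : ℝ) = ((p : ℕ) : ℝ) := by
    rw [Nat.card_eq_fintype_card, ZMod.card]
  have e2 := h (ZMod (p : ℕ)) hp
  rw [hcard] at e2
  set q : ℝ := ((p : ℕ) : ℝ) with hq
  have hq0 : (0 : ℝ) < q := by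
    rw [hq]
    exact_mod_cast p.2.pos
  have hqe : (0 : ℝ) < q ^ e := by positivity
  have hs : 0 < √q := Real.sqrt_pos.2 hq0
  have e3 : ∑ᶠ ψ : 𝓞 k →+* ZMod (p : ℕ), cntAvg ρ P e (kerPrime p ψ).1.1 =
      (q ^ e)⁻¹ * (Nat.card {Φ : T →+* ZMod (p : ℕ) // P (ZMod (p : ℕ)) Φ} : ℝ) := by
    have e4 : Nat.card {Φ : T →+* ZMod (p : ℕ) // P (ZMod (p : ℕ)) Φ} =
        ∑ ψ : 𝓞 k →+* ZMod (p : ℕ), Nat.card {Φ : T →+* ZMod (p : ℕ) // P (ZMod (p : ℕ)) Φ ∧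
          Φ.comp ρ = ψ} := by
      rw [← Nat.card_sigma]
      refine Nat.card_congr
        { toFun := fun Φ => ⟨Φ.1.comp ρ, ⟨Φ.1, Φ.2, rfl⟩⟩
          invFun := fun z => ⟨z.2.1, z.2.2.1⟩
          left_inv := fun Φ => rfl
          right_inv := ?_ }
      rintro ⟨ψ, Φ, h1, rfl⟩
      rfl
    rw [finsum_eq_sum_of_fintype, e4, Nat.cast_sum, Finset.mul_sum]
    exact Finset.sum_congr rfl fun ψ _ => cnt_ker hiso e p ψ
  have e5 : ((p : ℕ) : ℝ) ^ (-(1 / 2) : ℝ) = (√q)⁻¹ := by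
    rw [hq, Real.sqrt_eq_rpow, ← Real.rpow_neg hq0.le]
  rw [e3, e5]
  have e6 : (q ^ e)⁻¹ * (Nat.card {Φ : T →+* ZMod (p : ℕ) // P (ZMod (p : ℕ)) Φ} : ℝ) -
      cF L a (ZMod (p : ℕ)) =
      ((Nat.card {Φ : T →+* ZMod (p : ℕ) // P (ZMod (p : ℕ)) Φ} : ℝ) -
        cF L a (ZMod (p : ℕ)) * q ^ e) / q ^ e := by
    field_simp
  rw [e6, abs_div, abs_of_pos hqe, div_le_iff₀ hqe, ← div_eq_mul_inv, div_mul_eq_mul_div,
    le_div_iff₀ hs]
  exact e2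

end

end Pool.Agent.Helper94.KM
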