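import Mathlib

set_option autoImplicit false

/-!
# Tuples of roots of monic polynomials: counting
-/

namespace Pool.Agent.Helper94.KM

open Polynomial

/-- a union of few sets with small intersections -/
theorem incl {T I : Type*} [Finite T] [Fintype I] (p : T → Prop) (h : I → T → Prop)
    (h1 : ∀ o t, h o t → p t) (h2 : ∀ t, p t → ∃ o, h o t) :
    |(Nat.card {t // p t} : ℝ) - ∑ o, (Nat.card {t // h o t} : ℝ)| ≤
      ∑ o, ∑ o', (open Classical in if o = o' then 0 else (Nat.card {t // h o t ∧ h o' t} : ℝ)) := by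
  classical
  have := Fintype.ofFinite T
  have e1 : ∀ (q : T → Prop) [DecidablePred q],
      (Nat.card {t // q t} : ℝ) = ∑ t, if q t then (1 : ℝ) else 0 := by
    intro q _
    rw [Nat.card_eq_fintype_card, Fintype.card_subtype, Finset.sum_boole]
  have e2 : ∑ o, ∑ o', (if o = o' then 0 else (Nat.card {t // h o t ∧ h o' t} : ℝ)) =
      ∑ t, ∑ o, ∑ o', if o = o' then 0 else if h o t ∧ h o' t then (1 : ℝ) else 0 := by
    have h3 : ∀ o o', (if o = o' then 0 else (Nat.card {t // h o t ∧ h o' t} : ℝ)) =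
        ∑ t, if o = o' then 0 else if h o t ∧ h o' t then (1 : ℝ) else 0 := by
      intro o o'
      by_cases hoo : o = o'
      · simp [hoo]
      · simp only [if_neg hoo]
        exact e1 _
    rw [Finset.sum_congr rfl fun o _ => Finset.sum_congr rfl fun o' _ => h3 o o']
    rw [Finset.sum_congr rfl fun o _ => Finset.sum_comm, Finset.sum_comm]
  rw [e2, e1, Finset.sum_congr rfl fun o _ => e1 (h o), Finset.sum_comm, ← Finset.sum_sub_distrib]
  refine (Finset.abs_sum_le_sum_abs _ _).trans (Finset.sum_le_sum fun t _ => ?_)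
  obtain ⟨n, hn⟩ : ∃ n : ℕ, n = (Finset.univ.filter fun o => h o t).card := ⟨_, rfl⟩
  have e3 : ∑ o, (if h o t then (1 : ℝ) else 0) = n := by
    rw [Finset.sum_boole, hn]
  have e4 : ∑ o, ∑ o', (if o = o' then 0 else if h o t ∧ h o' t then (1 : ℝ) else 0) = n * n - n := by
    have e5 : ∀ o o', (if o = o' then 0 else if h o t ∧ h o' t then (1 : ℝ) else 0) =
        (if h o t then (1 : ℝ) else 0) * (if h o' t then 1 else 0) -
          if o = o' then (if h o t then (1 : ℝ) else 0) else 0 := by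
      intro o o'
      by_cases hoo : o = o'
      · subst hoo
        by_cases ht : h o t <;> simp [ht]
      · by_cases ht : h o t <;> by_cases ht' : h o' t <;> simp [hoo, ht, ht']
    simp only [e5, Finset.sum_sub_distrib, Finset.sum_ite_eq, Finset.mem_univ, if_true]
    rw [← Finset.sum_mul_sum, e3]
  rw [e3, e4]
  by_cases hp : p t
  · rw [if_pos hp]
    have h3 : 1 ≤ n := by
      obtain ⟨o, ho⟩ := h2 t hp
      rw [hn, Nat.one_le_iff_ne_zero, ← Nat.pos_iff_ne_zero, Finset.card_pos]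
      exact ⟨o, Finset.mem_filter.2 ⟨Finset.mem_univ _, ho⟩⟩
    have h4 : (1 : ℝ) ≤ n := by exact_mod_cast h3
    rw [abs_sub_comm, abs_of_nonneg (by linarith)]
    nlinarith
  · have h3 : n = 0 := by
      rw [hn, Finset.card_eq_zero, Finset.filter_eq_empty_iff]
      intro o _ ho
      exact hp (h1 o t ho)
    rw [if_neg hp, h3]
    simp

/-- homomorphisms of a quotient -/
def quotEquiv {S F : Type*} [CommRing S] [Field F] (I : Ideal S) (u : S) :
    {ψ : S ⧸ I →+* F // ψ (Ideal.Quotient.mk I u) ≠ 0} ≃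
      {Φ : S →+* F // I ≤ RingHom.ker Φ ∧ Φ u ≠ 0} where
  toFun ψ := ⟨ψ.1.comp (Ideal.Quotient.mk I), fun a ha => by
    rw [RingHom.mem_ker, RingHom.comp_apply, Ideal.Quotient.eq_zero_iff_mem.2 ha, map_zero], ψ.2⟩
  invFun Φ := ⟨Ideal.Quotient.lift I Φ.1 fun a ha => Φ.2.1 ha, Φ.2.2⟩
  left_inv ψ := Subtype.ext (Ideal.Quotient.ringHom_ext (RingHom.ext fun a => rfl))
  right_inv Φ := Subtype.ext (RingHom.ext fun a => rfl)

/-- homomorphisms of a quotient -/
def quotEquiv0 {S F : Type*} [CommRing S] [Field F] (I : Ideal S) (u : S) :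
    {ψ : S ⧸ I →+* F // ψ (Ideal.Quotient.mk I u) = 0} ≃
      {Φ : S →+* F // I ≤ RingHom.ker Φ ∧ Φ u = 0} where
  toFun ψ := ⟨ψ.1.comp (Ideal.Quotient.mk I), fun a ha => by
    rw [RingHom.mem_ker, RingHom.comp_apply, Ideal.Quotient.eq_zero_iff_mem.2 ha, map_zero], ψ.2⟩
  invFun Φ := ⟨Ideal.Quotient.lift I Φ.1 fun a ha => Φ.2.1 ha, Φ.2.2⟩
  left_inv ψ := Subtype.ext (Ideal.Quotient.ringHom_ext (RingHom.ext fun a => rfl))
  right_inv Φ := Subtype.ext (RingHom.ext fun a => rfl)

open Classical in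
/-- one additional root -/
noncomputable def optEquiv {E : Type*} [Field E] (t : E) (g : E[X]) (hg : g.eval t ≠ 0) :
    {y : E // ((X - C t) * g).eval y = 0} ≃ {o : Option E // ∀ y ∈ o, g.eval y = 0} where
  toFun y := ⟨if y.1 = t then none else some y.1, by
    intro z hz
    by_cases h : y.1 = t
    · rw [if_pos h] at hz
      exact absurd hz (by simp)
    · rw [if_neg h, Option.mem_some_iff] at hz
      have h1 := y.2
      rw [eval_mul, eval_sub, eval_X, eval_C, mul_eq_zero, sub_eq_zero] at h1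
      rw [← hz]
      exact h1.resolve_left h⟩
  invFun o := ⟨o.1.getD t, by
    rcases o with ⟨_ | y, ho⟩
    · simp
    · have h1 := ho y rfl
      simp [h1]⟩
  left_inv y := by
    apply Subtype.ext
    by_cases h : y.1 = t
    · simp [h]
    · simp [h]
  right_inv o := by
    rcases o with ⟨_ | y, ho⟩
    · simp
    · have h1 : g.eval y = 0 := ho y rfl
      have h2 : y ≠ t := fun h => hg (by rw [← h, h1])
      apply Subtype.ext
      simp [h2]

/-- tuples of roots and of points -/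
noncomputable def optTuple {E : Type*} [Field E] {ι : Type*} (t : E) (g : ι → E[X])
    (hg : ∀ i, (g i).eval t ≠ 0) :
    {y : ι → E // ∀ i, ((X - C t) * g i).eval (y i) = 0} ≃
      {o : ι → Option E // ∀ i, ∀ y ∈ o i, (g i).eval y = 0} :=
  (Equiv.subtypePiEquivPi (p := fun i (y : E) => ((X - C t) * g i).eval y = 0)).trans
    ((Equiv.piCongrRight fun i => optEquiv t (g i) (hg i)).trans
      (Equiv.subtypePiEquivPi (p := fun i (o : Option E) => ∀ y ∈ o, (g i).eval y = 0)).symm)

open Classical in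
theorem optTuple_apply {E : Type*} [Field E] {ι : Type*} (t : E) (g : ι → E[X])
    (hg : ∀ i, (g i).eval t ≠ 0) (y : {y : ι → E // ∀ i, ((X - C t) * g i).eval (y i) = 0}) (i : ι) :
    (optTuple t g hg y).1 i = if y.1 i = t then none else some (y.1 i) := rfl

/-- homomorphisms of polynomial rings -/
noncomputable def mvEquiv {R F ι : Type*} [CommRing R] [Field F] (P : ι → R[X]) (N : R) :
    {Φ : MvPolynomial ι R →+* F // (∀ i, Φ (aeval (MvPolynomial.X i : MvPolynomial ι R) (P i)) = 0) ∧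
      Φ (MvPolynomial.C N) ≠ 0} ≃
      Σ φ : {φ : R →+* F // φ N ≠ 0}, {y : ι → F // ∀ i, ((P i).map φ.1).eval (y i) = 0} where
  toFun Φ := ⟨⟨Φ.1.comp MvPolynomial.C, Φ.2.2⟩, ⟨fun i => Φ.1 (MvPolynomial.X i), fun i => by
    rw [eval_map]
    have h := Φ.2.1 i
    rw [aeval_def, hom_eval₂] at h
    exact h⟩⟩
  invFun w := ⟨MvPolynomial.eval₂Hom w.1.1 w.2.1, fun i => by
    have h := w.2.2 i
    rw [eval_map] at h
    rw [aeval_def, hom_eval₂, MvPolynomial.eval₂Hom_X']
    have h1 : (MvPolynomial.eval₂Hom w.1.1 w.2.1).comp (algebraMap R (MvPolynomial ι R)) = w.1.1 := by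
      refine RingHom.ext fun a => ?_
      rw [RingHom.comp_apply, MvPolynomial.algebraMap_eq, MvPolynomial.eval₂Hom_C]
    rw [h1]
    exact h, by
    rw [MvPolynomial.eval₂Hom_C]
    exact w.1.2⟩
  left_inv Φ := by
    apply Subtype.ext
    apply MvPolynomial.ringHom_ext
    · intro a
      simp
    · intro i
      simp
  right_inv w := by
    rcases w with ⟨⟨φ, hφ⟩, ⟨y, hy⟩⟩
    have gen : ∀ (φ' : R →+* F) (hφ' : φ' N ≠ 0) (y' : ι → F)
        (hy' : ∀ i, ((P i).map φ').eval (y' i) = 0), φ' = φ → y' = y →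
        (⟨⟨φ', hφ'⟩, ⟨y', hy'⟩⟩ : Σ φ : {φ : R →+* F // φ N ≠ 0},
          {y : ι → F // ∀ i, ((P i).map φ.1).eval (y i) = 0}) = ⟨⟨φ, hφ⟩, ⟨y, hy⟩⟩ := by
      rintro φ' hφ' y' hy' rfl rfl
      rfl
    refine gen _ _ _ _ ?_ ?_
    · refine RingHom.ext fun a => ?_
      simp
    · funext i
      simp

end Pool.Agent.Helper94.KM
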