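import Pool.Agent.R410.LW.Fg
import Pool.Agent.Helper94.KM.Comb

set_option autoImplicit false

/-!
# Tuples of elements of a finite extension: the ring which they generate
-/

namespace Pool.Agent.Helper94.KM

open Polynomial
open Pool.Agent.R410.LW (FG frac_of_closure)

/-- A finite extension of a finitely generated field is finitely generated. -/
theorem fg_fin {K L : Type} [Field K] [Field L] [Algebra K L] [FiniteDimensional K L] (hK : FG K) :
    FG L := by
  classical
  obtain ⟨S, hS⟩ := hK
  let b := Module.finBasis K L
  refine ⟨S.image (algebraMap K L) ∪ Finset.univ.image b, ?_⟩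
  set Cf := Subfield.closure ((S.image (algebraMap K L) ∪ Finset.univ.image b : Finset L) : Set L)
    with hCf
  have hKC : ∀ a : K, algebraMap K L a ∈ Cf := by
    intro a
    have ha : a ∈ Subfield.closure (S : Set K) := by rw [hS]; trivial
    have h1 : Subfield.closure (S : Set K) ≤ Cf.comap (algebraMap K L) := by
      rw [Subfield.closure_le]
      intro s hs
      apply Subfield.subset_closure
      rw [Finset.coe_union, Finset.coe_image]
      exact Or.inl ⟨s, hs, rfl⟩
    exact h1 ha
  have hb : ∀ i, b i ∈ Cf := fun i => Subfield.subset_closure (by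
    rw [Finset.coe_union, Finset.coe_image, Finset.coe_image]
    exact Or.inr ⟨i, Finset.mem_coe.2 (Finset.mem_univ i), rfl⟩)
  rw [eq_top_iff]
  intro z _
  rw [← b.sum_repr z]
  exact sum_mem fun i _ => by
    rw [Algebra.smul_def]
    exact mul_mem (hKC _) (hb i)

theorem trdeg_fin {K L : Type} [Field K] [CharZero K] [Field L] [CharZero L] [Algebra K L]
    [FiniteDimensional K L] {d : ℕ} (hd : Algebra.trdeg ℚ K = d) : Algebra.trdeg ℚ L = d := by
  have ht : IsScalarTower ℚ K L := IsScalarTower.of_algebraMap_eq' (Subsingleton.elim _ _)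
  have h2 := trdeg_add_eq ℚ K (A := L)
  rw [trdeg_eq_zero (R := K) (A := L), add_zero, hd] at h2
  exact h2.symm

section
variable {K R : Type} [Field K] [CommRing R] [IsDomain R] [Algebra R K] [IsFractionRing R K]
  {L : Type} [Field L] [Algebra K L] {ι : Type}

/-- the value at a tuple -/
noncomputable abbrev evt (K : Type) {R L : Type} [Field K] [CommRing R] [Algebra R K] [Field L]
    [Algebra K L] {ι : Type} (x : ι → L) : MvPolynomial ι R →+* L :=
  MvPolynomial.eval₂Hom ((algebraMap K L).comp (algebraMap R K)) x

/-- The fraction field of the ring generated by a tuple. -/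
theorem frac_tuple (x : ι → L) (hx : IntermediateField.adjoin K (Set.range x) = ⊤) :
    letI : Algebra (MvPolynomial ι R ⧸ RingHom.ker (evt K (R := R) x)) L :=
      (RingHom.kerLift (evt K (R := R) x)).toAlgebra
    IsFractionRing (MvPolynomial ι R ⧸ RingHom.ker (evt K (R := R) x)) L := by
  let _ : Algebra (MvPolynomial ι R ⧸ RingHom.ker (evt K (R := R) x)) L :=
      (RingHom.kerLift (evt K (R := R) x)).toAlgebra
  refine frac_of_closure (R := MvPolynomial ι R ⧸ RingHom.ker (evt K (R := R) x)) (M := L)
    (RingHom.kerLift_injective _) ?_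
  set Cf := Subfield.closure (Set.range (algebraMap (MvPolynomial ι R ⧸ RingHom.ker
    (evt K (R := R) x)) L)) with hCf
  have hval : ∀ f : MvPolynomial ι R, evt K x f ∈ Cf := fun f =>
    Subfield.subset_closure ⟨Ideal.Quotient.mk _ f, rfl⟩
  have hKC : ∀ a : K, algebraMap K L a ∈ Cf := by
    intro a
    obtain ⟨s, t, -, rfl⟩ := IsFractionRing.div_surjective (A := R) a
    have h1 := hval (MvPolynomial.C s)
    have h2 := hval (MvPolynomial.C t)
    rw [evt, MvPolynomial.eval₂Hom_C, RingHom.comp_apply] at h1 h2
    rw [map_div₀]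
    exact div_mem h1 h2
  have hxC : ∀ i, x i ∈ Cf := by
    intro i
    have h1 := hval (MvPolynomial.X i)
    rw [evt, MvPolynomial.eval₂Hom_X'] at h1
    exact h1
  rw [eq_top_iff]
  intro z _
  have hz : z ∈ IntermediateField.adjoin K (Set.range x) := by
    rw [hx]
    trivial
  induction hz using IntermediateField.adjoin_induction with
  | mem z hz =>
    obtain ⟨i, rfl⟩ := hz
    exact hxC i
  | algebraMap a => exact hKC a
  | add u v _ _ h1 h2 => exact add_mem (h1 trivial) (h2 trivial)
  | mul u v _ _ h1 h2 => exact mul_mem (h1 trivial) (h2 trivial)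
  | inv u _ h1 => exact inv_mem (h1 trivial)

/-- the field generated by a tuple -/
theorem adjoin_tuple (x : ι → L) : IntermediateField.adjoin K
    (Set.range fun i => (⟨x i, IntermediateField.subset_adjoin K _ ⟨i, rfl⟩⟩ :
      IntermediateField.adjoin K (Set.range x))) = ⊤ := by
  apply IntermediateField.map_injective (IntermediateField.adjoin K (Set.range x)).val
  rw [IntermediateField.adjoin_map, ← Set.range_comp]
  have h1 : ((IntermediateField.adjoin K (Set.range x)).val ∘ fun i =>
      (⟨x i, IntermediateField.subset_adjoin K _ ⟨i, rfl⟩⟩ :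
        IntermediateField.adjoin K (Set.range x))) = x := by
    funext i
    rfl
  rw [h1, ← AlgHom.fieldRange_eq_map, IntermediateField.fieldRange_val]

end

end Pool.Agent.Helper94.KM
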