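import Pool.Agent.R410.NG.Trc

set_option autoImplicit false
set_option linter.all false

/-!
# The average of the trace on the second exterior power for the curves `y² = c(x) + w`
-/

namespace Pool.Agent.Helper94.KM

open Polynomial Finset

section
variable {R : Type} [CommRing R]

theorem even_odd (c : R[X]) : ∃ P Q : R[X], c = P.comp (X ^ 2) + X * Q.comp (X ^ 2) := by
  induction c using Polynomial.induction_on' with
  | add p q hp hq =>
    obtain ⟨P, Q, h⟩ := hp
    obtain ⟨P', Q', h'⟩ := hq
    refine ⟨P + P', Q + Q', ?_⟩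
    rw [h, h', add_comp, add_comp]
    ring
  | monomial n a =>
    rcases Nat.even_or_odd' n with ⟨k, rfl | rfl⟩
    · refine ⟨C a * X ^ k, 0, ?_⟩
      rw [← C_mul_X_pow_eq_monomial, mul_comp, C_comp, X_pow_comp, zero_comp, mul_zero, add_zero,
        ← pow_mul]
    · refine ⟨0, C a * X ^ k, ?_⟩
      rw [← C_mul_X_pow_eq_monomial, mul_comp, C_comp, X_pow_comp, zero_comp, zero_add, ← pow_mul,
        pow_succ]
      ring

end

section
variable {F : Type} [Field F] [Fintype F]

open Classical in
/-- every element is the value of two arguments -/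
theorem twice (hF : ringChar F ≠ 2) {ε : F} (hε : ¬ IsSquare ε) (f : F → ℝ) :
    ∑ s, f (s ^ 2) + ∑ v, f (ε * v ^ 2) = 2 * ∑ Δ, f Δ := by
  have hε0 : ε ≠ 0 := fun h => hε (by rw [h]; exact IsSquare.zero)
  have card_sq : ∀ Δ : F, (((univ.filter fun s : F => s ^ 2 = Δ).card : ℕ) : ℝ) =
      (quadraticChar F Δ : ℝ) + 1 := by
    intro Δ
    have h := quadraticChar_card_sqrts hF Δ
    have h1 : {x : F | x ^ 2 = Δ}.toFinset = univ.filter fun s : F => s ^ 2 = Δ := by
      ext x
      simp
    rw [h1] at h
    have h2 : (((univ.filter fun s : F => s ^ 2 = Δ).card : ℤ) : ℝ) =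
        ((quadraticChar F Δ + 1 : ℤ) : ℝ) := by rw [h]
    push_cast at h2
    exact h2
  have h1 : ∑ s, f (s ^ 2) = ∑ Δ, ((quadraticChar F Δ : ℝ) + 1) * f Δ := by
    rw [← Finset.sum_fiberwise univ (fun s : F => s ^ 2) fun s => f (s ^ 2)]
    refine Finset.sum_congr rfl fun Δ _ => ?_
    rw [Finset.sum_congr rfl (g := fun _ => f Δ) fun s hs => by rw [(Finset.mem_filter.1 hs).2],
      Finset.sum_const, nsmul_eq_mul, card_sq]
  have hχ : quadraticChar F ε⁻¹ = -1 := by
    rw [quadraticChar_neg_one_iff_not_isSquare]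
    intro h
    exact hε (by simpa using h.inv)
  have h2 : ∑ v, f (ε * v ^ 2) = ∑ Δ, (-(quadraticChar F Δ : ℝ) + 1) * f Δ := by
    rw [← Finset.sum_fiberwise univ (fun v : F => ε * v ^ 2) fun v => f (ε * v ^ 2)]
    refine Finset.sum_congr rfl fun Δ _ => ?_
    rw [Finset.sum_congr rfl (g := fun _ => f Δ) fun s hs => by rw [(Finset.mem_filter.1 hs).2],
      Finset.sum_const, nsmul_eq_mul]
    have h3 : (univ.filter fun v : F => ε * v ^ 2 = Δ) = univ.filter fun v : F => v ^ 2 = ε⁻¹ * Δ := by
      ext v
      simp only [Finset.mem_filter, Finset.mem_univ, true_and]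
      constructor
      · rintro rfl
        rw [inv_mul_cancel_left₀ hε0]
      · intro h
        rw [h, mul_inv_cancel_left₀ hε0]
    rw [h3, card_sq, map_mul, hχ]
    push_cast
    ring
  rw [h1, h2, ← Finset.sum_add_distrib, Finset.mul_sum]
  refine Finset.sum_congr rfl fun Δ _ => ?_
  ring

open Classical in
theorem hyperbola (t : F) : ∑ u : F, ∑ v : F, (if u * v = t then (1 : ℝ) else 0) =
    ((Fintype.card F : ℝ) - 1) + Fintype.card F * (if t = 0 then 1 else 0) := by
  have h1 : ∀ u : F, ∑ v : F, (if u * v = t then (1 : ℝ) else 0) =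
      1 + (if u = 0 then ((Fintype.card F : ℝ) * (if t = 0 then 1 else 0) - 1) else 0) := by
    intro u
    by_cases hu : u = 0
    · subst hu
      simp only [zero_mul, if_true, eq_comm (a := (0 : F))]
      rw [Finset.sum_const, nsmul_eq_mul, Finset.card_univ]
      ring
    · rw [if_neg hu, add_zero, Finset.sum_eq_single (u⁻¹ * t)]
      · rw [if_pos (mul_inv_cancel_left₀ hu t)]
      · intro v _ hv
        rw [if_neg]
        rintro rfl
        exact hv (inv_mul_cancel_left₀ hu v).symm
      · intro h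
        exact absurd (Finset.mem_univ _) h
  rw [Finset.sum_congr rfl fun u _ => h1 u, Finset.sum_add_distrib, Finset.sum_const, nsmul_eq_mul,
    Finset.sum_ite_eq' univ (0 : F), if_pos (Finset.mem_univ _), Finset.card_univ]
  ring

open Classical in
/-- the differences of two squares -/
theorem diff_sq (hF : ringChar F ≠ 2) (t : F) :
    ∑ y : F, ∑ y' : F, (if y ^ 2 - y' ^ 2 = t then (1 : ℝ) else 0) =
      ((Fintype.card F : ℝ) - 1) + Fintype.card F * (if t = 0 then 1 else 0) := by
  have h2 : (2 : F) ≠ 0 := Ring.two_ne_zero hF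
  rw [← hyperbola t, ← Fintype.sum_prod_type' (fun y y' : F => if y ^ 2 - y' ^ 2 = t then (1 : ℝ) else 0),
    ← Fintype.sum_prod_type' (fun u v : F => if u * v = t then (1 : ℝ) else 0)]
  let E : F × F ≃ F × F :=
    { toFun := fun p => (p.1 - p.2, p.1 + p.2)
      invFun := fun p => ((p.1 + p.2) / 2, (p.2 - p.1) / 2)
      left_inv := fun p => by
        ext
        · show (p.1 - p.2 + (p.1 + p.2)) / 2 = p.1
          field_simp
          ring
        · show (p.1 + p.2 - (p.1 - p.2)) / 2 = p.2
          field_simp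
          ring
      right_inv := fun p => by
        ext
        · show (p.1 + p.2) / 2 - (p.2 - p.1) / 2 = p.1
          field_simp
          ring
        · show (p.1 + p.2) / 2 + (p.2 - p.1) / 2 = p.2
          field_simp
          ring }
  refine Fintype.sum_equiv E _ _ fun p => ?_
  show _ = if (p.1 - p.2) * (p.1 + p.2) = t then (1 : ℝ) else 0
  rw [show (p.1 - p.2) * (p.1 + p.2) = p.1 ^ 2 - p.2 ^ 2 by ring]

open Classical in
/-- the sum over pairs of elements in terms of the centre and the distance -/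
theorem sum_centre (hF : ringChar F ≠ 2) (f : F → F → ℝ) :
    ∑ x : F, ∑ x' : F, f x x' = ∑ m : F, ∑ s : F, f (m + s) (m - s) := by
  have h2 : (2 : F) ≠ 0 := Ring.two_ne_zero hF
  rw [← Fintype.sum_prod_type' f, ← Fintype.sum_prod_type' (fun m s : F => f (m + s) (m - s))]
  let E : F × F ≃ F × F :=
    { toFun := fun p => (p.1 + p.2, p.1 - p.2)
      invFun := fun p => ((p.1 + p.2) / 2, (p.1 - p.2) / 2)
      left_inv := fun p => by
        ext
        · show (p.1 + p.2 + (p.1 - p.2)) / 2 = p.1
          field_simp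
          ring
        · show (p.1 + p.2 - (p.1 - p.2)) / 2 = p.2
          field_simp
          ring
      right_inv := fun p => by
        ext
        · show (p.1 + p.2) / 2 + (p.1 - p.2) / 2 = p.1
          field_simp
          ring
        · show (p.1 + p.2) / 2 - (p.1 - p.2) / 2 = p.2
          field_simp
          ring }
  exact (Fintype.sum_equiv E _ _ fun p => rfl).symm

variable (c : F[X])

/-- the quadratic polynomials which divide a translate -/
noncomputable def quad (e : F × F) : F[X] := X ^ 2 - C e.1 * X + C e.2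

open Classical in
/-- the number of the quadratic divisors of the translates -/
noncomputable def zAll : ℝ := ∑ w : F, ∑ e : F × F, (if quad e ∣ c + C w then (1 : ℝ) else 0)

/-- the quadratic divisors in terms of the centre -/
theorem quad_dvd (hF : ringChar F ≠ 2) (m Δ w : F) {P Q : F[X]}
    (h : c.comp (X + C m) = P.comp (X ^ 2) + X * Q.comp (X ^ 2)) :
    quad (2 * m, m ^ 2 - Δ) ∣ c + C w ↔ P.eval Δ + w = 0 ∧ Q.eval Δ = 0 := by
  have h1 : (quad (2 * m, m ^ 2 - Δ)).comp (X + C m) = X ^ 2 - C Δ := by
    unfold quad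
    simp only [sub_comp, add_comp, mul_comp, X_comp, C_comp, pow_comp, C_sub, C_mul, C_pow]
    have : (C (2 : F) : F[X]) = 2 := by rw [map_ofNat]
    rw [this]
    ring
  have h2 : quad (2 * m, m ^ 2 - Δ) ∣ c + C w ↔ X ^ 2 - C Δ ∣ c.comp (X + C m) + C w := by
    constructor
    · rintro ⟨g, hg⟩
      refine ⟨g.comp (X + C m), ?_⟩
      have := congrArg (fun p => p.comp (X + C m)) hg
      simp only [add_comp, mul_comp, C_comp] at this
      rw [this]
      congr 1
    · rintro ⟨g, hg⟩
      refine ⟨g.comp (X - C m), ?_⟩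
      have := congrArg (fun p => p.comp (X - C m)) hg
      simp only [add_comp, mul_comp, C_comp] at this
      rw [comp_assoc] at this
      have e1 : (X + C m : F[X]).comp (X - C m) = X := by simp
      rw [e1, comp_X] at this
      rw [this, ← h1, comp_assoc, e1, comp_X]
  rw [h2, h]
  have hm : (X ^ 2 - C Δ : F[X]).Monic := monic_X_pow_sub_C Δ two_ne_zero
  have hdeg : (X ^ 2 - C Δ : F[X]).degree = 2 := degree_X_pow_sub_C (by norm_num) Δ
  have key : ∀ T : F[X], X ^ 2 - C Δ ∣ T.comp (X ^ 2) - C (T.eval Δ) := by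
    intro T
    have h3 : X - C Δ ∣ T - C (T.eval Δ) := X_sub_C_dvd_sub_C_eval
    obtain ⟨g, hg⟩ := h3
    refine ⟨g.comp (X ^ 2), ?_⟩
    have := congrArg (fun p => p.comp (X ^ 2)) hg
    simpa only [sub_comp, mul_comp, C_comp, X_comp] using this
  have h4 : X ^ 2 - C Δ ∣ P.comp (X ^ 2) + X * Q.comp (X ^ 2) + C w ↔
      X ^ 2 - C Δ ∣ C (P.eval Δ + w) + C (Q.eval Δ) * X := by
    have h5 : X ^ 2 - C Δ ∣ (P.comp (X ^ 2) + X * Q.comp (X ^ 2) + C w) -
        (C (P.eval Δ + w) + C (Q.eval Δ) * X) := by
      have e : (P.comp (X ^ 2) + X * Q.comp (X ^ 2) + C w) - (C (P.eval Δ + w) + C (Q.eval Δ) * X) =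
          (P.comp (X ^ 2) - C (P.eval Δ)) + X * (Q.comp (X ^ 2) - C (Q.eval Δ)) := by
        rw [C_add]
        ring
      rw [e]
      exact dvd_add (key P) (Dvd.dvd.mul_left (key Q) X)
    constructor
    · intro h6
      have := dvd_sub h6 h5
      simpa using this
    · intro h6
      have := dvd_add h5 h6
      simpa using this
  rw [h4]
  constructor
  · intro h6
    have h7 : C (P.eval Δ + w) + C (Q.eval Δ) * X = (0 : F[X]) := by
      refine eq_zero_of_dvd_of_degree_lt h6 ?_
      rw [hdeg]
      refine lt_of_le_of_lt (degree_add_le _ _) (max_lt ?_ ?_)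
      · exact lt_of_le_of_lt degree_C_le (by norm_num)
      · exact lt_of_le_of_lt (degree_C_mul_X_le _) (by norm_num)
    constructor
    · have := congrArg (fun p => p.coeff 0) h7
      simpa using this
    · have := congrArg (fun p => p.coeff 1) h7
      simpa using this
  · rintro ⟨h6, h7⟩
    rw [h6, h7]
    simp

end

end Pool.Agent.Helper94.KM
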