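import Pool.Agent.Helper94.KM.J1
import Mathlib.Algebra.QuadraticAlgebra.Basic

set_option autoImplicit false
set_option linter.all false

/-!
# The average of the trace on the second exterior power: the sums
-/

namespace Pool.Agent.Helper94.KM

open Polynomial Finset

section
variable {F : Type} [Field F] [Fintype F] (c : F[X])

/-- the even and the odd part of the translate -/
noncomputable def Pm (m : F) : F[X] := (even_odd (c.comp (X + C m))).choose
noncomputable def Qm (m : F) : F[X] := (even_odd (c.comp (X + C m))).choose_spec.choose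

theorem PQ (m : F) : c.comp (X + C m) = (Pm c m).comp (X ^ 2) + X * (Qm c m).comp (X ^ 2) :=
  (even_odd (c.comp (X + C m))).choose_spec.choose_spec

theorem Qm_zero (m : F) : (Qm c m).eval 0 = (derivative c).eval m := by
  have h := congrArg (fun p => (derivative p).eval 0) (PQ c m)
  simp only [derivative_comp, derivative_add, derivative_mul, derivative_X, derivative_C, eval_add,
    eval_mul, eval_comp, eval_X, eval_C, eval_pow, derivative_X_pow, add_zero, mul_one, eval_one,
    one_mul] at h
  simp at h
  exact h.symm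

theorem eval_centre (m s : F) : c.eval (m + s) = (Pm c m).eval (s ^ 2) + s * (Qm c m).eval (s ^ 2) := by
  have h := congrArg (fun p => p.eval s) (PQ c m)
  simp only [eval_comp, eval_add, eval_mul, eval_X, eval_C, eval_pow] at h
  rw [add_comm m s, h]

open Classical in
/-- the indicator function of the zeros of the odd part -/
noncomputable def fm (m Δ : F) : ℝ := if (Qm c m).eval Δ = 0 then 1 else 0

open Classical in
/-- the number of the critical points -/
noncomputable def z0 : ℝ := ∑ m : F, fm c m 0

open Classical in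
theorem zAll_eq (hF : ringChar F ≠ 2) : zAll c = ∑ m : F, ∑ Δ : F, fm c m Δ := by
  have h2 : (2 : F) ≠ 0 := Ring.two_ne_zero hF
  unfold zAll
  rw [Finset.sum_comm]
  let E : F × F ≃ F × F :=
    { toFun := fun p => (2 * p.1, p.1 ^ 2 - p.2)
      invFun := fun p => (p.1 / 2, (p.1 / 2) ^ 2 - p.2)
      left_inv := fun p => by
        ext
        · show 2 * p.1 / 2 = p.1
          field_simp
        · show (2 * p.1 / 2) ^ 2 - (p.1 ^ 2 - p.2) = p.2
          field_simp
          ring
      right_inv := fun p => by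
        ext
        · show 2 * (p.1 / 2) = p.1
          field_simp
        · show (p.1 / 2) ^ 2 - ((p.1 / 2) ^ 2 - p.2) = p.2
          ring }
  rw [← Fintype.sum_prod_type' (fun m Δ : F => fm c m Δ)]
  refine (Fintype.sum_equiv E _ _ fun p => ?_).symm
  show fm c p.1 p.2 = ∑ w : F, if quad (2 * p.1, p.1 ^ 2 - p.2) ∣ c + C w then (1 : ℝ) else 0
  simp only [quad_dvd c hF p.1 p.2 _ (PQ c p.1)]
  unfold fm
  rw [Finset.sum_eq_single (-(Pm c p.1).eval p.2)]
  · simp only [add_neg_cancel, true_and]
  · intro w _ hw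
    rw [if_neg]
    rintro ⟨h, -⟩
    exact hw (eq_neg_of_add_eq_zero_right h)
  · intro h
    exact absurd (Finset.mem_univ _) h

open Classical in
/-- pairs of arguments with the same value -/
theorem pairs_one (hF : ringChar F ≠ 2) : ∑ x : F, ∑ x' : F, (if c.eval x = c.eval x' then (1 : ℝ) else 0) =
    ∑ m : F, ∑ s : F, fm c m (s ^ 2) + (Fintype.card F : ℝ) - z0 c := by
  have h2 : (2 : F) ≠ 0 := Ring.two_ne_zero hF
  rw [sum_centre hF]
  have h1 : ∀ m : F, ∑ s : F, (if c.eval (m + s) = c.eval (m - s) then (1 : ℝ) else 0) =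
      ∑ s : F, fm c m (s ^ 2) + (1 - fm c m 0) := by
    intro m
    have h3 : ∀ s : F, (if c.eval (m + s) = c.eval (m - s) then (1 : ℝ) else 0) =
        fm c m (s ^ 2) + if s = 0 then 1 - fm c m 0 else 0 := by
      intro s
      by_cases hs : s = 0
      · subst hs
        rw [if_pos (by rw [add_zero, sub_zero]), if_pos rfl]
        norm_num
      · rw [if_neg hs, add_zero]
        unfold fm
        congr 1
        apply propext
        rw [eval_centre c m s, sub_eq_add_neg, eval_centre c m (-s), neg_sq]
        constructor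
        · intro h
          have h4 : (2 * s) * (Qm c m).eval (s ^ 2) = 0 := by linear_combination h
          rcases mul_eq_zero.1 h4 with h5 | h5
          · exact absurd h5 (mul_ne_zero h2 hs)
          · exact h5
        · intro h
          rw [h]
          ring
    rw [Finset.sum_congr rfl fun s _ => h3 s, Finset.sum_add_distrib,
      Finset.sum_ite_eq' univ (0 : F), if_pos (Finset.mem_univ _)]
  rw [Finset.sum_congr rfl fun m _ => h1 m, Finset.sum_add_distrib, Finset.sum_sub_distrib,
    Finset.sum_const, nsmul_eq_mul, Finset.card_univ]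
  unfold z0
  ring

variable {ε : F}

open Classical in
/-- elements of the quadratic extension with values in the field -/
theorem pairs_two (hF : ringChar F ≠ 2) : ∑ m : F, ∑ v : F,
      (if (aeval (⟨m, v⟩ : QuadraticAlgebra F ε 0) c).im = 0 then (1 : ℝ) else 0) =
    ∑ m : F, ∑ s : F, fm c m (ε * s ^ 2) + (Fintype.card F : ℝ) - z0 c := by
  have key : ∀ m v : F, (aeval (⟨m, v⟩ : QuadraticAlgebra F ε 0) c).im =
      v * (Qm c m).eval (ε * v ^ 2) := by
    intro m v
    have h := congrArg (fun p => aeval (⟨0, v⟩ : QuadraticAlgebra F ε 0) p) (PQ c m)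
    simp only [aeval_comp, map_add, map_mul, map_pow, aeval_X, aeval_C] at h
    have e1 : (⟨0, v⟩ : QuadraticAlgebra F ε 0) + algebraMap F (QuadraticAlgebra F ε 0) m = ⟨m, v⟩ := by
      ext <;> simp [QuadraticAlgebra.algebraMap_eq]
    have e2 : (⟨0, v⟩ : QuadraticAlgebra F ε 0) ^ 2 =
        algebraMap F (QuadraticAlgebra F ε 0) (ε * v ^ 2) := by
      rw [sq]
      ext
      · simp [QuadraticAlgebra.algebraMap_eq]
        ring
      · simp [QuadraticAlgebra.algebraMap_eq]
    rw [e1, e2, aeval_algebraMap_apply, aeval_algebraMap_apply] at h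
    rw [h]
    simp [QuadraticAlgebra.algebraMap_eq, coe_aeval_eq_eval]
  have h1 : ∀ m : F, ∑ v : F,
      (if (aeval (⟨m, v⟩ : QuadraticAlgebra F ε 0) c).im = 0 then (1 : ℝ) else 0) =
      ∑ s : F, fm c m (ε * s ^ 2) + (1 - fm c m 0) := by
    intro m
    have h3 : ∀ v : F, (if (aeval (⟨m, v⟩ : QuadraticAlgebra F ε 0) c).im = 0 then (1 : ℝ) else 0) =
        fm c m (ε * v ^ 2) + if v = 0 then 1 - fm c m 0 else 0 := by
      intro v
      rw [key]
      by_cases hs : v = 0
      · subst hs
        rw [if_pos (zero_mul _), if_pos rfl]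
        norm_num
      · rw [if_neg hs, add_zero]
        unfold fm
        congr 1
        apply propext
        rw [mul_eq_zero, or_iff_right hs]
    rw [Finset.sum_congr rfl fun s _ => h3 s, Finset.sum_add_distrib,
      Finset.sum_ite_eq' univ (0 : F), if_pos (Finset.mem_univ _)]
  rw [Finset.sum_congr rfl fun m _ => h1 m, Finset.sum_add_distrib, Finset.sum_sub_distrib,
    Finset.sum_const, nsmul_eq_mul, Finset.card_univ]
  unfold z0
  ring

open Classical in
/-- the number of the affine points -/
noncomputable def N1 (w : F) : ℝ := ∑ p : F × F, (if p.2 ^ 2 = c.eval p.1 + w then (1 : ℝ) else 0)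

open Classical in
theorem sum_N1 : ∑ w : F, N1 c w = (Fintype.card F : ℝ) ^ 2 := by
  unfold N1
  rw [Finset.sum_comm]
  have h1 : ∀ p : F × F, ∑ w : F, (if p.2 ^ 2 = c.eval p.1 + w then (1 : ℝ) else 0) = 1 := by
    intro p
    rw [Finset.sum_eq_single (p.2 ^ 2 - c.eval p.1)]
    · rw [if_pos (by ring)]
    · intro w _ hw
      rw [if_neg]
      intro h
      exact hw (by rw [h]; ring)
    · intro h
      exact absurd (Finset.mem_univ _) h
  rw [Finset.sum_congr rfl fun p _ => h1 p, Finset.sum_const, nsmul_eq_mul, mul_one,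
    Finset.card_univ, Fintype.card_prod]
  push_cast
  ring

open Classical in
theorem sum_N1_sq (hF : ringChar F ≠ 2) : ∑ w : F, N1 c w ^ 2 =
    ((Fintype.card F : ℝ) - 1) * (Fintype.card F : ℝ) ^ 2 +
      Fintype.card F * ∑ x : F, ∑ x' : F, (if c.eval x = c.eval x' then (1 : ℝ) else 0) := by
  have h1 : ∀ w : F, N1 c w ^ 2 = ∑ p : F × F, ∑ p' : F × F,
      ((if p.2 ^ 2 = c.eval p.1 + w then (1 : ℝ) else 0) *
        (if p'.2 ^ 2 = c.eval p'.1 + w then (1 : ℝ) else 0)) := by
    intro w
    unfold N1
    rw [sq, Finset.sum_mul_sum]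
  have h2 : ∀ p p' : F × F, ∑ w : F, ((if p.2 ^ 2 = c.eval p.1 + w then (1 : ℝ) else 0) *
      (if p'.2 ^ 2 = c.eval p'.1 + w then (1 : ℝ) else 0)) =
      if p.2 ^ 2 - p'.2 ^ 2 = c.eval p.1 - c.eval p'.1 then 1 else 0 := by
    intro p p'
    rw [Finset.sum_eq_single (p.2 ^ 2 - c.eval p.1)]
    · rw [if_pos (by ring), one_mul]
      congr 1
      apply propext
      constructor
      · intro h
        linear_combination -h
      · intro h
        linear_combination -h
    · intro w _ hw
      rw [if_neg, zero_mul]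
      intro h
      exact hw (by rw [h]; ring)
    · intro h
      exact absurd (Finset.mem_univ _) h
  have h3 : ∑ w : F, N1 c w ^ 2 = ∑ p : F × F, ∑ p' : F × F,
      if p.2 ^ 2 - p'.2 ^ 2 = c.eval p.1 - c.eval p'.1 then (1 : ℝ) else 0 := by
    rw [Finset.sum_congr rfl fun w _ => h1 w, Finset.sum_comm]
    refine Finset.sum_congr rfl fun p _ => ?_
    rw [Finset.sum_comm]
    exact Finset.sum_congr rfl fun p' _ => h2 p p'
  have h4 : ∑ p : F × F, ∑ p' : F × F,
      (if p.2 ^ 2 - p'.2 ^ 2 = c.eval p.1 - c.eval p'.1 then (1 : ℝ) else 0) =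
      ∑ x : F, ∑ x' : F, ∑ y : F, ∑ y' : F,
        (if y ^ 2 - y' ^ 2 = c.eval x - c.eval x' then (1 : ℝ) else 0) := by
    rw [Fintype.sum_prod_type]
    refine Finset.sum_congr rfl fun x _ => ?_
    simp only [Fintype.sum_prod_type]
    rw [Finset.sum_comm]
  rw [h3, h4]
  simp only [diff_sq hF, sub_eq_zero]
  simp only [Finset.sum_add_distrib, Finset.sum_const, nsmul_eq_mul, Finset.card_univ, ← Finset.mul_sum]
  ring

end

end Pool.Agent.Helper94.KM
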