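import Pool.Agent.Helper94.KM.J2
import Pool.Agent.R410.NG.Res

set_option autoImplicit false
set_option linter.all false

/-!
# The points over the quadratic extension
-/

namespace Pool.Agent.Helper94.KM

open Polynomial Finset

section
variable {F : Type} [Field F] [Fintype F] (c : F[X]) {ε : F}

open Classical in
theorem sum_E (hF : ringChar F ≠ 2) : ∑ w : F, ∑ z : F × F, ∑ y : F × F,
      (if (⟨y.1, y.2⟩ : QuadraticAlgebra F ε 0) ^ 2 = aeval (⟨z.1, z.2⟩ : QuadraticAlgebra F ε 0) c +
        algebraMap F (QuadraticAlgebra F ε 0) w then (1 : ℝ) else 0) =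
    ((Fintype.card F : ℝ) - 1) * (Fintype.card F : ℝ) ^ 2 + Fintype.card F * ∑ m : F, ∑ v : F,
      (if (aeval (⟨m, v⟩ : QuadraticAlgebra F ε 0) c).im = 0 then (1 : ℝ) else 0) := by
  have h2 : (2 : F) ≠ 0 := Ring.two_ne_zero hF
  rw [Finset.sum_comm]
  have h1 : ∀ z : F × F, ∑ w : F, ∑ y : F × F,
      (if (⟨y.1, y.2⟩ : QuadraticAlgebra F ε 0) ^ 2 = aeval (⟨z.1, z.2⟩ : QuadraticAlgebra F ε 0) c +
        algebraMap F (QuadraticAlgebra F ε 0) w then (1 : ℝ) else 0) =
      ((Fintype.card F : ℝ) - 1) + Fintype.card F *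
        (if (aeval (⟨z.1, z.2⟩ : QuadraticAlgebra F ε 0) c).im = 0 then (1 : ℝ) else 0) := by
    intro z
    set A := aeval (⟨z.1, z.2⟩ : QuadraticAlgebra F ε 0) c with hA
    rw [Finset.sum_comm]
    have h3 : ∀ y : F × F, ∑ w : F, (if (⟨y.1, y.2⟩ : QuadraticAlgebra F ε 0) ^ 2 =
        A + algebraMap F (QuadraticAlgebra F ε 0) w then (1 : ℝ) else 0) =
        if (2 * y.1) * y.2 = A.im then 1 else 0 := by
      intro y
      have h4 : ∀ w : F, (⟨y.1, y.2⟩ : QuadraticAlgebra F ε 0) ^ 2 =
          A + algebraMap F (QuadraticAlgebra F ε 0) w ↔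
          w = y.1 ^ 2 + ε * y.2 ^ 2 - A.re ∧ (2 * y.1) * y.2 = A.im := by
        intro w
        rw [QuadraticAlgebra.ext_iff, sq, QuadraticAlgebra.re_mul, QuadraticAlgebra.im_mul,
          QuadraticAlgebra.re_add, QuadraticAlgebra.im_add, QuadraticAlgebra.algebraMap_re,
          QuadraticAlgebra.algebraMap_im]
        constructor
        · rintro ⟨e1, e2⟩
          constructor
          · linear_combination -e1
          · linear_combination e2
        · rintro ⟨e1, e2⟩
          constructor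
          · rw [e1]
            ring
          · linear_combination e2
      simp only [h4]
      rw [Finset.sum_eq_single (y.1 ^ 2 + ε * y.2 ^ 2 - A.re)]
      · simp only [true_and]
      · intro w _ hw
        rw [if_neg]
        rintro ⟨h, -⟩
        exact hw h
      · intro h
        exact absurd (Finset.mem_univ _) h
    rw [Finset.sum_congr rfl fun y _ => h3 y, Fintype.sum_prod_type]
    rw [← hyperbola A.im]
    let E : F ≃ F := Equiv.mulLeft₀ 2 h2
    exact Fintype.sum_equiv E _ _ fun u => rfl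
  rw [Finset.sum_congr rfl fun z _ => h1 z, Finset.sum_add_distrib, Finset.sum_const, nsmul_eq_mul,
    Finset.card_univ, Fintype.card_prod, ← Finset.mul_sum, Fintype.sum_prod_type]
  push_cast
  ring

end

section
/-- the number of the affine points over the field with `q²` elements -/
noncomputable def cnt2 (F : Type) [Field F] (g : F[X]) : ℕ :=
  Nat.card {P : AlgebraicClosure F × AlgebraicClosure F //
    P.1 ^ (Nat.card F ^ 2) = P.1 ∧ P.2 ^ (Nat.card F ^ 2) = P.2 ∧ P.2 ^ 2 = aeval P.1 g}

/-- the trace of the square of the Frobenius -/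
noncomputable def trc2 (F : Type) [Field F] (g : F[X]) : ℝ := (Nat.card F : ℝ) ^ 2 - cnt2 F g

theorem cnt2_eq {F : Type} [Field F] [Finite F] {E : Type} [Field E] [Algebra F E]
    (hE : Nat.card E = Nat.card F ^ 2) (g : F[X]) :
    cnt2 F g = Nat.card {P : E × E // P.2 ^ 2 = aeval P.1 g} := by
  classical
  have hqpos : 0 < Nat.card F := Nat.card_pos
  have hfin : Finite E := Nat.finite_of_card_ne_zero (by rw [hE]; positivity)
  let _ : Fintype E := Fintype.ofFinite E
  have hEc : Fintype.card E = Nat.card F ^ 2 := by rw [← Nat.card_eq_fintype_card, hE]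
  have halg : Algebra.IsAlgebraic F E := Algebra.IsAlgebraic.of_finite F E
  let ι : E →ₐ[F] AlgebraicClosure F := IsAlgClosed.lift
  have hι : Function.Injective ι := ι.injective
  have h1 : ∀ x : E, ι x ^ (Nat.card F ^ 2) = ι x := by
    intro x
    rw [← map_pow, ← hEc, FiniteField.pow_card]
  have hq2 : 1 < Nat.card F ^ 2 := by
    have : 1 < Nat.card F := Finite.one_lt_card
    nlinarith
  have h2 : ∀ z : AlgebraicClosure F, z ^ (Nat.card F ^ 2) = z → ∃ x : E, ι x = z := by
    intro z hz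
    have hne : (X ^ (Nat.card F ^ 2) - X : (AlgebraicClosure F)[X]) ≠ 0 :=
      FiniteField.X_pow_card_sub_X_ne_zero _ hq2
    have hcard : (univ.image ι).card = Nat.card F ^ 2 := by
      rw [Finset.card_image_of_injective _ hι, Finset.card_univ, hEc]
    have hsub : univ.image ι ⊆ (X ^ (Nat.card F ^ 2) - X : (AlgebraicClosure F)[X]).roots.toFinset := by
      intro y hy
      obtain ⟨x, -, rfl⟩ := Finset.mem_image.1 hy
      rw [Multiset.mem_toFinset, mem_roots hne]
      simp [h1]
    have hle : (X ^ (Nat.card F ^ 2) - X : (AlgebraicClosure F)[X]).roots.toFinset.card ≤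
        (univ.image ι).card := by
      rw [hcard]
      refine (Multiset.toFinset_card_le _).trans ((card_roots' _).trans ?_)
      rw [FiniteField.X_pow_card_sub_X_natDegree_eq _ hq2]
    have heq := Finset.eq_of_subset_of_card_le hsub hle
    have hmem : z ∈ univ.image ι := by
      rw [heq, Multiset.mem_toFinset, mem_roots hne]
      simp [hz]
    obtain ⟨x, -, hx⟩ := Finset.mem_image.1 hmem
    exact ⟨x, hx⟩
  unfold cnt2
  symm
  have hev : ∀ x : E, aeval (ι x) g = ι (aeval x g) := fun x => aeval_algHom_apply ι x g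
  refine Nat.card_congr (Equiv.ofBijective (fun P => ⟨(ι P.1.1, ι P.1.2), h1 _, h1 _, ?_⟩) ⟨?_, ?_⟩)
  · show ι P.1.2 ^ 2 = aeval (ι P.1.1) g
    rw [hev, ← P.2, map_pow]
  · intro P Q h
    have h3 := congrArg (fun z => z.1.1) h
    have h4 := congrArg (fun z => z.1.2) h
    exact Subtype.ext (Prod.ext (hι h3) (hι h4))
  · rintro ⟨⟨x, y⟩, hx, hy, hxy⟩
    obtain ⟨x', rfl⟩ := h2 x hx
    obtain ⟨y', rfl⟩ := h2 y hy
    refine ⟨⟨(x', y'), ?_⟩, rfl⟩
    apply hι
    have h5 : ι y' ^ 2 = aeval (ι x') g := hxy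
    rw [hev] at h5
    rw [map_pow]
    exact h5

theorem cnt2_iso {F F' : Type} [Field F] [Field F'] (e : F ≃+* F') (g : F[X]) :
    cnt2 F' (g.map (e : F →+* F')) = cnt2 F g := by
  have hc : Nat.card F' = Nat.card F := (Nat.card_congr e.toEquiv).symm
  let σ : AlgebraicClosure F ≃+* AlgebraicClosure F' :=
    IsAlgClosure.equivOfEquiv (AlgebraicClosure F) (AlgebraicClosure F') e
  have hσ : ∀ a : F, σ (algebraMap F _ a) = algebraMap F' _ (e a) := fun a =>
    IsAlgClosure.equivOfEquiv_algebraMap _ _ e a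
  have hev : ∀ x : AlgebraicClosure F, aeval (σ x) (g.map (e : F →+* F')) = σ (aeval x g) := by
    intro x
    rw [aeval_def, aeval_def, eval₂_map]
    rw [show σ (eval₂ (algebraMap F (AlgebraicClosure F)) x g) =
      (σ : AlgebraicClosure F →+* AlgebraicClosure F') (eval₂ (algebraMap F (AlgebraicClosure F)) x g)
        from rfl, hom_eval₂]
    congr 1
    exact RingHom.ext fun a => (hσ a).symm
  unfold cnt2
  rw [hc]
  symm
  refine Nat.card_congr ((Equiv.prodCongr σ.toEquiv σ.toEquiv).subtypeEquiv fun P => ?_)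
  show _ ↔ σ P.1 ^ _ = σ P.1 ∧ σ P.2 ^ _ = σ P.2 ∧ σ P.2 ^ 2 = aeval (σ P.1) (g.map (e : F →+* F'))
  rw [hev, ← map_pow, ← map_pow, ← map_pow, σ.injective.eq_iff, σ.injective.eq_iff,
    σ.injective.eq_iff]

end

end Pool.Agent.Helper94.KM
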