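import Pool.Agent.Helper94.KM.J3

set_option autoImplicit false
set_option linter.all false

/-!
# The weights
-/

namespace Pool.Agent.Helper94.KM

open Polynomial Finset
open Pool.Agent.R410.NG (trc trc_iso trc_bound Wt IsWt)

/-- the trace on the second exterior power divided by the order of the field -/
noncomputable def wJ : Wt Unit := fun F _ p =>
  (Nat.card F : ℝ)⁻¹ * ((trc F (p ()) ^ 2 - trc2 F (p ())) / 2)

/-- the number of the monic quadratic divisors -/
noncomputable def wQ : Wt Unit := fun F _ p => (Nat.card {e : F × F // quad e ∣ p ()} : ℝ)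

section
variable {F : Type} [Field F] [Fintype F] (c : F[X])

open Classical in
/-- **The sum over the translates.** -/
theorem sum_wJ (hF : ringChar F ≠ 2) : ∑ w : F, wJ F (fun _ => c + C w) = zAll c - z0 c := by
  have hq0 : (Fintype.card F : ℝ) ≠ 0 := by
    have : 0 < Fintype.card F := Fintype.card_pos
    positivity
  obtain ⟨ε, hε⟩ := FiniteField.exists_nonsquare hF
  have hfact : Fact (∀ r : F, r ^ 2 ≠ ε + 0 * r) := ⟨fun r h => hε ⟨r, by rw [← sq, h]; ring⟩⟩
  let _ : Fintype (QuadraticAlgebra F ε 0) :=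
    Fintype.ofEquiv (F × F) (QuadraticAlgebra.equivProd ε 0).symm
  have hE : Nat.card (QuadraticAlgebra F ε 0) = Nat.card F ^ 2 := by
    rw [Nat.card_congr (QuadraticAlgebra.equivProd ε 0), Nat.card_prod, sq]
  -- the points over the field
  have e1 : ∀ w : F, trc F (c + C w) = (Fintype.card F : ℝ) - N1 c w := by
    intro w
    unfold trc N1
    rw [Nat.card_eq_fintype_card, Nat.card_eq_fintype_card, Fintype.card_subtype, Finset.sum_boole]
    simp only [eval_add, eval_C]
  -- the points over the quadratic extension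
  have e2 : ∀ w : F, (cnt2 F (c + C w) : ℝ) = ∑ z : F × F, ∑ y : F × F,
      (if (⟨y.1, y.2⟩ : QuadraticAlgebra F ε 0) ^ 2 = aeval (⟨z.1, z.2⟩ : QuadraticAlgebra F ε 0) c +
        algebraMap F (QuadraticAlgebra F ε 0) w then (1 : ℝ) else 0) := by
    intro w
    rw [cnt2_eq hE, Nat.card_eq_fintype_card, Fintype.card_subtype, ← Finset.sum_boole,
      Fintype.sum_prod_type]
    refine Fintype.sum_equiv (QuadraticAlgebra.equivProd ε 0) _ _ fun z => ?_
    refine Fintype.sum_equiv (QuadraticAlgebra.equivProd ε 0) _ _ fun y => ?_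
    rw [map_add, aeval_C]
    rfl
  have h1 := sum_N1 c
  have h2 := sum_N1_sq c hF
  have h3 := sum_E c (ε := ε) hF
  rw [pairs_one c hF] at h2
  rw [pairs_two c hF] at h3
  have h4 : ∑ m : F, ∑ s : F, fm c m (s ^ 2) + ∑ m : F, ∑ s : F, fm c m (ε * s ^ 2) =
      2 * zAll c := by
    rw [zAll_eq c hF, ← Finset.sum_add_distrib, Finset.mul_sum]
    exact Finset.sum_congr rfl fun m _ => twice hF hε (fm c m)
  have h5 : ∀ w : F, wJ F (fun _ => c + C w) = (Fintype.card F : ℝ)⁻¹ *
      ((-2 * Fintype.card F * N1 c w + N1 c w ^ 2 + cnt2 F (c + C w)) / 2) := by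
    intro w
    unfold wJ trc2
    rw [e1, Nat.card_eq_fintype_card]
    congr 2
    ring
  rw [Finset.sum_congr rfl fun w _ => h5 w, ← Finset.mul_sum, ← Finset.sum_div,
    Finset.sum_add_distrib, Finset.sum_add_distrib, ← Finset.mul_sum, h1, h2,
    Finset.sum_congr rfl fun w _ => e2 w, h3]
  have h6 : ∑ m : F, ∑ s : F, fm c m (s ^ 2) = 2 * zAll c - ∑ m : F, ∑ s : F, fm c m (ε * s ^ 2) := by
    linarith
  rw [h6]
  field_simp
  ring

open Classical in
theorem sum_wQ : ∑ w : F, wQ F (fun _ => c + C w) = zAll c := by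
  unfold wQ zAll
  refine Finset.sum_congr rfl fun w _ => ?_
  rw [Nat.card_eq_fintype_card, Fintype.card_subtype, Finset.sum_boole]

open Classical in
theorem z0_le {n : ℕ} (hn : c.natDegree = n) (hm : c.Monic) (h : ((n : ℕ) : F) ≠ 0) :
    0 ≤ z0 c ∧ z0 c ≤ n := by
  have hd : derivative c ≠ 0 := by
    intro h0
    have h1 : (derivative c).coeff (n - 1) = 0 := by rw [h0, coeff_zero]
    have hn0 : n ≠ 0 := by
      rintro rfl
      exact h (by norm_num)
    rw [coeff_derivative, Nat.sub_add_cancel (Nat.one_le_iff_ne_zero.2 hn0)] at h1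
    have h2 : c.coeff n = 1 := by rw [← hn]; exact hm
    rw [h2, one_mul] at h1
    apply h
    have h3 : ((n - 1 : ℕ) : F) + 1 = ((n - 1 + 1 : ℕ) : F) := by push_cast; rfl
    rw [h3, Nat.sub_add_cancel (Nat.one_le_iff_ne_zero.2 hn0)] at h1
    exact h1
  unfold z0 fm
  refine ⟨Finset.sum_nonneg fun m _ => by split_ifs <;> norm_num, ?_⟩
  rw [Finset.sum_boole]
  have h4 : (univ.filter fun m : F => (Qm c m).eval 0 = 0) ⊆ (derivative c).roots.toFinset := by
    intro m hmm
    rw [Finset.mem_filter, Qm_zero] at hmm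
    rw [Multiset.mem_toFinset, mem_roots hd]
    exact hmm.2
  have h5 := (Finset.card_le_card h4).trans ((Multiset.toFinset_card_le _).trans
    ((card_roots' _).trans (natDegree_derivative_le c)))
  rw [hn] at h5
  exact_mod_cast h5.trans (Nat.sub_le _ _)

end

section
variable {F : Type} [Field F]

theorem quad_monic (e : F × F) : (quad e).Monic := by
  unfold quad
  monicity!

theorem quad_natDegree (e : F × F) : (quad e).natDegree = 2 := by
  unfold quad
  compute_degree!

theorem quad_inj {e e' : F × F} (h : quad e = quad e') : e = e' := by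
  have h1 := congrArg (fun p => p.coeff 1) h
  have h0 := congrArg (fun p => p.coeff 0) h
  unfold quad at h0 h1
  simp at h0 h1
  exact Prod.ext h1 h0

theorem quad_map {F' : Type} [Field F'] (f : F →+* F') (e : F × F) :
    (quad e).map f = quad (f e.1, f e.2) := by
  unfold quad
  simp

/-- there are only finitely many quadratic divisors -/
theorem quad_finite (g : F[X]) (hg : g ≠ 0) : Finite {e : F × F // quad e ∣ g} ∧
    Nat.card {e : F × F // quad e ∣ g} ≤ g.natDegree ^ 2 := by
  classical
  set L := AlgebraicClosure F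
  set T : Finset L := (g.map (algebraMap F L)).roots.toFinset with hT
  have hg' : g.map (algebraMap F L) ≠ 0 := (Polynomial.map_ne_zero_iff (algebraMap F L).injective).2 hg
  have hTc : T.card ≤ g.natDegree := by
    refine (Multiset.toFinset_card_le _).trans ((card_roots' _).trans ?_)
    rw [natDegree_map]
  have key : ∀ e : {e : F × F // quad e ∣ g}, ∃ z : T × T,
      algebraMap F L e.1.1 = z.1.1 + z.2.1 ∧ algebraMap F L e.1.2 = z.1.1 * z.2.1 := by
    intro e
    have hd : (quad e.1).map (algebraMap F L) ∣ g.map (algebraMap F L) :=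
      Polynomial.map_dvd _ e.2
    obtain ⟨x, hx⟩ := IsAlgClosed.exists_root ((quad e.1).map (algebraMap F L)) (by
      rw [degree_map, degree_eq_natDegree (quad_monic _).ne_zero, quad_natDegree]
      norm_num)
    rw [quad_map] at hd hx
    have hx0 : x ^ 2 - algebraMap F L e.1.1 * x + algebraMap F L e.1.2 = 0 := by
      unfold quad at hx
      simpa [IsRoot] using hx
    have hy : (quad (algebraMap F L e.1.1, algebraMap F L e.1.2)).eval (algebraMap F L e.1.1 - x) = 0 := by
      unfold quad
      simp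
      linear_combination hx0
    have hmem : ∀ y : L, (quad (algebraMap F L e.1.1, algebraMap F L e.1.2)).eval y = 0 → y ∈ T := by
      intro y hy
      rw [hT, Multiset.mem_toFinset, mem_roots hg']
      obtain ⟨k, hk⟩ := hd
      rw [hk, IsRoot, eval_mul, hy, zero_mul]
    refine ⟨(⟨x, hmem x hx⟩, ⟨_, hmem _ hy⟩), ?_, ?_⟩
    · show _ = x + (_ - x)
      ring
    · show _ = x * (_ - x)
      linear_combination hx0
  choose z hz1 hz2 using key
  have hinj : Function.Injective z := by
    intro a b hab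
    apply Subtype.ext
    refine Prod.ext ((algebraMap F L).injective ?_) ((algebraMap F L).injective ?_)
    · rw [hz1, hz1, hab]
    · rw [hz2, hz2, hab]
  refine ⟨Finite.of_injective z hinj, ?_⟩
  refine (Nat.card_le_card_of_injective z hinj).trans ?_
  rw [Nat.card_prod, Nat.card_eq_fintype_card, Fintype.card_coe, sq]
  exact Nat.mul_le_mul hTc hTc

end

theorem isWt_wQ (n : ℕ) : IsWt wQ (fun _ => n) ((n : ℝ) ^ 2) where
  c0 := by positivity
  iso F F' _ _ e p := by
    unfold wQ
    congr 1
    symm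
    refine Nat.card_congr ((Equiv.prodCongr e.toEquiv e.toEquiv).subtypeEquiv fun a => ?_)
    show quad a ∣ p () ↔ quad (e a.1, e a.2) ∣ (p ()).map (e : F →+* F')
    have h1 : quad (e a.1, e a.2) = (quad a).map (e : F →+* F') := (quad_map (e : F →+* F') a).symm
    rw [h1]
    exact (map_dvd_iff (mapEquiv e)).symm
  bound F _ _ p hp := by
    have hg : p () ≠ 0 := (hp ()).1.ne_zero
    have h1 := (quad_finite (p ()) hg).2
    rw [(hp ()).2] at h1
    have hq : (1 : ℝ) ≤ (Nat.card F : ℝ) := by exact_mod_cast Nat.card_pos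
    have hs : (1 : ℝ) ≤ √(Nat.card F : ℝ) := Real.one_le_sqrt.2 hq
    unfold wQ
    rw [Nat.abs_cast]
    have h2 : (Nat.card {e : F × F // quad e ∣ p ()} : ℝ) ≤ (n : ℝ) ^ 2 := by exact_mod_cast h1
    exact h2.trans (le_mul_of_one_le_right (by positivity) hs)

theorem exists_ext (F : Type) [Field F] [Finite F] : ∃ (E : Type) (_ : Field E) (_ : Algebra F E),
    Nat.card E = Nat.card F ^ 2 := by
  obtain ⟨p, hp⟩ := CharP.exists F
  have hpr : Fact p.Prime := ⟨(CharP.char_is_prime_or_zero F p).resolve_right fun h => by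
    subst h
    have := CharP.charP_to_charZero F
    exact (inferInstance : Infinite F).not_finite inferInstance⟩
  exact ⟨FiniteField.Extension F p 2, inferInstance, inferInstance, FiniteField.natCard_extension F p 2⟩

theorem wJ_bound {n : ℕ} (hodd : Odd n) (F : Type) [Field F] [Finite F] (p : Unit → F[X])
    (hp : ∀ j, (p j).Monic ∧ (p j).natDegree = n) : |wJ F p| ≤ ((n : ℝ) ^ 2 + n) / 2 := by
  obtain ⟨E, iE, aE, hE⟩ := exists_ext F
  have hqpos : 0 < Nat.card F := Nat.card_pos
  have hfin : Finite E := Nat.finite_of_card_ne_zero (by rw [hE]; positivity)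
  have hq : (0 : ℝ) < (Nat.card F : ℝ) := by exact_mod_cast hqpos
  have hs : √(Nat.card F : ℝ) * √(Nat.card F : ℝ) = Nat.card F := Real.mul_self_sqrt hq.le
  have h1 := trc_bound (hp ()).1 (hp ()).2 hodd
  have h2 : trc2 F (p ()) = trc E ((p ()).map (algebraMap F E)) := by
    unfold trc2 trc
    rw [cnt2_eq hE, hE]
    simp only [eval_map_algebraMap]
    push_cast
    rfl
  have h3 := trc_bound ((hp ()).1.map (algebraMap F E)) (by rw [natDegree_map]; exact (hp ()).2) hodd
  rw [← h2, hE] at h3
  push_cast at h3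
  rw [Real.sqrt_sq hq.le] at h3
  have h4 : trc F (p ()) ^ 2 ≤ (n : ℝ) ^ 2 * Nat.card F := by
    rw [← sq_abs]
    calc |trc F (p ())| ^ 2 ≤ ((n : ℝ) * √(Nat.card F : ℝ)) ^ 2 :=
          pow_le_pow_left₀ (abs_nonneg _) h1 2
      _ = _ := by rw [mul_pow, sq (√(Nat.card F : ℝ)), hs]
  unfold wJ
  rw [abs_mul, abs_inv, abs_of_pos hq, inv_mul_le_iff₀ hq, abs_div, abs_two]
  have h5 := abs_sub (trc F (p ()) ^ 2) (trc2 F (p ()))
  rw [abs_of_nonneg (sq_nonneg (trc F (p ())))] at h5
  have h6 : |trc F (p ()) ^ 2 - trc2 F (p ())| ≤ (n : ℝ) ^ 2 * Nat.card F + n * Nat.card F := by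
    linarith
  calc |trc F (p ()) ^ 2 - trc2 F (p ())| / 2 ≤ ((n : ℝ) ^ 2 * Nat.card F + n * Nat.card F) / 2 := by
        linarith
    _ = _ := by ring

theorem isWt_wJ {n : ℕ} (hodd : Odd n) : IsWt wJ (fun _ => n) (((n : ℝ) ^ 2 + n) / 2) where
  c0 := by positivity
  iso F F' _ _ e p := by
    unfold wJ trc2
    rw [trc_iso, cnt2_iso, Nat.card_congr e.toEquiv]
  bound F _ _ p hp := by
    have hq : (1 : ℝ) ≤ (Nat.card F : ℝ) := by exact_mod_cast Nat.card_pos
    exact (wJ_bound hodd F p hp).trans (le_mul_of_one_le_right (by positivity) (Real.one_le_sqrt.2 hq))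

end Pool.Agent.Helper94.KM
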