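import Pool.Agent.Helper94.KM.Orb

set_option autoImplicit false
set_option linter.all false

/-!
# Systems of polynomial equations with finitely many solutions: the average number of the solutions over
# the points of a scheme
-/

namespace Pool.Agent.Helper94.KM

open Polynomial NumberField
open Pool.Agent.R410.LW (FG frac_of_closure)
open Pool.Agent.R410.BS (good_le hom_le)
open Pool.Agent.R410.NG (Asy Ff sH asy_sH)

section
variable {K R : Type} [Field K] [CharZero K] [CommRing R] [IsDomain R] [Algebra.FiniteType ℤ R]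
  [Algebra R K] [IsFractionRing R K]

/-- the number of the points of the ring generated by a tuple is bounded -/
theorem tuple_le {e : ℕ} (he : Algebra.trdeg ℚ K = e) {L : Type} [Field L] [Algebra K L]
    [FiniteDimensional K L] {ι : Type} [Finite ι] (x : ι → L)
    (hx : IntermediateField.adjoin K (Set.range x) = ⊤) :
    ∃ C : ℝ, 0 ≤ C ∧ ∀ (F : Type) [Field F] [Finite F],
      (Nat.card {Φ : MvPolynomial ι R →+* F //
        RingHom.ker (evt K (R := R) x) ≤ RingHom.ker Φ} : ℝ) ≤ C * (Nat.card F : ℝ) ^ e := by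
  classical
  have hcL : CharZero L := charZero_of_injective_algebraMap (algebraMap K L).injective
  let θ : MvPolynomial ι R ⧸ RingHom.ker (evt K (R := R) x) →+* L := RingHom.kerLift (evt K (R := R) x)
  have hθ : Function.Injective θ := RingHom.kerLift_injective _
  have hdom : IsDomain (MvPolynomial ι R ⧸ RingHom.ker (evt K (R := R) x)) := hθ.isDomain θ
  let _ : Algebra (MvPolynomial ι R ⧸ RingHom.ker (evt K (R := R) x)) L := θ.toAlgebra
  have hfr : IsFractionRing (MvPolynomial ι R ⧸ RingHom.ker (evt K (R := R) x)) L := frac_tuple x hx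
  have hft0 : Algebra.FiniteType ℤ (MvPolynomial ι R) := ft_mv R ι
  have hft : Algebra.FiniteType ℤ (MvPolynomial ι R ⧸ RingHom.ker (evt K (R := R) x)) :=
    Algebra.FiniteType.of_surjective (Ideal.Quotient.mkₐ ℤ _) (Ideal.Quotient.mkₐ_surjective ℤ _)
  have hft' := ft_int' _ hft
  have htr : Algebra.trdeg ℚ L = e := trdeg_fin he
  obtain ⟨C, hC, h⟩ := hom_le (R := MvPolynomial ι R ⧸ RingHom.ker (evt K (R := R) x)) (K := L) hθ
    htr.le
  refine ⟨C, hC, fun F _ _ => le_trans ?_ (h F)⟩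
  rw [Nat.cast_le]
  have hfin : Finite (MvPolynomial ι R ⧸ RingHom.ker (evt K (R := R) x) →+* F) := inferInstance
  refine Nat.card_le_card_of_injective (fun Φ => Ideal.Quotient.lift _ Φ.1 fun a ha => Φ.2 ha) ?_
  intro a b hab
  apply Subtype.ext
  refine RingHom.ext fun f => ?_
  exact congrArg (fun g => g (Ideal.Quotient.mk _ f)) hab

end

section
variable {K R : Type} [Field K] [CharZero K] [CommRing R] [IsDomain R] [Algebra.FiniteType ℤ R]
  [Algebra R K] [IsFractionRing R K] {Ω : Type} [Field Ω] [Algebra K Ω] [IsAlgClosed Ω]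
  [Algebra.IsAlgebraic K Ω] {ι : Type} [Fintype ι]

theorem tuple_le' {e : ℕ} (he : Algebra.trdeg ℚ K = e) (x : ι → Ω) :
    ∃ C : ℝ, 0 ≤ C ∧ ∀ (F : Type) [Field F] [Finite F],
      (Nat.card {Φ : MvPolynomial ι R →+* F //
        RingHom.ker (evt K (R := R) x) ≤ RingHom.ker Φ} : ℝ) ≤ C * (Nat.card F : ℝ) ^ e := by
  let L := IntermediateField.adjoin K (Set.range x)
  let xL : ι → L := fun i => ⟨x i, IntermediateField.subset_adjoin K _ ⟨i, rfl⟩⟩
  have hfin : FiniteDimensional K L := IntermediateField.finiteDimensional_adjoin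
    fun y _ => Algebra.IsIntegral.isIntegral y
  have hcomp : (L.val : L →+* Ω).comp (evt K (R := R) xL) = evt K (R := R) x := by
    apply MvPolynomial.ringHom_ext
    · intro a
      rw [RingHom.comp_apply, evt, evt, MvPolynomial.eval₂Hom_C, MvPolynomial.eval₂Hom_C]
      rfl
    · intro i
      rw [RingHom.comp_apply, evt, evt, MvPolynomial.eval₂Hom_X', MvPolynomial.eval₂Hom_X']
      rfl
  have hker : RingHom.ker (evt K (R := R) xL) = RingHom.ker (evt K (R := R) x) := by
    rw [← hcomp]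
    ext f
    rw [RingHom.mem_ker, RingHom.mem_ker, RingHom.comp_apply]
    exact (map_eq_zero_iff _ (L.val : L →+* Ω).injective).symm
  have h := tuple_le (R := R) he xL (adjoin_tuple x)
  rw [hker] at h
  exact h

/-- the solutions of a system of equations -/
abbrev Sol (K : Type) {R : Type} [Field K] [CommRing R] [Algebra R K] {ι κ : Type} (Ω : Type) [Field Ω]
    [Algebra K Ω] (h : κ → MvPolynomial ι R) : Type :=
  {x : ι → Ω // ∀ c, evt K x (h c) = 0}

/-- conjugate solutions -/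
def SConj (K : Type) {R : Type} [Field K] [CommRing R] [Algebra R K] {ι κ : Type} (Ω : Type) [Field Ω]
    [Algebra K Ω] (h : κ → MvPolynomial ι R) (x y : Sol K Ω h) : Prop :=
  ∃ σ : Ω ≃ₐ[K] Ω, ∀ i, σ (x.1 i) = y.1 i

variable {κ : Type}

/-- the denominators of the elements of the ideal -/
theorem clear_ideal (h : κ → MvPolynomial ι R) (f : MvPolynomial ι K)
    (hf : f ∈ Ideal.span (Set.range fun c => MvPolynomial.map (algebraMap R K) (h c))) :
    ∃ (c : R) (g : MvPolynomial ι R), c ≠ 0 ∧ g ∈ Ideal.span (Set.range h) ∧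
      MvPolynomial.map (algebraMap R K) g = MvPolynomial.C (algebraMap R K c) * f := by
  induction hf using Submodule.span_induction with
  | mem x hx =>
    obtain ⟨c, rfl⟩ := hx
    exact ⟨1, h c, one_ne_zero, Ideal.subset_span ⟨c, rfl⟩, by rw [map_one, map_one, one_mul]⟩
  | zero => exact ⟨1, 0, one_ne_zero, Ideal.zero_mem _, by rw [map_zero, mul_zero]⟩
  | add x y _ _ hx hy =>
    obtain ⟨c, g, hc, hg, h1⟩ := hx
    obtain ⟨c', g', hc', hg', h1'⟩ := hy
    refine ⟨c * c', MvPolynomial.C c' * g + MvPolynomial.C c * g', mul_ne_zero hc hc',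
      Ideal.add_mem _ (Ideal.mul_mem_left _ _ hg) (Ideal.mul_mem_left _ _ hg'), ?_⟩
    rw [map_add, map_mul, map_mul, h1, h1', MvPolynomial.map_C, MvPolynomial.map_C, map_mul, map_mul]
    ring
  | smul a x _ hx =>
    obtain ⟨c, g, hc, hg, h1⟩ := hx
    obtain ⟨c', a', hc', h2⟩ := clear_mv (R := R) a
    refine ⟨c * c', a' * g, mul_ne_zero hc hc', Ideal.mul_mem_left _ _ hg, ?_⟩
    rw [map_mul, h1, h2, map_mul, map_mul, smul_eq_mul]
    ring

/-- **The points outside a closed subset come from the solutions over `Ω`.** -/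
theorem exists_den (h : κ → MvPolynomial ι R) : ∃ N₀ : R, N₀ ≠ 0 ∧
    ∀ (F : Type) [Field F] (Φ : MvPolynomial ι R →+* F), (∀ c, Φ (h c) = 0) →
      Φ (MvPolynomial.C N₀) ≠ 0 →
      ∀ f : MvPolynomial ι R, (∀ x : Sol K Ω h, evt K x.1 f = 0) → Φ f = 0 := by
  classical
  have hnR : IsNoetherianRing R := Algebra.FiniteType.isNoetherianRing ℤ R
  have hnS : IsNoetherianRing (MvPolynomial ι R) := inferInstance
  obtain ⟨I, hI⟩ : ∃ I : Ideal (MvPolynomial ι R), I = ⨅ x : Sol K Ω h, RingHom.ker (evt K (R := R) x.1) :=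
    ⟨_, rfl⟩
  have hmem : ∀ f, f ∈ I ↔ ∀ x : Sol K Ω h, evt K x.1 f = 0 := by
    intro f
    rw [hI, Ideal.mem_iInf]
    rfl
  have hpow : ∀ f ∈ I, ∃ (n : ℕ) (c : R), c ≠ 0 ∧
      MvPolynomial.C c * f ^ n ∈ Ideal.span (Set.range h) := by
    intro f hf
    have h1 : MvPolynomial.map (algebraMap R K) f ∈ MvPolynomial.vanishingIdeal K
        (MvPolynomial.zeroLocus Ω (Ideal.span (Set.range fun c =>
          MvPolynomial.map (algebraMap R K) (h c)))) := by
      rw [MvPolynomial.mem_vanishingIdeal_iff]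
      intro x hx
      rw [MvPolynomial.mem_zeroLocus_iff] at hx
      have hev : ∀ g : MvPolynomial ι R, MvPolynomial.aeval x (MvPolynomial.map (algebraMap R K) g) =
          evt K x g := by
        intro g
        rw [MvPolynomial.aeval_def, MvPolynomial.eval₂_map]
        rfl
      rw [hev]
      exact (hmem f).1 hf ⟨x, fun c => by
        rw [← hev]
        exact hx _ (Ideal.subset_span ⟨c, rfl⟩)⟩
    rw [MvPolynomial.vanishingIdeal_zeroLocus_eq_radical] at h1
    obtain ⟨n, hn⟩ := h1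
    obtain ⟨c, g, hc, hg, h2⟩ := clear_ideal h _ hn
    refine ⟨n, c, hc, ?_⟩
    have h3 : MvPolynomial.C c * f ^ n = g := by
      apply MvPolynomial.map_injective (algebraMap R K) (IsFractionRing.injective R K)
      rw [h2, map_mul, MvPolynomial.map_C, map_pow]
    rw [h3]
    exact hg
  obtain ⟨s, hs⟩ := (inferInstance : IsNoetherian (MvPolynomial ι R) (MvPolynomial ι R)).noetherian I
  have hsI : ∀ f ∈ s, f ∈ I := fun f hf => by
    rw [← hs]
    exact Submodule.subset_span hf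
  choose! n c hc hmem' using hpow
  refine ⟨∏ f ∈ s, c f, Finset.prod_ne_zero_iff.2 fun f hf => hc f (hsI f hf), ?_⟩
  intro F _ Φ hΦ hN f hf
  have hspan : Ideal.span (Set.range h) ≤ RingHom.ker Φ := by
    rw [Ideal.span_le]
    rintro _ ⟨c, rfl⟩
    exact hΦ c
  have hle : I ≤ RingHom.ker Φ := by
    rw [← hs]
    refine Submodule.span_le.2 fun g hg => ?_
    have h1 := hspan (hmem' g (hsI g hg))
    rw [RingHom.mem_ker, map_mul, map_pow] at h1
    rcases mul_eq_zero.1 h1 with h2 | h2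
    · exfalso
      apply hN
      rw [map_prod, map_prod]
      exact Finset.prod_eq_zero hg h2
    · exact eq_zero_of_pow_eq_zero h2
  exact hle ((hmem f).2 hf)

/-- **The average number of the solutions** over the points of a model of `K` is the number of the
orbits of the solutions in the algebraic closure under the Galois group. -/
theorem asy_sys (hK : FG K) {e : ℕ} (he : Algebra.trdeg ℚ K = e) (h : κ → MvPolynomial ι R)
    (hfinS : Finite (Sol K Ω h)) : ∃ N₀ : R, N₀ ≠ 0 ∧ ∀ N : R, N ≠ 0 → N₀ ∣ N →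
    Asy (fun F _ _ => (Nat.card {Φ : MvPolynomial ι R →+* F // (∀ c, Φ (h c) = 0) ∧
      Φ (MvPolynomial.C N) ≠ 0} : ℝ)) e (Nat.card (Quot (SConj K Ω h))) ∧
    ∃ C : ℝ, 0 ≤ C ∧ ∀ (F : Type) [Field F] [Finite F],
      (Nat.card {Φ : MvPolynomial ι R →+* F // (∀ c, Φ (h c) = 0) ∧
        Φ (MvPolynomial.C N) ≠ 0} : ℝ) ≤ C * (Nat.card F : ℝ) ^ e := by
  classical
  let _ : Fintype (Sol K Ω h) := Fintype.ofFinite _
  let _ : Fintype (Quot (SConj K Ω h)) := Fintype.ofFinite _
  let rep : Quot (SConj K Ω h) → Sol K Ω h := fun o => o.exists_rep.choose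
  have hrep : ∀ o, Quot.mk _ (rep o) = o := fun o => o.exists_rep.choose_spec
  obtain ⟨N₀, hN₀, hden⟩ := exists_den (K := K) (Ω := Ω) h
  refine ⟨N₀, hN₀, fun N hN hdvd => ?_⟩
  have hCN : ∀ x : ι → Ω, evt K (R := R) x (MvPolynomial.C N) ≠ 0 := by
    intro x
    rw [evt, MvPolynomial.eval₂Hom_C, RingHom.comp_apply, map_ne_zero_iff _ (algebraMap K Ω).injective]
    intro h2
    exact hN (IsFractionRing.injective R K (by rw [h2, map_zero]))
  -- equivalence relation
  have hequiv : ∀ x y : Sol K Ω h, Quot.mk (SConj K Ω h) x = Quot.mk (SConj K Ω h) y →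
      SConj K Ω h x y := by
    intro x y h0
    have h1 : Equivalence (SConj K Ω h) :=
      { refl := fun x => ⟨AlgEquiv.refl, fun i => rfl⟩
        symm := fun {x y} ⟨σ, hσ⟩ => ⟨σ.symm, fun i => by rw [← hσ i, AlgEquiv.symm_apply_apply]⟩
        trans := fun {x y z} ⟨σ, hσ⟩ ⟨τ, hτ⟩ => ⟨σ.trans τ, fun i => by
          rw [AlgEquiv.trans_apply, hσ, hτ]⟩ }
    exact h1.eqvGen_iff.1 (Quot.eqvGen_exact h0)
  -- the points come from the solutions
  have hcover : ∀ (F : Type) [Field F] (Φ : MvPolynomial ι R →+* F), (∀ c, Φ (h c) = 0) →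
      Φ (MvPolynomial.C N) ≠ 0 → ∃ o : Quot (SConj K Ω h),
        RingHom.ker (evt K (R := R) (rep o).1) ≤ RingHom.ker Φ := by
    intro F _ Φ h1 h2
    by_contra hcon
    push Not at hcon
    have h3 : ∀ x : Sol K Ω h, ∃ f : MvPolynomial ι R, evt K x.1 f = 0 ∧ Φ f ≠ 0 := by
      intro x
      by_contra hc
      push Not at hc
      refine hcon (Quot.mk _ x) ?_
      obtain ⟨σ, hσ⟩ := hequiv _ _ (hrep (Quot.mk _ x))
      rw [evt_conj σ hσ]
      exact fun f hf => hc f hf
    choose f hf1 hf2 using h3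
    have hN0 : Φ (MvPolynomial.C N₀) ≠ 0 := by
      obtain ⟨t, ht⟩ := hdvd
      intro h0
      apply h2
      rw [ht, map_mul, map_mul, h0, zero_mul]
    have h6 : Φ (∏ x, f x) = 0 := hden F Φ h1 hN0 _ fun x => by
      rw [map_prod]
      exact Finset.prod_eq_zero (Finset.mem_univ x) (hf1 x)
    rw [map_prod, Finset.prod_eq_zero_iff] at h6
    obtain ⟨x, _, hx⟩ := h6
    exact hf2 x hx
  refine ⟨?_, ?_⟩
  swap
  · choose C hC hle using fun o : Quot (SConj K Ω h) => tuple_le' (R := R) he (rep o).1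
    refine ⟨∑ o, C o, Finset.sum_nonneg fun o _ => hC o, fun F _ _ => ?_⟩
    have hfin : Finite (MvPolynomial ι R →+* F) := finite_homs R ι F
    have h1 : Nat.card {Φ : MvPolynomial ι R →+* F // (∀ c, Φ (h c) = 0) ∧ Φ (MvPolynomial.C N) ≠ 0} ≤
        Nat.card (Σ o : Quot (SConj K Ω h), {Φ : MvPolynomial ι R →+* F //
          RingHom.ker (evt K (R := R) (rep o).1) ≤ RingHom.ker Φ}) := by
      refine Nat.card_le_card_of_injective (fun Φ => ⟨(hcover F Φ.1 Φ.2.1 Φ.2.2).choose, ⟨Φ.1,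
        (hcover F Φ.1 Φ.2.1 Φ.2.2).choose_spec⟩⟩) ?_
      intro a b hab
      have h2 := congrArg (fun z : (Σ o : Quot (SConj K Ω h), {Φ : MvPolynomial ι R →+* F //
          RingHom.ker (evt K (R := R) (rep o).1) ≤ RingHom.ker Φ}) => z.2.1) hab
      exact Subtype.ext h2
    rw [Nat.card_sigma] at h1
    calc (Nat.card {Φ : MvPolynomial ι R →+* F // (∀ c, Φ (h c) = 0) ∧ Φ (MvPolynomial.C N) ≠ 0} : ℝ)
        ≤ ((∑ o, Nat.card {Φ : MvPolynomial ι R →+* F //
          RingHom.ker (evt K (R := R) (rep o).1) ≤ RingHom.ker Φ} : ℕ) : ℝ) := by exact_mod_cast h1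
      _ = ∑ o, (Nat.card {Φ : MvPolynomial ι R →+* F //
          RingHom.ker (evt K (R := R) (rep o).1) ≤ RingHom.ker Φ} : ℝ) := by rw [Nat.cast_sum]
      _ ≤ ∑ o, C o * (Nat.card F : ℝ) ^ e := Finset.sum_le_sum fun o _ => hle o F
      _ = _ := by rw [Finset.sum_mul]
  -- the separating polynomials
  have hsep : ∀ o o' : Quot (SConj K Ω h), o ≠ o' → ∃ f : MvPolynomial ι R,
      evt K (rep o').1 f = 0 ∧ evt K (rep o).1 f ≠ 0 := by
    intro o o' hoo
    refine exists_sep _ _ fun h => hoo ?_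
    rw [← hrep o, ← hrep o']
    exact (Quot.sound h).symm
  have hbad : ∀ o o' : Quot (SConj K Ω h), ∃ (C : ℝ) (N' : ℕ), 0 ≤ C ∧ N' ≠ 0 ∧
      ∀ (F : Type) [Field F] [Finite F], ((N' : ℕ) : F) ≠ 0 → o ≠ o' →
        (Nat.card {Φ : MvPolynomial ι R →+* F //
          (RingHom.ker (evt K (R := R) (rep o).1) ≤ RingHom.ker Φ ∧ Φ (MvPolynomial.C N) ≠ 0) ∧
          (RingHom.ker (evt K (R := R) (rep o').1) ≤ RingHom.ker Φ ∧ Φ (MvPolynomial.C N) ≠ 0)} : ℝ) *
          Nat.card F ≤ C * (Nat.card F : ℝ) ^ e := by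
    intro o o'
    by_cases hoo : o = o'
    · exact ⟨0, 1, le_rfl, one_ne_zero, fun F _ _ _ h => absurd hoo h⟩
    · obtain ⟨f, hf1, hf2⟩ := hsep o o' hoo
      obtain ⟨C, N', hC, hN', h⟩ := (tuple_asy' (R := R) hK he (rep o).1 f hf2).2
      refine ⟨C, N', hC, hN', fun F _ _ hF _ => le_trans ?_ (h F hF)⟩
      refine mul_le_mul_of_nonneg_right ?_ (Nat.cast_nonneg _)
      have hfin : Finite (MvPolynomial ι R →+* F) := finite_homs R ι F
      rw [Nat.cast_le]
      refine Nat.card_le_card_of_injective (fun Φ => ⟨Φ.1, Φ.2.1.1, Φ.2.2.1 hf1⟩) fun a b hab => ?_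
      have hab' := congrArg Subtype.val hab
      exact Subtype.ext hab'
  choose C N' hC hN' hbad using hbad
  -- the sum over the orbits
  have hsum : Asy (fun F _ _ => ∑ o : Quot (SConj K Ω h), (Nat.card {Φ : MvPolynomial ι R →+* F //
      RingHom.ker (evt K (R := R) (rep o).1) ≤ RingHom.ker Φ ∧ Φ (MvPolynomial.C N) ≠ 0} : ℝ)) e
      (∑ _o : Quot (SConj K Ω h), 1) :=
    Asy.sum Finset.univ (fun o => fun F _ _ => (Nat.card {Φ : MvPolynomial ι R →+* F //
      RingHom.ker (evt K (R := R) (rep o).1) ≤ RingHom.ker Φ ∧ Φ (MvPolynomial.C N) ≠ 0} : ℝ)) _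
      fun o _ => (tuple_asy' (R := R) hK he (rep o).1 _ (hCN _)).1
  have hcard : (Nat.card (Quot (SConj K Ω h)) : ℝ) = ∑ _o : Quot (SConj K Ω h), (1 : ℝ) := by
    rw [Finset.sum_const, Finset.card_univ, nsmul_eq_mul, mul_one, Nat.card_eq_fintype_card]
  rw [hcard]
  refine hsum.near ⟨∑ o, ∑ o', C o o', ∏ o, ∏ o', N' o o', Finset.sum_nonneg fun o _ =>
    Finset.sum_nonneg fun o' _ => hC o o', Finset.prod_ne_zero_iff.2 fun o _ =>
    Finset.prod_ne_zero_iff.2 fun o' _ => hN' o o', fun F _ _ hF => ?_⟩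
  have hfin : Finite (MvPolynomial ι R →+* F) := finite_homs R ι F
  have hNF : ∀ o o', ((N' o o' : ℕ) : F) ≠ 0 := by
    intro o o' h0
    apply hF
    rw [Nat.cast_prod]
    refine Finset.prod_eq_zero (Finset.mem_univ o) ?_
    rw [Nat.cast_prod]
    exact Finset.prod_eq_zero (Finset.mem_univ o') h0
  have hq1 : (1 : ℝ) ≤ (Nat.card F : ℝ) := by exact_mod_cast Nat.card_pos
  have hs0 : 0 ≤ √(Nat.card F : ℝ) := Real.sqrt_nonneg _
  have hsq : √(Nat.card F : ℝ) ≤ Nat.card F := by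
    rw [Real.sqrt_le_left (by linarith)]
    nlinarith
  have hsol : ∀ (o : Quot (SConj K Ω h)) (Φ : MvPolynomial ι R →+* F),
      (RingHom.ker (evt K (R := R) (rep o).1) ≤ RingHom.ker Φ ∧ Φ (MvPolynomial.C N) ≠ 0) →
      (∀ c, Φ (h c) = 0) ∧ Φ (MvPolynomial.C N) ≠ 0 := fun o Φ h0 =>
    ⟨fun c => h0.1 ((rep o).2 c), h0.2⟩
  have key := incl (T := MvPolynomial ι R →+* F) (I := Quot (SConj K Ω h))
    (fun Φ => (∀ c, Φ (h c) = 0) ∧ Φ (MvPolynomial.C N) ≠ 0)
    (fun o Φ => RingHom.ker (evt K (R := R) (rep o).1) ≤ RingHom.ker Φ ∧ Φ (MvPolynomial.C N) ≠ 0)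
    hsol (by
      rintro Φ ⟨h1, h2⟩
      obtain ⟨o, ho⟩ := hcover F Φ h1 h2
      exact ⟨o, ho, h2⟩)
  calc _ ≤ (∑ o, ∑ o', (if o = o' then 0 else (Nat.card {Φ : MvPolynomial ι R →+* F //
          (RingHom.ker (evt K (R := R) (rep o).1) ≤ RingHom.ker Φ ∧ Φ (MvPolynomial.C N) ≠ 0) ∧
          (RingHom.ker (evt K (R := R) (rep o').1) ≤ RingHom.ker Φ ∧ Φ (MvPolynomial.C N) ≠ 0)} : ℝ))) *
          √(Nat.card F : ℝ) := by
        refine mul_le_mul_of_nonneg_right (key.trans (le_of_eq ?_)) hs0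
        congr!
    _ = ∑ o, ∑ o', (if o = o' then 0 else (Nat.card {Φ : MvPolynomial ι R →+* F //
          (RingHom.ker (evt K (R := R) (rep o).1) ≤ RingHom.ker Φ ∧ Φ (MvPolynomial.C N) ≠ 0) ∧
          (RingHom.ker (evt K (R := R) (rep o').1) ≤ RingHom.ker Φ ∧ Φ (MvPolynomial.C N) ≠ 0)} : ℝ)) *
          √(Nat.card F : ℝ) := by
        rw [Finset.sum_mul]
        exact Finset.sum_congr rfl fun o _ => Finset.sum_mul _ _ _
    _ ≤ ∑ o, ∑ o', C o o' * (Nat.card F : ℝ) ^ e := by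
        refine Finset.sum_le_sum fun o _ => Finset.sum_le_sum fun o' _ => ?_
        split_ifs with hoo
        · rw [zero_mul]
          exact mul_nonneg (hC _ _) (by positivity)
        · exact (mul_le_mul_of_nonneg_left hsq (Nat.cast_nonneg _)).trans (hbad o o' F (hNF o o') hoo)
    _ = _ := by
        rw [Finset.sum_mul]
        exact Finset.sum_congr rfl fun o _ => (Finset.sum_mul _ _ _).symm

end

end Pool.Agent.Helper94.KM
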