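import Pool.Agent.Helper94.KM.J4
import Pool.Agent.Helper94.KM.Sys

set_option autoImplicit false
set_option linter.all false

/-!
# The average number of the quadratic divisors
-/

namespace Pool.Agent.Helper94.KM

open Polynomial NumberField
open Pool.Agent.R410.LW (FG)
open Pool.Agent.R410.NG (Asy Wt IsWt sT sT_eq)

section
variable {R : Type} [CommRing R]

/-- the universal quadratic polynomial -/
noncomputable def uq (R : Type) [CommRing R] : (MvPolynomial (Fin 2) R)[X] :=
  X ^ 2 - C (MvPolynomial.X 0) * X + C (MvPolynomial.X 1)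

theorem uq_monic [Nontrivial R] : (uq R).Monic := by
  unfold uq
  monicity!

/-- the remainder -/
noncomputable def rm (G : R[X]) : (MvPolynomial (Fin 2) R)[X] := G.map MvPolynomial.C %ₘ uq R

/-- the system of the equations of the quadratic divisors -/
noncomputable def qsys (G : R[X]) : Fin 2 → MvPolynomial (Fin 2) R := ![(rm G).coeff 0, (rm G).coeff 1]

theorem rm_map [Nontrivial R] {F : Type} [Field F] (Φ : MvPolynomial (Fin 2) R →+* F) (G : R[X]) :
    (rm G).map Φ = G.map (Φ.comp MvPolynomial.C) %ₘ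
      quad (Φ (MvPolynomial.X 0), Φ (MvPolynomial.X 1)) := by
  unfold rm
  rw [Polynomial.map_modByMonic _ uq_monic, Polynomial.map_map]
  congr 1
  unfold uq quad
  simp

theorem qsys_zero [Nontrivial R] {F : Type} [Field F] (Φ : MvPolynomial (Fin 2) R →+* F) (G : R[X]) :
    (∀ c, Φ (qsys G c) = 0) ↔ quad (Φ (MvPolynomial.X 0), Φ (MvPolynomial.X 1)) ∣
      G.map (Φ.comp MvPolynomial.C) := by
  rw [← modByMonic_eq_zero_iff_dvd (quad_monic _), ← rm_map]
  constructor
  · intro h
    have h0 := h 0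
    have h1 := h 1
    ext j
    rw [coeff_map, coeff_zero]
    rcases j with _ | _ | j
    · exact h0
    · exact h1
    · have h2 : (rm G).coeff (j + 2) = 0 := by
        apply coeff_eq_zero_of_degree_lt
        refine lt_of_lt_of_le (degree_modByMonic_lt _ uq_monic) ?_
        have h3 : (uq R).degree = 2 := by
          unfold uq
          compute_degree!
        rw [h3]
        exact_mod_cast (by omega : 2 ≤ j + 2)
      rw [show j + 1 + 1 = j + 2 from rfl, h2, map_zero]
  · intro h c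
    fin_cases c
    · show Φ ((rm G).coeff 0) = 0
      rw [← coeff_map, h, coeff_zero]
    · show Φ ((rm G).coeff 1) = 0
      rw [← coeff_map, h, coeff_zero]

/-- the points of the system over a point of `R` -/
noncomputable def quadEquiv [Nontrivial R] {F : Type} [Field F] (G : R[X]) (N : R) :
    {Φ : MvPolynomial (Fin 2) R →+* F // (∀ c, Φ (qsys G c) = 0) ∧ Φ (MvPolynomial.C N) ≠ 0} ≃
      Σ φ : {φ : R →+* F // φ N ≠ 0}, {e : F × F // quad e ∣ G.map φ.1} where
  toFun Φ := ⟨⟨Φ.1.comp MvPolynomial.C, Φ.2.2⟩,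
    ⟨(Φ.1 (MvPolynomial.X 0), Φ.1 (MvPolynomial.X 1)), (qsys_zero Φ.1 G).1 Φ.2.1⟩⟩
  invFun z := ⟨MvPolynomial.eval₂Hom z.1.1 ![z.2.1.1, z.2.1.2], by
    have h1 : (MvPolynomial.eval₂Hom z.1.1 ![z.2.1.1, z.2.1.2]).comp MvPolynomial.C = z.1.1 :=
      RingHom.ext fun a => by rw [RingHom.comp_apply, MvPolynomial.eval₂Hom_C]
    refine ⟨?_, ?_⟩
    · rw [qsys_zero, h1, MvPolynomial.eval₂Hom_X', MvPolynomial.eval₂Hom_X']
      exact z.2.2
    · rw [MvPolynomial.eval₂Hom_C]
      exact z.1.2⟩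
  left_inv Φ := by
    apply Subtype.ext
    apply MvPolynomial.ringHom_ext
    · intro a
      simp
    · intro i
      fin_cases i <;> simp
  right_inv z := by
    rcases z with ⟨⟨φ, hφ⟩, ⟨⟨t, x⟩, hQ⟩⟩
    have gen : ∀ (φ' : R →+* F) (hφ' : φ' N ≠ 0) (t' x' : F)
        (hQ' : quad (t', x') ∣ G.map φ'), φ' = φ → t' = t → x' = x →
        (⟨⟨φ', hφ'⟩, ⟨(t', x'), hQ'⟩⟩ : Σ φ : {φ : R →+* F // φ N ≠ 0},
          {e : F × F // quad e ∣ G.map φ.1}) = ⟨⟨φ, hφ⟩, ⟨(t, x), hQ⟩⟩ := by
      intro φ' hφ' t' x' hQ' h1 h2 h3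
      subst h1 h2 h3
      rfl
    refine gen _ _ _ _ _ ?_ ?_ ?_
    · exact RingHom.ext fun a => by rw [RingHom.comp_apply, MvPolynomial.eval₂Hom_C]
    · rw [MvPolynomial.eval₂Hom_X']
      rfl
    · rw [MvPolynomial.eval₂Hom_X']
      rfl

theorem sT_wQ [IsDomain R] [Algebra.FiniteType ℤ R] (G : R[X]) (N : R) (F : Type) [Field F] [Finite F] :
    sT wQ (fun _ => G) N F = (Nat.card {Φ : MvPolynomial (Fin 2) R →+* F //
      (∀ c, Φ (qsys G c) = 0) ∧ Φ (MvPolynomial.C N) ≠ 0} : ℝ) := by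
  classical
  have hfin : Finite (R →+* F) := inferInstance
  let _ : Fintype {φ : R →+* F // φ N ≠ 0} := Fintype.ofFinite _
  rw [Nat.card_congr (quadEquiv G N), Nat.card_sigma]
  unfold sT wQ
  rw [finsum_eq_sum_of_fintype, Nat.cast_sum]

end

section
variable {K : Type} [Field K] (Ω : Type) [Field Ω] [Algebra K Ω]

/-- the monic quadratic divisors of `F` over `Ω` -/
abbrev QD (F : K[X]) : Type :=
  {D : Polynomial Ω // D.Monic ∧ D.natDegree = 2 ∧ D ∣ F.map (algebraMap K Ω)}

/-- conjugate divisors -/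
def QConj (F : K[X]) (D D' : QD Ω F) : Prop := ∃ σ : Ω ≃ₐ[K] Ω, D.1.map (σ : Ω →+* Ω) = D'.1

variable {Ω}

theorem quad_of {D : (Polynomial Ω)} (h1 : D.Monic) (h2 : D.natDegree = 2) :
    D = quad (-D.coeff 1, D.coeff 0) := by
  have h3 : D.coeff 2 = 1 := by rw [← h2]; exact h1
  unfold quad
  ext j
  rcases j with _ | _ | _ | j
  · simp
  · simp
  · simp [h3]
  · have h4 : D.coeff (j + 1 + 1 + 1) = 0 := coeff_eq_zero_of_natDegree_lt (by omega)
    rw [h4]
    simp [coeff_X, coeff_C]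

variable {R : Type} [CommRing R] [IsDomain R] [Algebra R K]

/-- the solutions of the system -/
noncomputable def qEquiv {F : K[X]} {G : R[X]} (hG : G.map (algebraMap R K) = F) :
    Sol K Ω (qsys G) ≃ QD Ω F := by
  have key : ∀ x : Fin 2 → Ω, (∀ c, evt K x (qsys G c) = 0) ↔
      quad (x 0, x 1) ∣ F.map (algebraMap K Ω) := by
    intro x
    have h1 : (evt K (R := R) x).comp MvPolynomial.C = (algebraMap K Ω).comp (algebraMap R K) :=
      RingHom.ext fun a => by rw [RingHom.comp_apply, evt, MvPolynomial.eval₂Hom_C]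
    rw [qsys_zero, h1, ← hG, Polynomial.map_map]
    have h2 : ∀ i, evt K (R := R) x (MvPolynomial.X i) = x i := fun i => by
      rw [evt, MvPolynomial.eval₂Hom_X']
    rw [h2, h2]
  exact
    { toFun := fun x => ⟨quad (x.1 0, x.1 1), quad_monic _, quad_natDegree _, (key x.1).1 x.2⟩
      invFun := fun D => ⟨![-D.1.coeff 1, D.1.coeff 0], (key _).2 (by
        rw [show quad ((![-D.1.coeff 1, D.1.coeff 0] : Fin 2 → Ω) 0,
          (![-D.1.coeff 1, D.1.coeff 0] : Fin 2 → Ω) 1) = D.1 from (quad_of D.2.1 D.2.2.1).symm]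
        exact D.2.2.2)⟩
      left_inv := fun x => by
        apply Subtype.ext
        funext i
        fin_cases i
        · show -(quad (x.1 0, x.1 1)).coeff 1 = x.1 0
          unfold quad
          simp
        · show (quad (x.1 0, x.1 1)).coeff 0 = x.1 1
          unfold quad
          simp
      right_inv := fun D => Subtype.ext (quad_of D.2.1 D.2.2.1).symm }

theorem qEquiv_val {F : K[X]} {G : R[X]} (hG : G.map (algebraMap R K) = F) (x : Sol K Ω (qsys G)) :
    (qEquiv hG x).1 = quad (x.1 0, x.1 1) := rfl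

theorem card_qsys {F : K[X]} {G : R[X]} (hG : G.map (algebraMap R K) = F) :
    Nat.card (Quot (SConj K Ω (qsys G))) = Nat.card (Quot (QConj Ω F)) := by
  refine Nat.card_congr (Quot.congr (qEquiv hG) fun x y => ?_)
  constructor
  · rintro ⟨σ, hσ⟩
    refine ⟨σ, ?_⟩
    rw [qEquiv_val, qEquiv_val, quad_map]
    show quad (σ (x.1 0), σ (x.1 1)) = _
    rw [hσ 0, hσ 1]
  · rintro ⟨σ, hσ⟩
    rw [qEquiv_val, qEquiv_val, quad_map] at hσ
    have h1 := quad_inj hσ
    refine ⟨σ, fun i => ?_⟩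
    fin_cases i
    · exact congrArg Prod.fst h1
    · exact congrArg Prod.snd h1

end

section
variable {K R B : Type} [Field K] [CharZero K] [CommRing R] [IsDomain R] [Algebra.FiniteType ℤ R]
  [Algebra R K] [IsFractionRing R K] {Ω : Type} [Field Ω] [Algebra K Ω] [IsAlgClosed Ω]
  [Algebra.IsAlgebraic K Ω]

/-- **The average number of the quadratic divisors**, for every model. -/
theorem asy_wQ (hK : FG K) {e : ℕ} (he : Algebra.trdeg ℚ K = e) {G : R[X]} (hG : G.Monic)
    {N : R} (hN : N ≠ 0) : Asy (fun F _ _ => sT wQ (fun _ => G) N F) e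
      (Nat.card (Quot (QConj Ω (G.map (algebraMap R K))))) := by
  have hfinS : Finite (Sol K Ω (qsys G)) := by
    have h1 := (quad_finite ((G.map (algebraMap R K)).map (algebraMap K Ω))
      (((hG.map _).map _).ne_zero)).1
    have key : ∀ x : Sol K Ω (qsys G), quad (x.1 0, x.1 1) ∣
        (G.map (algebraMap R K)).map (algebraMap K Ω) := fun x => (qEquiv rfl x).2.2.2
    refine Finite.of_injective (fun x : Sol K Ω (qsys G) =>
      (⟨(x.1 0, x.1 1), key x⟩ : {e : Ω × Ω // quad e ∣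
        (G.map (algebraMap R K)).map (algebraMap K Ω)})) fun x y h => ?_
    have h2 := congrArg (fun z => z.1) h
    apply Subtype.ext
    funext i
    fin_cases i
    · exact congrArg Prod.fst h2
    · exact congrArg Prod.snd h2
  obtain ⟨N₀, hN₀, h⟩ := asy_sys (Ω := Ω) hK he (qsys G) hfinS
  have h1 := (h (N₀ * N) (mul_ne_zero hN₀ hN) (dvd_mul_right _ _)).1
  rw [card_qsys rfl] at h1
  refine Pool.Agent.R410.NG.asy_any (isWt_wQ G.natDegree) he.le (fun _ => rfl)
    (fun _ => ⟨hG, rfl⟩) hN (mul_ne_zero hN₀ hN) (g' := fun _ => G) ?_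
  refine h1.congr 1 one_ne_zero fun F _ _ _ => ?_
  exact sT_wQ G (N₀ * N) F

end

end Pool.Agent.Helper94.KM
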