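import Pool.Agent.Helper94.KM.J5
import Pool.Agent.R410.NG.Sh

set_option autoImplicit false
set_option linter.all false
set_option maxHeartbeats 1000000

/-!
# The residue for the Jacobians of the curves `y² = c(x) + w`
-/

namespace Pool.Agent.Helper94.KM

open Polynomial NumberField IsDedekindDomain
open Pool.Agent.R410.LW (FG)
open Pool.Agent.R410.NG (Asy Wt IsWt sT sR sT_eq sR_eq avg all_models residue_shift exists_ringP
  phA phA_frac phA_apply trdeg_line fg_line asy_any)
open Pool.Agent.R410.BS (hom_le)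
open Pool.Agent.Y707.PR (HasResidue)

section
variable {A : Type} [CommRing A] {F : Type} [Field F]

theorem gB_map (cA : A[X]) (φ : A[X] →+* F) :
    (cA.map (C : A →+* A[X]) + C X).map φ = cA.map (φ.comp C) + C (φ X) := by
  rw [Polynomial.map_add, Polynomial.map_map, Polynomial.map_C]

theorem sT_line [Fintype F] [Fintype (A →+* F)] [Finite (A[X] →+* F)] (w : Wt Unit) (cA : A[X]) :
    sT w (fun _ => cA.map (C : A →+* A[X]) + C X) 1 F =
      ∑ ψ : A →+* F, ∑ v : F, w F (fun _ => cA.map ψ + C v) := by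
  classical
  let _ := Fintype.ofFinite (A[X] →+* F)
  rw [sT_eq]
  have e1 : ∀ φ : A[X] →+* F, (if φ 1 ≠ 0 then
      w F (fun j => (cA.map (C : A →+* A[X]) + C X).map φ) else 0) =
      w F (fun _ => cA.map (φ.comp C) + C (φ X)) := by
    intro φ
    rw [if_pos (by rw [map_one]; exact one_ne_zero), gB_map]
  rw [Finset.sum_congr rfl fun φ _ => e1 φ]
  refine (Fintype.sum_equiv (Pool.Agent.R410.NG.polyEquiv (A := A) (F := F)) _ (fun z =>
    w F (fun _ => cA.map z.1 + C z.2)) fun φ => rfl).trans ?_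
  rw [Fintype.sum_prod_type]

end

section
variable {M K : Type} [Field M] [CharZero M] [Field K] [CharZero K] [Algebra M K] {ω : K}
  {k : Type} [Field k] [NumberField k] {Ω : Type} [Field Ω] [Algebra K Ω] [IsAlgClosed Ω]
  [Algebra.IsAlgebraic K Ω]

/-- the average of the traces on the second exterior power -/
theorem asy_wJ (hM : FG M) {d : ℕ} (hd : Algebra.trdeg ℚ M = d) (hω : Transcendental M ω)
    (htop : IntermediateField.adjoin M {ω} = ⊤) {c : M[X]} (hc : c.Monic) (hodd : Odd c.natDegree)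
    {R : Type} [CommRing R] [IsDomain R] [Algebra.FiniteType ℤ R] [Algebra R K] [IsFractionRing R K]
    {G : R[X]} (hG : G.Monic) (hGm : G.map (algebraMap R K) = c.map (algebraMap M K) + C ω)
    {N : R} (hN : N ≠ 0) : Asy (fun F _ _ => sT wJ (fun _ => G) N F) (d + 1)
      (Nat.card (Quot (QConj Ω (c.map (algebraMap M K) + C ω)))) := by
  classical
  obtain ⟨A, hft, hfr, -, hP⟩ := exists_ringP (k := ℚ) hM (fun _ : Unit => c)
  obtain ⟨cA, hcA⟩ : ∃ q : A[X], q.map (algebraMap A M) = c := hP ()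
  have hAinj : Function.Injective (algebraMap A M) := IsFractionRing.injective A M
  have hcAm : cA.Monic := monic_of_injective hAinj (by rw [hcA]; exact hc)
  have hcAd : cA.natDegree = c.natDegree := by rw [← hcA, hcAm.natDegree_map]
  let φ : A[X] →+* K := phA (M := M) A ω
  let _ : Algebra A[X] K := φ.toAlgebra
  have _ : IsFractionRing A[X] K := phA_frac A hω htop
  have htr : Algebra.trdeg ℚ K = (d + 1 : ℕ) := trdeg_line hd hω htop
  have hKF : FG K := fg_line hM htop
  have hft' : Algebra.FiniteType ℤ A[X] := inferInstance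
  have hft'' := Pool.Agent.R410.LW.ft_int _ hft'
  have hn0 : 0 < c.natDegree := hodd.pos
  -- the model over the line
  let GB : A[X][X] := cA.map (C : A →+* A[X]) + C X
  have hGBm : GB.Monic := by
    refine (hcAm.map _).add_of_left ?_
    refine lt_of_le_of_lt degree_C_le ?_
    rw [hcAm.degree_map, degree_eq_natDegree hcAm.ne_zero, hcAd]
    exact_mod_cast hn0
  have hGBK : GB.map (algebraMap A[X] K) = c.map (algebraMap M K) + C ω := by
    show (cA.map (C : A →+* A[X]) + C X).map φ = _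
    rw [gB_map]
    congr 1
    · rw [← hcA, Polynomial.map_map]
      congr 1
      refine RingHom.ext fun a => ?_
      rw [RingHom.comp_apply, phA_apply, Polynomial.map_C, aeval_C]
      rfl
    · rw [phA_apply, Polynomial.map_X, aeval_X]
  have hGBd : GB.natDegree = c.natDegree := by
    rw [← hGBm.natDegree_map (algebraMap A[X] K), hGBK, natDegree_add_C, hc.natDegree_map]
  have hGd : G.natDegree = c.natDegree := by
    rw [← hG.natDegree_map (algebraMap R K), hGm, natDegree_add_C, hc.natDegree_map]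
  have t0 := asy_wQ (Ω := Ω) hKF htr hGBm (N := (1 : A[X])) one_ne_zero
  rw [hGBK] at t0
  obtain ⟨C1, hC1, hle⟩ := hom_le (R := A) (K := M) hAinj (e := d) hd.le
  have t1 : Asy (fun F _ _ => sT wJ (fun _ => GB) 1 F) (d + 1)
      (Nat.card (Quot (QConj Ω (c.map (algebraMap M K) + C ω)))) := by
    refine t0.near ⟨(c.natDegree : ℝ) * C1, 2 * c.natDegree, by positivity,
      mul_ne_zero two_ne_zero hn0.ne', fun F _ _ hF => ?_⟩
    let _ : Fintype F := Fintype.ofFinite F
    let _ : Fintype (A →+* F) := Fintype.ofFinite _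
    rw [Nat.cast_mul] at hF
    have hchar : ringChar F ≠ 2 := Pool.Agent.R410.NG.char_of (left_ne_zero_of_mul hF)
    have hnF : ((c.natDegree : ℕ) : F) ≠ 0 := right_ne_zero_of_mul hF
    have e1 : sT wJ (fun _ => GB) 1 F - sT wQ (fun _ => GB) 1 F =
        -∑ ψ : A →+* F, z0 (cA.map ψ) := by
      show sT wJ (fun _ => cA.map (C : A →+* A[X]) + C X) 1 F -
        sT wQ (fun _ => cA.map (C : A →+* A[X]) + C X) 1 F = _
      rw [sT_line, sT_line, ← Finset.sum_sub_distrib, ← Finset.sum_neg_distrib]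
      refine Finset.sum_congr rfl fun ψ _ => ?_
      rw [sum_wJ _ hchar, sum_wQ]
      ring
    have e2 : ∀ ψ : A →+* F, |z0 (cA.map ψ)| ≤ c.natDegree := by
      intro ψ
      have h1 := z0_le (cA.map ψ) (n := c.natDegree) (by rw [hcAm.natDegree_map, hcAd])
        (hcAm.map ψ) hnF
      rw [abs_of_nonneg h1.1]
      exact h1.2
    have hq1 : (1 : ℝ) ≤ (Nat.card F : ℝ) := by exact_mod_cast Nat.card_pos
    have hs0 : 0 ≤ √(Nat.card F : ℝ) := Real.sqrt_nonneg _
    have hsq : √(Nat.card F : ℝ) ≤ Nat.card F := by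
      rw [Real.sqrt_le_left (by linarith)]
      nlinarith
    have e3 : |sT wJ (fun _ => GB) 1 F - sT wQ (fun _ => GB) 1 F| ≤
        (C1 * (Nat.card F : ℝ) ^ d) * c.natDegree := by
      rw [e1, abs_neg]
      refine (Finset.abs_sum_le_sum_abs _ _).trans ((Finset.sum_le_sum fun ψ _ => e2 ψ).trans ?_)
      rw [Finset.sum_const, Finset.card_univ, nsmul_eq_mul, ← Nat.card_eq_fintype_card]
      exact mul_le_mul_of_nonneg_right (hle F) (Nat.cast_nonneg _)
    calc _ ≤ (C1 * (Nat.card F : ℝ) ^ d) * c.natDegree * (Nat.card F : ℝ) :=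
          mul_le_mul e3 hsq hs0 (by positivity)
      _ = _ := by
        rw [pow_succ]
        ring
  exact asy_any (isWt_wJ hodd) htr.le (fun _ => by rw [hGm, hGBK]) (fun _ => ⟨hG, hGd⟩) hN
    (one_ne_zero : (1 : A[X]) ≠ 0) t1

variable (Ω) in
/-- **The residue for the Jacobians.** -/
theorem residue_J (hM : FG M) {d : ℕ} (hd : Algebra.trdeg ℚ M = d) (hω : Transcendental M ω)
    (htop : IntermediateField.adjoin M {ω} = ⊤) {c : M[X]} (hc : c.Monic) (hodd : Odd c.natDegree)
    {R : Type} [CommRing R] [IsDomain R] [Algebra.FiniteType ℤ R] [Algebra R K] [IsFractionRing R K]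
    [Algebra (𝓞 k) R]
    {G : R[X]} (hG : G.Monic) (hGm : G.map (algebraMap R K) = c.map (algebraMap M K) + C ω)
    {N : R} (hN : N ≠ 0) (S : Finset (HeightOneSpectrum (𝓞 k))) :
    HasResidue S (fun v => (Ideal.absNorm v.asIdeal : ℝ) * avg wJ (fun _ : Unit => G) N (d + 1) v) 2
      (Nat.card (Quot (QConj Ω (c.map (algebraMap M K) + C ω)))) := by
  classical
  have htr : Algebra.trdeg ℚ K = (d + 1 : ℕ) := trdeg_line hd hω htop
  have hGd : G.natDegree = c.natDegree := by
    rw [← hG.natDegree_map (algebraMap R K), hGm, natDegree_add_C, hc.natDegree_map]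
  have hw : IsWt wJ (fun _ => c.natDegree) _ := isWt_wJ hodd
  obtain ⟨κ, iκ, L', iL, nL, a, ha, C2, N2, hC2, hN2, g2⟩ :=
    asy_wJ (Ω := Ω) hM hd hω htop hc hodd hG hGm hN
  obtain ⟨C3, hC3, g3⟩ := hom_le (R := R) (K := K) (IsFractionRing.injective R K) (e := d + 1)
    (by rw [htr])
  apply residue_shift
  have key := all_models (K := K) (R := R) (B := R) hw (e := d + 1) (by rw [htr]) rfl (fun _ => rfl)
    (g := fun _ => G) (g' := fun _ => G) (fun j => ⟨hG, hGd⟩) hN hN L' a
    (r := (Nat.card (Quot (QConj Ω (c.map (algebraMap M K) + C ω))) : ℤ))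
    (by rw [ha]; push_cast; rfl) ?_ ⟨C2, N2, hC2, hN2, g2⟩ S
  · simpa using key
  refine ⟨C3 * (((c.natDegree : ℝ) ^ 2 + c.natDegree) / 2), 1, by positivity, one_ne_zero,
    fun F _ _ _ ψ => ?_⟩
  let _ : Fintype (R →+* F) := Fintype.ofFinite _
  rw [sR_eq]
  calc |∑ φ : R →+* F, if φ.comp (algebraMap (𝓞 k) R) = ψ ∧ φ N ≠ 0 then
        wJ F (fun j => G.map φ) else 0| ≤
      ∑ φ : R →+* F, |if φ.comp (algebraMap (𝓞 k) R) = ψ ∧ φ N ≠ 0 then
        wJ F (fun j => G.map φ) else 0| := Finset.abs_sum_le_sum_abs _ _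
    _ ≤ ∑ φ : R →+* F, ((c.natDegree : ℝ) ^ 2 + c.natDegree) / 2 := by
        refine Finset.sum_le_sum fun φ _ => ?_
        split_ifs
        · exact wJ_bound hodd F _ fun j => ⟨hG.map φ, by rw [hG.natDegree_map, hGd]⟩
        · rw [abs_zero]
          positivity
    _ = (Nat.card (R →+* F) : ℝ) * (((c.natDegree : ℝ) ^ 2 + c.natDegree) / 2) := by
        rw [Finset.sum_const, Finset.card_univ, nsmul_eq_mul, Nat.card_eq_fintype_card]
    _ ≤ (C3 * (Nat.card F : ℝ) ^ (d + 1)) * (((c.natDegree : ℝ) ^ 2 + c.natDegree) / 2) :=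
        mul_le_mul_of_nonneg_right (g3 F) (by positivity)
    _ = _ := by ring

end

end Pool.Agent.Helper94.KM
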