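import Pool.Agent.Helper94.KM.J4
import Pool.Agent.R410.NG.CBs

set_option autoImplicit false
set_option linter.all false

/-!
# The trace on the second exterior power as a sum over the quadratic polynomials
-/

namespace Pool.Agent.Helper94.KM

open Polynomial Finset
open Pool.Agent.R410.NG (chi chi_eq chi_zero chi_abs chi_sq trc trc_chi sum_chi_quad)

section
variable {F : Type} [Field F]

/-- the remainder modulo a quadratic polynomial -/
noncomputable def r0 (e : F × F) (g : F[X]) : F := (g %ₘ quad e).coeff 0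

/-- the remainder modulo a quadratic polynomial -/
noncomputable def r1 (e : F × F) (g : F[X]) : F := (g %ₘ quad e).coeff 1

/-- the product of the values at the zeros of a quadratic polynomial -/
noncomputable def nrm (e : F × F) (g : F[X]) : F :=
  r0 e g ^ 2 + r0 e g * r1 e g * e.1 + r1 e g ^ 2 * e.2

theorem rem_eq (e : F × F) (g : F[X]) : g %ₘ quad e = C (r0 e g) + C (r1 e g) * X := by
  have h3 : (quad e).degree = 2 := by
    rw [degree_eq_natDegree (quad_monic e).ne_zero, quad_natDegree]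
    rfl
  ext j
  rcases j with _ | _ | j
  · simp [r0]
  · simp [r1, coeff_C]
  · have h2 : (g %ₘ quad e).coeff (j + 1 + 1) = 0 := by
      apply coeff_eq_zero_of_degree_lt
      refine lt_of_lt_of_le (degree_modByMonic_lt _ (quad_monic e)) ?_
      rw [h3]
      exact_mod_cast (by omega : 2 ≤ j + 2)
    rw [h2]
    simp [coeff_X, coeff_C]

theorem aeval_rem {E : Type} [CommRing E] [Algebra F E] (e : F × F) (g : F[X]) (z : E)
    (hz : z ^ 2 - algebraMap F E e.1 * z + algebraMap F E e.2 = 0) :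
    aeval z g = algebraMap F E (r0 e g) + algebraMap F E (r1 e g) * z := by
  have h1 : aeval z (quad e) = 0 := by
    unfold quad
    rw [map_add, map_sub, map_mul, map_pow, aeval_X, aeval_C, aeval_C]
    exact hz
  have h2 := congrArg (aeval z) (modByMonic_add_div g (quad e))
  rw [map_add, map_mul, h1, zero_mul, add_zero, rem_eq, map_add, map_mul, aeval_C, aeval_C,
    aeval_X] at h2
  exact h2.symm

theorem nrm_split (x x' : F) (g : F[X]) : nrm (x + x', x * x') g = g.eval x * g.eval x' := by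
  have h1 := aeval_rem (x + x', x * x') g x (by
    rw [Algebra.algebraMap_self, RingHom.id_apply, RingHom.id_apply]
    ring)
  have h2 := aeval_rem (x + x', x * x') g x' (by
    rw [Algebra.algebraMap_self, RingHom.id_apply, RingHom.id_apply]
    ring)
  rw [Algebra.algebraMap_self, RingHom.id_apply, RingHom.id_apply, coe_aeval_eq_eval] at h1 h2
  rw [h1, h2]
  unfold nrm
  ring

theorem nrm_im {ε : F} (m v : F) (g : F[X]) : nrm (2 * m, m ^ 2 - ε * v ^ 2) g =
    (aeval (⟨m, v⟩ : QuadraticAlgebra F ε 0) g).re ^ 2 -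
      ε * (aeval (⟨m, v⟩ : QuadraticAlgebra F ε 0) g).im ^ 2 := by
  have h1 := aeval_rem (2 * m, m ^ 2 - ε * v ^ 2) g (⟨m, v⟩ : QuadraticAlgebra F ε 0) (by
    rw [sq]
    ext
    · rw [QuadraticAlgebra.re_add, QuadraticAlgebra.re_sub, QuadraticAlgebra.re_mul,
        QuadraticAlgebra.re_mul, QuadraticAlgebra.algebraMap_re, QuadraticAlgebra.algebraMap_im,
        QuadraticAlgebra.algebraMap_re]
      show m * m + ε * v * v - (2 * m * m + ε * 0 * v) + (m ^ 2 - ε * v ^ 2) = 0
      ring
    · rw [QuadraticAlgebra.im_add, QuadraticAlgebra.im_sub, QuadraticAlgebra.im_mul,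
        QuadraticAlgebra.im_mul, QuadraticAlgebra.algebraMap_re, QuadraticAlgebra.algebraMap_im,
        QuadraticAlgebra.algebraMap_im]
      show m * v + v * m + 0 * v * v - (2 * m * v + 0 * m + 0 * 0 * v) + 0 = 0
      ring)
  rw [h1, QuadraticAlgebra.re_add, QuadraticAlgebra.re_mul, QuadraticAlgebra.im_add,
    QuadraticAlgebra.im_mul, QuadraticAlgebra.algebraMap_re, QuadraticAlgebra.algebraMap_im,
    QuadraticAlgebra.algebraMap_re, QuadraticAlgebra.algebraMap_im]
  unfold nrm
  ring

theorem nrm_map {F' : Type} [Field F'] (f : F →+* F') (e : F × F) (g : F[X]) :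
    nrm (f e.1, f e.2) (g.map f) = f (nrm e g) := by
  have h1 : (g.map f) %ₘ quad (f e.1, f e.2) = (g %ₘ quad e).map f := by
    rw [Polynomial.map_modByMonic _ (quad_monic e), quad_map]
  unfold nrm r0 r1
  rw [h1, coeff_map, coeff_map]
  simp

end

section
variable {F : Type} [Field F] [Fintype F]

/-- the squares in the quadratic extension -/
theorem chi_ext (hF : ringChar F ≠ 2) {ε : F} (hε : ¬ IsSquare ε)
    [Fact (∀ r : F, r ^ 2 ≠ ε + 0 * r)] (z : QuadraticAlgebra F ε 0) :
    (Nat.card {y : QuadraticAlgebra F ε 0 // y ^ 2 = z} : ℝ) - 1 = chi F (z.re ^ 2 - ε * z.im ^ 2) := by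
  classical
  let _ : Fintype (QuadraticAlgebra F ε 0) :=
    Fintype.ofEquiv (F × F) (QuadraticAlgebra.equivProd ε 0).symm
  have hcE : Fintype.card (QuadraticAlgebra F ε 0) = Fintype.card F ^ 2 := by
    rw [Fintype.card_congr (QuadraticAlgebra.equivProd ε 0), Fintype.card_prod, sq]
  have hodd : Fintype.card F % 2 = 1 := FiniteField.odd_card_of_char_ne_two hF
  have hinj : Function.Injective (algebraMap F (QuadraticAlgebra F ε 0)) :=
    (algebraMap F (QuadraticAlgebra F ε 0)).injective
  have hE2 : ringChar (QuadraticAlgebra F ε 0) ≠ 2 := by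
    apply Pool.Agent.R410.NG.char_of
    intro h
    have h2 : (2 : F) ≠ 0 := Ring.two_ne_zero hF
    apply h2
    apply hinj
    rw [map_zero, map_ofNat]
    exact_mod_cast h
  have hε0 : ε ≠ 0 := fun h => hε (by rw [h]; exact IsSquare.zero)
  set q := Fintype.card F with hq
  obtain ⟨k, hk⟩ : ∃ k, q = 2 * k + 1 := ⟨q / 2, by omega⟩
  have hq2 : q / 2 = k := by omega
  -- the Frobenius
  have hω : (⟨0, 1⟩ : QuadraticAlgebra F ε 0) ^ 2 = algebraMap F _ ε := by
    rw [sq]
    ext
    · rw [QuadraticAlgebra.re_mul, QuadraticAlgebra.algebraMap_re]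
      show (0 : F) * 0 + ε * 1 * 1 = ε
      ring
    · rw [QuadraticAlgebra.im_mul, QuadraticAlgebra.algebraMap_im]
      show (0 : F) * 1 + 1 * 0 + 0 * 1 * 1 = 0
      ring
  have hεk : ε ^ k = -1 := by
    rcases FiniteField.pow_dichotomy hF hε0 with h | h
    · exact absurd ((FiniteField.isSquare_iff hF hε0).2 h) hε
    · rw [← hq, hq2] at h
      exact h
  have hωq : (⟨0, 1⟩ : QuadraticAlgebra F ε 0) ^ q = -⟨0, 1⟩ := by
    rw [hk, pow_succ, pow_mul, hω, ← map_pow, hεk, map_neg, map_one, neg_one_mul]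
  have hz : z = algebraMap F _ z.re + algebraMap F _ z.im * ⟨0, 1⟩ := by
    ext
    · rw [QuadraticAlgebra.re_add, QuadraticAlgebra.re_mul, QuadraticAlgebra.algebraMap_re,
        QuadraticAlgebra.algebraMap_re, QuadraticAlgebra.algebraMap_im]
      show z.re = z.re + (z.im * 0 + ε * 0 * 1)
      ring
    · rw [QuadraticAlgebra.im_add, QuadraticAlgebra.im_mul, QuadraticAlgebra.algebraMap_re,
        QuadraticAlgebra.algebraMap_im, QuadraticAlgebra.algebraMap_im]
      show z.im = 0 + (z.im * 1 + 0 * 0 + 0 * 0 * 1)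
      ring
  have hfrob : z ^ q = algebraMap F _ z.re - algebraMap F _ z.im * ⟨0, 1⟩ := by
    have h1 := map_add (FiniteField.frobeniusAlgHom F (QuadraticAlgebra F ε 0))
      (algebraMap F _ z.re) (algebraMap F _ z.im * ⟨0, 1⟩)
    rw [← hz, map_mul, AlgHom.commutes, AlgHom.commutes] at h1
    simp only [FiniteField.coe_frobeniusAlgHom] at h1
    rw [← hq, hωq] at h1
    rw [h1]
    ring
  have hnorm : z ^ (q + 1) = algebraMap F _ (z.re ^ 2 - ε * z.im ^ 2) := by
    calc z ^ (q + 1) = z ^ q * z := pow_succ _ _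
      _ = (algebraMap F _ z.re - algebraMap F _ z.im * ⟨0, 1⟩) *
          (algebraMap F _ z.re + algebraMap F _ z.im * ⟨0, 1⟩) := by rw [hfrob, ← hz]
      _ = _ := by
        rw [map_sub, map_pow, map_mul, map_pow]
        linear_combination (-(algebraMap F (QuadraticAlgebra F ε 0) z.im) ^ 2) * hω
  show chi (QuadraticAlgebra F ε 0) z = _
  by_cases hz0 : z = 0
  · have h1 : z.re ^ 2 - ε * z.im ^ 2 = 0 := by
      apply hinj
      rw [← hnorm, hz0, map_zero, zero_pow (Nat.succ_ne_zero q)]
    rw [h1, hz0, chi_zero, chi_zero]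
  · have hN0 : z.re ^ 2 - ε * z.im ^ 2 ≠ 0 := by
      intro h
      rw [h, map_zero] at hnorm
      exact hz0 (pow_eq_zero_iff (Nat.succ_ne_zero q) |>.1 hnorm)
    rw [chi_eq hE2, chi_eq hF, quadraticChar_eq_pow_of_char_ne_two hE2 hz0,
      quadraticChar_eq_pow_of_char_ne_two hF hN0, hcE, ← hq, hq2]
    have h2 : q ^ 2 / 2 = (q + 1) * k := by
      rw [hk]
      have : (2 * k + 1) ^ 2 = 2 * ((2 * k + 1 + 1) * k) + 1 := by ring
      omega
    have h3 : z ^ (q ^ 2 / 2) = 1 ↔ (z.re ^ 2 - ε * z.im ^ 2) ^ k = 1 := by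
      rw [h2, pow_mul, hnorm, ← map_pow]
      constructor
      · intro h
        apply hinj
        rw [h, map_one]
      · intro h
        rw [h, map_one]
    by_cases h4 : z ^ (q ^ 2 / 2) = 1
    · rw [if_pos h4, if_pos (h3.1 h4)]
    · rw [if_neg h4, if_neg (fun h => h4 (h3.2 h))]

open Classical in
/-- **The trace on the second exterior power is the sum of the characters of the norms.** -/
theorem wedge_eq (hF : ringChar F ≠ 2) (g : F[X]) :
    (trc F g ^ 2 - trc2 F g) / 2 = ∑ e : F × F, chi F (nrm e g) := by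
  obtain ⟨ε, hε⟩ := FiniteField.exists_nonsquare hF
  have hfact : Fact (∀ r : F, r ^ 2 ≠ ε + 0 * r) := ⟨fun r h => hε ⟨r, by rw [← sq, h]; ring⟩⟩
  have h2 : (2 : F) ≠ 0 := Ring.two_ne_zero hF
  let _ : Fintype (QuadraticAlgebra F ε 0) :=
    Fintype.ofEquiv (F × F) (QuadraticAlgebra.equivProd ε 0).symm
  have hE : Nat.card (QuadraticAlgebra F ε 0) = Nat.card F ^ 2 := by
    rw [Nat.card_congr (QuadraticAlgebra.equivProd ε 0), Nat.card_prod, sq]
  -- the trace of the square of the Frobenius
  have e1 : trc2 F g = -∑ m : F, ∑ v : F, chi F (nrm (2 * m, m ^ 2 - ε * v ^ 2) g) := by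
    unfold trc2
    have h3 : (cnt2 F g : ℝ) = ∑ z : QuadraticAlgebra F ε 0,
        (Nat.card {y : QuadraticAlgebra F ε 0 // y ^ 2 = aeval z g} : ℝ) := by
      rw [cnt2_eq hE, ← Nat.cast_sum]
      congr 1
      rw [Nat.card_congr (β := Σ z : QuadraticAlgebra F ε 0,
        {y : QuadraticAlgebra F ε 0 // y ^ 2 = aeval z g})
        { toFun := fun P => ⟨P.1.1, P.1.2, P.2⟩
          invFun := fun P => ⟨(P.1, P.2.1), P.2.2⟩
          left_inv := fun P => rfl
          right_inv := fun P => rfl }, Nat.card_sigma]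
    have h4 : ∀ z : QuadraticAlgebra F ε 0,
        (Nat.card {y : QuadraticAlgebra F ε 0 // y ^ 2 = aeval z g} : ℝ) =
          1 + chi F ((aeval z g).re ^ 2 - ε * (aeval z g).im ^ 2) := by
      intro z
      rw [← chi_ext hF hε]
      ring
    rw [h3, Finset.sum_congr rfl fun z _ => h4 z, Finset.sum_add_distrib, Finset.sum_const,
      Finset.card_univ, nsmul_eq_mul, mul_one, ← Nat.card_eq_fintype_card, hE]
    have h5 : ∑ z : QuadraticAlgebra F ε 0, chi F ((aeval z g).re ^ 2 - ε * (aeval z g).im ^ 2) =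
        ∑ z : F × F, chi F (nrm (2 * z.1, z.1 ^ 2 - ε * z.2 ^ 2) g) := by
      refine Fintype.sum_equiv (QuadraticAlgebra.equivProd ε 0) _ _ fun z => ?_
      rw [nrm_im]
      rfl
    rw [h5, Fintype.sum_prod_type]
    push_cast
    ring
  -- the square of the trace
  have e2 : trc F g ^ 2 = ∑ m : F, ∑ s : F, chi F (nrm (2 * m, m ^ 2 - s ^ 2) g) := by
    rw [trc_chi, neg_sq, sq, Finset.sum_mul_sum]
    rw [sum_centre hF fun x x' => chi F (g.eval x) * chi F (g.eval x')]
    refine Finset.sum_congr rfl fun m _ => Finset.sum_congr rfl fun s _ => ?_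
    have h3 : nrm (2 * m, m ^ 2 - s ^ 2) g = g.eval (m + s) * g.eval (m - s) := by
      rw [← nrm_split]
      congr 2
      · ring
      · ring
    rw [h3]
    simp only [chi_eq hF]
    rw [map_mul]
    push_cast
    rfl
  have e3 : ∑ e : F × F, chi F (nrm e g) = ∑ m : F, ∑ Δ : F, chi F (nrm (2 * m, m ^ 2 - Δ) g) := by
    rw [← Fintype.sum_prod_type' (fun m Δ : F => chi F (nrm (2 * m, m ^ 2 - Δ) g))]
    let E : F × F ≃ F × F :=
      { toFun := fun p => (2 * p.1, p.1 ^ 2 - p.2)
        invFun := fun p => (p.1 / 2, (p.1 / 2) ^ 2 - p.2)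
        left_inv := fun p => by
          ext
          · show 2 * p.1 / 2 = p.1
            field_simp
          · show (2 * p.1 / 2) ^ 2 - (p.1 ^ 2 - p.2) = p.2
            field_simp
            ring
        right_inv := fun p => by
          ext
          · show 2 * (p.1 / 2) = p.1
            field_simp
          · show (p.1 / 2) ^ 2 - ((p.1 / 2) ^ 2 - p.2) = p.2
            ring }
    exact (Fintype.sum_equiv E _ _ fun p => rfl).symm
  rw [e1, e2, e3, sub_neg_eq_add, ← Finset.sum_add_distrib, div_eq_iff two_ne_zero, mul_comm,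
    Finset.mul_sum]
  exact Finset.sum_congr rfl fun m _ => twice hF hε fun Δ => chi F (nrm (2 * m, m ^ 2 - Δ) g)

end

end Pool.Agent.Helper94.KM
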