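import Pool.Agent.Helper94.KM.L1

set_option autoImplicit false
set_option linter.all false

/-!
# The sum over a pencil
-/

namespace Pool.Agent.Helper94.KM

open Polynomial Finset
open Pool.Agent.R410.NG (chi chi_eq chi_zero chi_abs chi_sq trc trc_chi sum_chi_quad)

section
variable {F : Type} [Field F]

theorem r0_add (e : F × F) (g h : F[X]) : r0 e (g + h) = r0 e g + r0 e h := by
  unfold r0
  rw [add_modByMonic, coeff_add]

theorem r1_add (e : F × F) (g h : F[X]) : r1 e (g + h) = r1 e g + r1 e h := by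
  unfold r1
  rw [add_modByMonic, coeff_add]

theorem r0_C_mul (e : F × F) (a : F) (g : F[X]) : r0 e (C a * g) = a * r0 e g := by
  unfold r0
  rw [← smul_eq_C_mul, smul_modByMonic, coeff_smul, smul_eq_mul]

theorem r1_C_mul (e : F × F) (a : F) (g : F[X]) : r1 e (C a * g) = a * r1 e g := by
  unfold r1
  rw [← smul_eq_C_mul, smul_modByMonic, coeff_smul, smul_eq_mul]

/-- the middle coefficient -/
noncomputable def mix (e : F × F) (b c : F[X]) : F :=
  2 * r0 e b * r0 e c + (r0 e b * r1 e c + r1 e b * r0 e c) * e.1 + 2 * r1 e b * r1 e c * e.2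

/-- the determinant of the remainders -/
noncomputable def kap (e : F × F) (b c : F[X]) : F := r1 e c * r0 e b - r0 e c * r1 e b

theorem nrm_pencil (e : F × F) (b c : F[X]) (w : F) :
    nrm e (c + C w * b) = nrm e b * w ^ 2 + mix e b c * w + nrm e c := by
  unfold nrm mix
  rw [r0_add, r1_add, r0_C_mul, r1_C_mul]
  ring

theorem mix_disc (e : F × F) (b c : F[X]) :
    mix e b c ^ 2 - 4 * nrm e b * nrm e c = (e.1 ^ 2 - 4 * e.2) * kap e b c ^ 2 := by
  unfold nrm mix kap
  ring

theorem quad_dvd_iff (e : F × F) (g : F[X]) : quad e ∣ g ↔ r0 e g = 0 ∧ r1 e g = 0 := by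
  rw [← modByMonic_eq_zero_iff_dvd (quad_monic e), rem_eq]
  constructor
  · intro h
    have h0 := congrArg (fun p => p.coeff 0) h
    have h1 := congrArg (fun p => p.coeff 1) h
    simp [coeff_C] at h0 h1
    exact ⟨h0, h1⟩
  · rintro ⟨h0, h1⟩
    rw [h0, h1]
    simp

theorem quad_dvd_sq {e : F × F} {b c : F[X]} (h1 : nrm e b = 0) (h2 : mix e b c = 0)
    (h3 : nrm e c ≠ 0) : quad e ∣ b ^ 2 := by
  have h4 : r0 e b ^ 2 - r1 e b ^ 2 * e.2 = 0 := by
    have : nrm e c * (r0 e b ^ 2 - r1 e b ^ 2 * e.2) =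
        (r0 e b * r0 e c - r1 e b * r1 e c * e.2) * mix e b c -
          nrm e b * (r0 e c ^ 2 - r1 e c ^ 2 * e.2) := by
      unfold nrm mix
      ring
    rw [h1, h2, mul_zero, zero_mul, sub_zero] at this
    exact (mul_eq_zero.1 this).resolve_left h3
  have h5 : 2 * r0 e b * r1 e b + r1 e b ^ 2 * e.1 = 0 := by
    have : nrm e c * (2 * r0 e b * r1 e b + r1 e b ^ 2 * e.1) =
        (r0 e b * r1 e c + r1 e b * r0 e c + r1 e b * r1 e c * e.1) * mix e b c -
          nrm e b * (2 * r0 e c * r1 e c + r1 e c ^ 2 * e.1) := by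
      unfold nrm mix
      ring
    rw [h1, h2, mul_zero, zero_mul, sub_zero] at this
    exact (mul_eq_zero.1 this).resolve_left h3
  have h6 : (C (r0 e b) + C (r1 e b) * X) ^ 2 = C (r1 e b ^ 2) * quad e := by
    have h7 : (C (r0 e b) + C (r1 e b) * X) ^ 2 = C (r1 e b ^ 2) * quad e +
        C (2 * r0 e b * r1 e b + r1 e b ^ 2 * e.1) * X + C (r0 e b ^ 2 - r1 e b ^ 2 * e.2) := by
      unfold quad
      simp only [C_add, C_sub, C_mul, C_pow, map_ofNat]
      ring
    rw [h7, h4, h5]
    simp
  have h8 : b ^ 2 = (b %ₘ quad e) ^ 2 + quad e * (2 * (b %ₘ quad e) * (b /ₘ quad e) +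
      quad e * (b /ₘ quad e) ^ 2) := by
    conv_lhs => rw [← modByMonic_add_div b (quad e)]
    ring
  rw [h8, rem_eq, h6]
  exact dvd_add (Dvd.intro_left _ rfl) (Dvd.intro _ rfl)

theorem rem_double (x : F) (g : F[X]) : r0 (2 * x, x ^ 2) g = g.eval x - x * (derivative g).eval x ∧
    r1 (2 * x, x ^ 2) g = (derivative g).eval x := by
  have h1 : quad (2 * x, x ^ 2) = (X - C x) ^ 2 := by
    unfold quad
    simp only [C_mul, C_pow, map_ofNat]
    ring
  have h2 := modByMonic_add_div g (quad (2 * x, x ^ 2))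
  rw [rem_eq, h1] at h2
  have h3 := congrArg (fun p => eval x p) h2
  have h4 := congrArg (fun p => eval x (derivative p)) h2
  simp [derivative_pow] at h3 h4
  constructor
  · rw [← h4, ← h3]
    ring
  · exact h4

theorem kap_double (x : F) (b c : F[X]) : kap (2 * x, x ^ 2) b c =
    (derivative c * b - c * derivative b).eval x := by
  unfold kap
  rw [(rem_double x b).1, (rem_double x b).2, (rem_double x c).1, (rem_double x c).2, eval_sub,
    eval_mul, eval_mul]
  ring

theorem nrm_double (x : F) (b : F[X]) : nrm (2 * x, x ^ 2) b = b.eval x ^ 2 := by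
  unfold nrm
  rw [(rem_double x b).1, (rem_double x b).2]
  ring

end

section
variable {F : Type} [Field F] [Fintype F] (b c : F[X])

open Classical in
theorem sum_dvd (hF : ringChar F ≠ 2) (e : F × F) :
    ∑ w : F, (if quad e ∣ c + C w * b then chi F (nrm e b) else 0) =
      if kap e b c = 0 then chi F (nrm e b) else 0 := by
  have h2 : (2 : F) ≠ 0 := Ring.two_ne_zero hF
  by_cases hN : nrm e b = 0
  · rw [hN, chi_zero]
    simp
  have hd : ∀ w, quad e ∣ c + C w * b ↔ kap e b c = 0 ∧ w = -mix e b c / (2 * nrm e b) := by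
    intro w
    rw [quad_dvd_iff, r0_add, r1_add, r0_C_mul, r1_C_mul, eq_div_iff (mul_ne_zero h2 hN)]
    constructor
    · rintro ⟨h3, h4⟩
      constructor
      · unfold kap
        linear_combination r0 e b * h4 - r1 e b * h3
      · unfold mix nrm
        linear_combination (2 * r0 e b + r1 e b * e.1) * h3 + (r0 e b * e.1 + 2 * r1 e b * e.2) * h4
    · rintro ⟨h3, h4⟩
      constructor
      · have : 2 * nrm e b * (r0 e c + w * r0 e b) = 0 := by
          unfold kap at h3
          have h5 : 2 * nrm e b * r0 e c - mix e b c * r0 e b =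
              -(r1 e c * r0 e b - r0 e c * r1 e b) * (r0 e b * e.1 + 2 * r1 e b * e.2) := by
            unfold mix nrm
            ring
          rw [h3] at h5
          linear_combination h5 + r0 e b * h4
        exact (mul_eq_zero.1 this).resolve_left (mul_ne_zero h2 hN)
      · have : 2 * nrm e b * (r1 e c + w * r1 e b) = 0 := by
          unfold kap at h3
          have h5 : 2 * nrm e b * r1 e c - mix e b c * r1 e b =
              (r1 e c * r0 e b - r0 e c * r1 e b) * (2 * r0 e b + r1 e b * e.1) := by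
            unfold mix nrm
            ring
          rw [h3] at h5
          linear_combination h5 + r1 e b * h4
        exact (mul_eq_zero.1 this).resolve_left (mul_ne_zero h2 hN)
  simp only [hd]
  by_cases hk : kap e b c = 0
  · rw [if_pos hk, Finset.sum_eq_single (-mix e b c / (2 * nrm e b)), if_pos ⟨hk, rfl⟩]
    · intro w _ hw
      rw [if_neg (fun h => hw h.2)]
    · intro h
      exact absurd (Finset.mem_univ _) h
  · rw [if_neg hk]
    exact Finset.sum_eq_zero fun w _ => if_neg fun h => hk h.1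

open Classical in
/-- **The sum over a pencil.** -/
theorem sum_pencil (hF : ringChar F ≠ 2) (hW : (derivative c * b - c * derivative b) * b ≠ 0) :
    |∑ w : F, wJ F (fun _ => c + C w * b) - ((Fintype.card F : ℝ) +
      ∑ w : F, ∑ e : F × F, (if quad e ∣ c + C w * b then chi F (nrm e b) else 0) -
        (Fintype.card F : ℝ)⁻¹ * ∑ e : F × F, chi F (nrm e b))| ≤
      ((derivative c * b - c * derivative b) * b).natDegree + ((b ^ 2).natDegree : ℝ) ^ 2 := by
  have h2 : (2 : F) ≠ 0 := Ring.two_ne_zero hF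
  have hb : b ≠ 0 := right_ne_zero_of_mul hW
  have hq0 : (Fintype.card F : ℝ) ≠ 0 := by
    have : 0 < Fintype.card F := Fintype.card_pos
    positivity
  set W := derivative c * b - c * derivative b with hWd
  -- the sum over the pencil of the characters
  have e1 : ∑ w : F, wJ F (fun _ => c + C w * b) = (Fintype.card F : ℝ)⁻¹ * ∑ e : F × F,
      ((if mix e b c ^ 2 - 4 * nrm e b * nrm e c = 0 then (Fintype.card F : ℝ) *
        chi F (if nrm e b = 0 then nrm e c else nrm e b) else 0) - chi F (nrm e b)) := by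
    have h3 : ∀ w : F, wJ F (fun _ => c + C w * b) =
        (Fintype.card F : ℝ)⁻¹ * ∑ e : F × F, chi F (nrm e b * w ^ 2 + mix e b c * w + nrm e c) := by
      intro w
      unfold wJ
      rw [wedge_eq hF, Nat.card_eq_fintype_card]
      simp only [nrm_pencil]
    rw [Finset.sum_congr rfl fun w _ => h3 w, ← Finset.mul_sum, Finset.sum_comm]
    congr 1
    refine Finset.sum_congr rfl fun e _ => ?_
    rw [sum_chi_quad hF]
  -- the decomposition
  have e2 : ∀ e : F × F, (if mix e b c ^ 2 - 4 * nrm e b * nrm e c = 0 then (Fintype.card F : ℝ) *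
      chi F (if nrm e b = 0 then nrm e c else nrm e b) else 0) = (Fintype.card F : ℝ) *
      ((if kap e b c = 0 then chi F (nrm e b) else 0) +
        (if e.1 ^ 2 = 4 * e.2 ∧ kap e b c ≠ 0 then chi F (nrm e b) else 0) +
        (if nrm e b = 0 ∧ mix e b c = 0 then chi F (nrm e c) else 0)) := by
    intro e
    by_cases hN : nrm e b = 0
    · rw [if_pos hN, hN, chi_zero]
      simp only [mul_zero, zero_mul, sub_zero, ite_self, zero_add, true_and]
      by_cases hm : mix e b c = 0
      · rw [if_pos (by rw [hm]; ring), if_pos hm]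
      · rw [if_neg (pow_ne_zero 2 hm), if_neg hm, mul_zero]
    · rw [if_neg hN, if_neg (c := nrm e b = 0 ∧ mix e b c = 0) (fun h => hN h.1), add_zero, mix_disc]
      by_cases hk : kap e b c = 0
      · rw [if_pos (by rw [hk]; ring), if_pos hk, if_neg (fun h => h.2 hk), add_zero]
      · rw [if_neg hk, zero_add]
        by_cases he : e.1 ^ 2 = 4 * e.2
        · rw [if_pos (by rw [he]; ring), if_pos ⟨he, hk⟩]
        · rw [if_neg (mul_ne_zero (sub_ne_zero.2 he) (pow_ne_zero 2 hk)), if_neg (fun h => he h.1),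
            mul_zero]
  -- the double zeros
  have e3 : ∑ e : F × F, (if e.1 ^ 2 = 4 * e.2 ∧ kap e b c ≠ 0 then chi F (nrm e b) else 0) =
      (Fintype.card F : ℝ) - ∑ x : F, (if (W * b).eval x = 0 then (1 : ℝ) else 0) := by
    rw [Fintype.sum_prod_type]
    have h3 : ∀ t : F, ∑ u : F, (if t ^ 2 = 4 * u ∧ kap (t, u) b c ≠ 0 then chi F (nrm (t, u) b)
        else 0) = if kap (t, (t / 2) ^ 2) b c ≠ 0 then chi F (nrm (t, (t / 2) ^ 2) b) else 0 := by
      intro t
      have h4 : t ^ 2 = 4 * (t / 2) ^ 2 := by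
        have : (4 : F) = 2 ^ 2 := by norm_num
        rw [this, ← mul_pow, mul_div_cancel₀ _ h2]
      rw [Finset.sum_eq_single ((t / 2) ^ 2)]
      · simp only [← h4, true_and]
      · intro u _ hu
        rw [if_neg]
        rintro ⟨h5, -⟩
        apply hu
        have h6 : (4 : F) ≠ 0 := by
          have : (4 : F) = 2 ^ 2 := by norm_num
          rw [this]
          exact pow_ne_zero 2 h2
        apply mul_left_cancel₀ h6
        rw [← h5, h4]
      · intro h
        exact absurd (Finset.mem_univ _) h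
    have h5 : ∀ x : F, (if kap (2 * x, (2 * x / 2) ^ 2) b c ≠ 0 then
        chi F (nrm (2 * x, (2 * x / 2) ^ 2) b) else 0) =
        1 - (if (W * b).eval x = 0 then (1 : ℝ) else 0) := by
      intro x
      rw [mul_div_cancel_left₀ x h2, kap_double, nrm_double, ← hWd, eval_mul]
      by_cases h6 : W.eval x = 0
      · rw [if_neg (fun h => h h6), h6, zero_mul, if_pos rfl, sub_self]
      · rw [if_pos h6]
        by_cases h7 : b.eval x = 0
        · rw [h7, mul_zero, if_pos rfl, zero_pow two_ne_zero, chi_zero, sub_self]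
        · rw [chi_sq hF h7, if_neg (mul_ne_zero h6 h7), sub_zero]
    rw [Finset.sum_congr rfl fun t _ => h3 t]
    rw [← Fintype.sum_equiv (Equiv.mulLeft₀ (2 : F) h2)
      (fun x => 1 - (if (W * b).eval x = 0 then (1 : ℝ) else 0)) _ (fun x => (h5 x).symm),
      Finset.sum_sub_distrib, Finset.sum_const, nsmul_eq_mul, mul_one, Finset.card_univ]
  have e4 : ∑ w : F, ∑ e : F × F, (if quad e ∣ c + C w * b then chi F (nrm e b) else 0) =
      ∑ e : F × F, (if kap e b c = 0 then chi F (nrm e b) else 0) := by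
    rw [Finset.sum_comm]
    exact Finset.sum_congr rfl fun e _ => sum_dvd b c hF e
  have e5 : 0 ≤ ∑ x : F, (if (W * b).eval x = 0 then (1 : ℝ) else 0) ∧
      ∑ x : F, (if (W * b).eval x = 0 then (1 : ℝ) else 0) ≤ (W * b).natDegree := by
    refine ⟨Finset.sum_nonneg fun x _ => by split_ifs <;> norm_num, ?_⟩
    rw [Finset.sum_boole]
    have h4 : (univ.filter fun x : F => (W * b).eval x = 0) ⊆ (W * b).roots.toFinset := by
      intro x hx
      rw [Finset.mem_filter] at hx
      rw [Multiset.mem_toFinset, mem_roots hW]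
      exact hx.2
    exact_mod_cast (Finset.card_le_card h4).trans ((Multiset.toFinset_card_le _).trans (card_roots' _))
  have e6 : |∑ e : F × F, (if nrm e b = 0 ∧ mix e b c = 0 then chi F (nrm e c) else 0)| ≤
      ((b ^ 2).natDegree : ℝ) ^ 2 := by
    have h3 : ∀ e : F × F, |(if nrm e b = 0 ∧ mix e b c = 0 then chi F (nrm e c) else 0)| ≤
        if quad e ∣ b ^ 2 then (1 : ℝ) else 0 := by
      intro e
      by_cases h4 : nrm e b = 0 ∧ mix e b c = 0
      · rw [if_pos h4]
        by_cases h5 : nrm e c = 0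
        · rw [h5, chi_zero, abs_zero]
          split_ifs <;> norm_num
        · rw [if_pos (quad_dvd_sq h4.1 h4.2 h5)]
          exact chi_abs _
      · rw [if_neg h4, abs_zero]
        split_ifs <;> norm_num
    refine (Finset.abs_sum_le_sum_abs _ _).trans ((Finset.sum_le_sum fun e _ => h3 e).trans ?_)
    rw [Finset.sum_boole]
    have h5 := (quad_finite (b ^ 2) (pow_ne_zero 2 hb)).2
    rw [Nat.card_eq_fintype_card, Fintype.card_subtype] at h5
    exact_mod_cast h5
  have e7 : ∑ w : F, wJ F (fun _ => c + C w * b) - ((Fintype.card F : ℝ) +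
      ∑ w : F, ∑ e : F × F, (if quad e ∣ c + C w * b then chi F (nrm e b) else 0) -
        (Fintype.card F : ℝ)⁻¹ * ∑ e : F × F, chi F (nrm e b)) =
      ∑ e : F × F, (if nrm e b = 0 ∧ mix e b c = 0 then chi F (nrm e c) else 0) -
        ∑ x : F, (if (W * b).eval x = 0 then (1 : ℝ) else 0) := by
    rw [e1, e4, Finset.sum_sub_distrib, Finset.sum_congr rfl fun e _ => e2 e, ← Finset.mul_sum,
      Finset.sum_add_distrib, Finset.sum_add_distrib, e3]
    field_simp
    ring
  rw [e7]
  have h8 := abs_sub (∑ e : F × F, (if nrm e b = 0 ∧ mix e b c = 0 then chi F (nrm e c) else 0))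
    (∑ x : F, (if (W * b).eval x = 0 then (1 : ℝ) else 0))
  rw [abs_of_nonneg e5.1] at h8
  linarith [e5.2]

end

end Pool.Agent.Helper94.KM
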