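import Pool.Agent.Helper94.KM.J5
import Pool.Agent.Helper94.KM.L2

set_option autoImplicit false
set_option linter.all false

/-!
# The average number of the quadratic divisors with a square root of the norm
-/

namespace Pool.Agent.Helper94.KM

open Polynomial NumberField
open Pool.Agent.R410.LW (FG)
open Pool.Agent.R410.NG (Asy Wt IsWt sT sT_eq chi)

/-- the number of the quadratic divisors with a square root of the norm of the second polynomial -/
noncomputable def wZ : Wt (Fin 2) := fun F _ p =>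
  (Nat.card {z : (F × F) × F // quad z.1 ∣ p 0 ∧ z.2 ^ 2 = nrm z.1 (p 1)} : ℝ)

section
variable {F : Type} [Field F]

/-- the points over the quadratic divisors -/
noncomputable def zEq (p : Fin 2 → F[X]) :
    {z : (F × F) × F // quad z.1 ∣ p 0 ∧ z.2 ^ 2 = nrm z.1 (p 1)} ≃
      Σ e : {e : F × F // quad e ∣ p 0}, {y : F // y ^ 2 = nrm e.1 (p 1)} where
  toFun z := ⟨⟨z.1.1, z.2.1⟩, ⟨z.1.2, z.2.2⟩⟩
  invFun z := ⟨(z.1.1, z.2.1), z.1.2, z.2.2⟩
  left_inv z := rfl
  right_inv z := rfl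

open Classical in
theorem wZ_eq [Fintype F] (p : Fin 2 → F[X]) : wZ F p - wQ F (fun _ => p 0) =
    ∑ e : F × F, (if quad e ∣ p 0 then chi F (nrm e (p 1)) else 0) := by
  unfold wZ wQ
  rw [Nat.card_congr (zEq p), Nat.card_sigma]
  have h1 : ∀ e : {e : F × F // quad e ∣ p 0}, (Nat.card {y : F // y ^ 2 = nrm e.1 (p 1)} : ℝ) =
      1 + chi F (nrm e.1 (p 1)) := by
    intro e
    unfold chi
    ring
  push_cast
  rw [Finset.sum_congr rfl fun e _ => h1 e, Finset.sum_add_distrib, Finset.sum_const,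
    Finset.card_univ, nsmul_eq_mul, mul_one, Nat.card_eq_fintype_card, add_sub_cancel_left,
    ← Finset.sum_filter]
  exact (Finset.sum_subtype _ (fun x => by simp) fun e => chi F (nrm e (p 1))).symm

theorem card_sqrt_le [Finite F] (c : F) : Nat.card {y : F // y ^ 2 = c} ≤ 2 := by
  have h := Pool.Agent.R410.NG.chi_abs (F := F) c
  unfold chi at h
  rw [abs_le] at h
  have h2 : (Nat.card {y : F // y ^ 2 = c} : ℝ) ≤ 2 := by linarith [h.2]
  exact_mod_cast h2

end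

theorem isWt_wZ (n : Fin 2 → ℕ) : IsWt wZ n (2 * (n 0 : ℝ) ^ 2) where
  c0 := by positivity
  iso F F' _ _ e p := by
    unfold wZ
    congr 1
    symm
    refine Nat.card_congr ((Equiv.prodCongr (Equiv.prodCongr e.toEquiv e.toEquiv)
      e.toEquiv).subtypeEquiv fun a => ?_)
    show _ ↔ quad (e a.1.1, e a.1.2) ∣ (p 0).map (e : F →+* F') ∧
      e a.2 ^ 2 = nrm (e a.1.1, e a.1.2) ((p 1).map (e : F →+* F'))
    have h1 : quad (e a.1.1, e a.1.2) = (quad a.1).map (e : F →+* F') :=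
      (quad_map (e : F →+* F') a.1).symm
    have h2 : nrm (e a.1.1, e a.1.2) ((p 1).map (e : F →+* F')) = e (nrm a.1 (p 1)) :=
      nrm_map (e : F →+* F') a.1 (p 1)
    rw [h1, h2, ← map_pow, e.injective.eq_iff]
    exact and_congr_left fun _ => (map_dvd_iff (mapEquiv e)).symm
  bound F _ _ p hp := by
    classical
    let _ : Fintype F := Fintype.ofFinite F
    have hg : p 0 ≠ 0 := (hp 0).1.ne_zero
    have h1 := (quad_finite (p 0) hg).2
    rw [(hp 0).2] at h1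
    have hq : (1 : ℝ) ≤ (Nat.card F : ℝ) := by exact_mod_cast Nat.card_pos
    have hs : (1 : ℝ) ≤ √(Nat.card F : ℝ) := Real.one_le_sqrt.2 hq
    have h2 : Nat.card {z : (F × F) × F // quad z.1 ∣ p 0 ∧ z.2 ^ 2 = nrm z.1 (p 1)} ≤
        2 * n 0 ^ 2 := by
      rw [Nat.card_congr (zEq p), Nat.card_sigma]
      refine (Finset.sum_le_card_nsmul _ _ 2 fun e _ => card_sqrt_le _).trans ?_
      rw [Finset.card_univ, smul_eq_mul, mul_comm, ← Nat.card_eq_fintype_card]
      exact Nat.mul_le_mul_left 2 h1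
    unfold wZ
    rw [Nat.abs_cast]
    have h3 : (Nat.card {z : (F × F) × F // quad z.1 ∣ p 0 ∧ z.2 ^ 2 = nrm z.1 (p 1)} : ℝ) ≤
        2 * (n 0 : ℝ) ^ 2 := by exact_mod_cast h2
    exact h3.trans (le_mul_of_one_le_right (by positivity) hs)

section
variable {R : Type} [CommRing R]

/-- the universal quadratic polynomial -/
noncomputable def uz (R : Type) [CommRing R] : (MvPolynomial (Fin 3) R)[X] :=
  X ^ 2 - C (MvPolynomial.X 0) * X + C (MvPolynomial.X 1)

theorem uz_monic [Nontrivial R] : (uz R).Monic := by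
  unfold uz
  monicity!

/-- the remainder -/
noncomputable def rz (G : R[X]) : (MvPolynomial (Fin 3) R)[X] := G.map MvPolynomial.C %ₘ uz R

/-- the system of the equations of the quadratic divisors with a square root of the norm -/
noncomputable def zsys (G B : R[X]) : Fin 3 → MvPolynomial (Fin 3) R :=
  ![(rz G).coeff 0, (rz G).coeff 1, MvPolynomial.X 2 ^ 2 - ((rz B).coeff 0 ^ 2 +
    (rz B).coeff 0 * (rz B).coeff 1 * MvPolynomial.X 0 + (rz B).coeff 1 ^ 2 * MvPolynomial.X 1)]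

theorem rz_map [Nontrivial R] {F : Type} [Field F] (Φ : MvPolynomial (Fin 3) R →+* F) (G : R[X]) :
    (rz G).map Φ = G.map (Φ.comp MvPolynomial.C) %ₘ
      quad (Φ (MvPolynomial.X 0), Φ (MvPolynomial.X 1)) := by
  unfold rz
  rw [Polynomial.map_modByMonic _ uz_monic, Polynomial.map_map]
  congr 1
  unfold uz quad
  simp

theorem zsys_zero [Nontrivial R] {F : Type} [Field F] (Φ : MvPolynomial (Fin 3) R →+* F)
    (G B : R[X]) : (∀ c, Φ (zsys G B c) = 0) ↔
      quad (Φ (MvPolynomial.X 0), Φ (MvPolynomial.X 1)) ∣ G.map (Φ.comp MvPolynomial.C) ∧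
      Φ (MvPolynomial.X 2) ^ 2 = nrm (Φ (MvPolynomial.X 0), Φ (MvPolynomial.X 1))
        (B.map (Φ.comp MvPolynomial.C)) := by
  have hr : ∀ (P : R[X]) j, Φ ((rz P).coeff j) = (P.map (Φ.comp MvPolynomial.C) %ₘ
      quad (Φ (MvPolynomial.X 0), Φ (MvPolynomial.X 1))).coeff j := by
    intro P j
    rw [← coeff_map, rz_map]
  have h2 : Φ (zsys G B 2) = Φ (MvPolynomial.X 2) ^ 2 -
      nrm (Φ (MvPolynomial.X 0), Φ (MvPolynomial.X 1)) (B.map (Φ.comp MvPolynomial.C)) := by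
    show Φ (MvPolynomial.X 2 ^ 2 - ((rz B).coeff 0 ^ 2 +
      (rz B).coeff 0 * (rz B).coeff 1 * MvPolynomial.X 0 + (rz B).coeff 1 ^ 2 * MvPolynomial.X 1)) = _
    simp only [map_sub, map_add, map_mul, map_pow, hr]
    rfl
  have h01 : (Φ (zsys G B 0) = 0 ∧ Φ (zsys G B 1) = 0) ↔
      quad (Φ (MvPolynomial.X 0), Φ (MvPolynomial.X 1)) ∣ G.map (Φ.comp MvPolynomial.C) := by
    rw [quad_dvd_iff]
    show (Φ ((rz G).coeff 0) = 0 ∧ Φ ((rz G).coeff 1) = 0) ↔ _
    rw [hr, hr]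
    rfl
  rw [← h01]
  constructor
  · intro h
    refine ⟨⟨h 0, h 1⟩, ?_⟩
    have := h 2
    rw [h2] at this
    exact sub_eq_zero.1 this
  · rintro ⟨⟨h3, h4⟩, h5⟩ c
    fin_cases c
    · exact h3
    · exact h4
    · show Φ (zsys G B 2) = 0
      rw [h2, h5, sub_self]

/-- the points of the system over a point of `R` -/
noncomputable def zEquiv [Nontrivial R] {F : Type} [Field F] (G B : R[X]) (N : R) :
    {Φ : MvPolynomial (Fin 3) R →+* F // (∀ c, Φ (zsys G B c) = 0) ∧ Φ (MvPolynomial.C N) ≠ 0} ≃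
      Σ φ : {φ : R →+* F // φ N ≠ 0}, {z : (F × F) × F // quad z.1 ∣ G.map φ.1 ∧
        z.2 ^ 2 = nrm z.1 (B.map φ.1)} where
  toFun Φ := ⟨⟨Φ.1.comp MvPolynomial.C, Φ.2.2⟩,
    ⟨((Φ.1 (MvPolynomial.X 0), Φ.1 (MvPolynomial.X 1)), Φ.1 (MvPolynomial.X 2)),
      (zsys_zero Φ.1 G B).1 Φ.2.1⟩⟩
  invFun z := ⟨MvPolynomial.eval₂Hom z.1.1 ![z.2.1.1.1, z.2.1.1.2, z.2.1.2], by
    have h1 : (MvPolynomial.eval₂Hom z.1.1 ![z.2.1.1.1, z.2.1.1.2, z.2.1.2]).comp MvPolynomial.C =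
        z.1.1 := RingHom.ext fun a => by rw [RingHom.comp_apply, MvPolynomial.eval₂Hom_C]
    refine ⟨?_, ?_⟩
    · rw [zsys_zero, h1, MvPolynomial.eval₂Hom_X', MvPolynomial.eval₂Hom_X',
        MvPolynomial.eval₂Hom_X']
      exact z.2.2
    · rw [MvPolynomial.eval₂Hom_C]
      exact z.1.2⟩
  left_inv Φ := by
    apply Subtype.ext
    apply MvPolynomial.ringHom_ext
    · intro a
      simp
    · intro i
      fin_cases i <;> simp
  right_inv z := by
    rcases z with ⟨⟨φ, hφ⟩, ⟨⟨⟨t, x⟩, y⟩, hQ⟩⟩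
    have gen : ∀ (φ' : R →+* F) (hφ' : φ' N ≠ 0) (t' x' y' : F)
        (hQ' : quad (t', x') ∣ G.map φ' ∧ y' ^ 2 = nrm (t', x') (B.map φ')), φ' = φ → t' = t →
        x' = x → y' = y →
        (⟨⟨φ', hφ'⟩, ⟨((t', x'), y'), hQ'⟩⟩ : Σ φ : {φ : R →+* F // φ N ≠ 0},
          {z : (F × F) × F // quad z.1 ∣ G.map φ.1 ∧ z.2 ^ 2 = nrm z.1 (B.map φ.1)}) =
          ⟨⟨φ, hφ⟩, ⟨((t, x), y), hQ⟩⟩ := by
      intro φ' hφ' t' x' y' hQ' h1 h2 h3 h4
      subst h1 h2 h3 h4
      rfl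
    refine gen _ _ _ _ _ _ ?_ ?_ ?_ ?_
    · exact RingHom.ext fun a => by rw [RingHom.comp_apply, MvPolynomial.eval₂Hom_C]
    · rw [MvPolynomial.eval₂Hom_X']
      rfl
    · rw [MvPolynomial.eval₂Hom_X']
      rfl
    · rw [MvPolynomial.eval₂Hom_X']
      rfl

theorem sT_wZ [IsDomain R] [Algebra.FiniteType ℤ R] (g : Fin 2 → R[X]) (N : R) (F : Type) [Field F]
    [Finite F] : sT wZ g N F = (Nat.card {Φ : MvPolynomial (Fin 3) R →+* F //
      (∀ c, Φ (zsys (g 0) (g 1) c) = 0) ∧ Φ (MvPolynomial.C N) ≠ 0} : ℝ) := by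
  classical
  have hfin : Finite (R →+* F) := inferInstance
  let _ : Fintype {φ : R →+* F // φ N ≠ 0} := Fintype.ofFinite _
  rw [Nat.card_congr (zEquiv (g 0) (g 1) N)]
  have hf : ∀ φ : {φ : R →+* F // φ N ≠ 0}, Finite {z : (F × F) × F // quad z.1 ∣ (g 0).map φ.1 ∧
        z.2 ^ 2 = nrm z.1 ((g 1).map φ.1)} := fun φ => inferInstance
  rw [Nat.card_sigma]
  unfold sT wZ
  rw [finsum_eq_sum_of_fintype, Nat.cast_sum]

end

section
variable {K : Type} [Field K] (Ω : Type) [Field Ω] [Algebra K Ω]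

/-- the quadratic divisors of `F` over `Ω` with a square root of the norm of `b` -/
abbrev ZD (F b : K[X]) : Type :=
  {z : (Ω × Ω) × Ω // quad z.1 ∣ F.map (algebraMap K Ω) ∧ z.2 ^ 2 = nrm z.1 (b.map (algebraMap K Ω))}

/-- conjugate divisors -/
def ZConj (F b : K[X]) (z z' : ZD Ω F b) : Prop :=
  ∃ σ : Ω ≃ₐ[K] Ω, σ z.1.1.1 = z'.1.1.1 ∧ σ z.1.1.2 = z'.1.1.2 ∧ σ z.1.2 = z'.1.2

variable {Ω} {R : Type} [CommRing R] [IsDomain R] [Algebra R K]

/-- the solutions of the system -/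
noncomputable def zsEquiv {F b : K[X]} {G B : R[X]} (hG : G.map (algebraMap R K) = F)
    (hB : B.map (algebraMap R K) = b) : Sol K Ω (zsys G B) ≃ ZD Ω F b := by
  have key : ∀ x : Fin 3 → Ω, (∀ c, evt K x (zsys G B c) = 0) ↔
      quad (x 0, x 1) ∣ F.map (algebraMap K Ω) ∧ x 2 ^ 2 = nrm (x 0, x 1) (b.map (algebraMap K Ω)) := by
    intro x
    have h1 : (evt K (R := R) x).comp MvPolynomial.C = (algebraMap K Ω).comp (algebraMap R K) :=
      RingHom.ext fun a => by rw [RingHom.comp_apply, evt, MvPolynomial.eval₂Hom_C]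
    rw [zsys_zero, h1, ← hG, ← hB, Polynomial.map_map, Polynomial.map_map]
    have h2 : ∀ i, evt K (R := R) x (MvPolynomial.X i) = x i := fun i => by
      rw [evt, MvPolynomial.eval₂Hom_X']
    rw [h2, h2, h2]
  exact
    { toFun := fun x => ⟨((x.1 0, x.1 1), x.1 2), (key x.1).1 x.2⟩
      invFun := fun z => ⟨![z.1.1.1, z.1.1.2, z.1.2], (key _).2 z.2⟩
      left_inv := fun x => by
        apply Subtype.ext
        funext i
        fin_cases i <;> rfl
      right_inv := fun z => rfl }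

theorem zsEquiv_val {F b : K[X]} {G B : R[X]} (hG : G.map (algebraMap R K) = F)
    (hB : B.map (algebraMap R K) = b) (x : Sol K Ω (zsys G B)) :
    (zsEquiv hG hB x).1 = ((x.1 0, x.1 1), x.1 2) := rfl

theorem card_zsys {F b : K[X]} {G B : R[X]} (hG : G.map (algebraMap R K) = F)
    (hB : B.map (algebraMap R K) = b) :
    Nat.card (Quot (SConj K Ω (zsys G B))) = Nat.card (Quot (ZConj Ω F b)) := by
  refine Nat.card_congr (Quot.congr (zsEquiv hG hB) fun x y => ?_)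
  constructor
  · rintro ⟨σ, hσ⟩
    exact ⟨σ, hσ 0, hσ 1, hσ 2⟩
  · rintro ⟨σ, h0, h1, h2⟩
    refine ⟨σ, fun i => ?_⟩
    fin_cases i
    · exact h0
    · exact h1
    · exact h2

theorem finite_zd {F b : K[X]} (hF : F ≠ 0) : Finite (ZD Ω F b) := by
  classical
  have hF' : F.map (algebraMap K Ω) ≠ 0 :=
    (Polynomial.map_ne_zero_iff (algebraMap K Ω).injective).2 hF
  have h1 := (quad_finite (F.map (algebraMap K Ω)) hF').1
  have h2 : ∀ c : Ω, Finite {y : Ω // y ^ 2 = c} := by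
    intro c
    have h3 : (X ^ 2 - C c : Polynomial Ω) ≠ 0 := X_pow_sub_C_ne_zero two_pos c
    have h5 : {y : Ω | y ^ 2 = c}.Finite := by
      refine Set.Finite.subset ((X ^ 2 - C c : Polynomial Ω).roots.toFinset.finite_toSet)
        fun y hy => ?_
      rw [Finset.mem_coe, Multiset.mem_toFinset, mem_roots h3, IsRoot.def, eval_sub, eval_pow, eval_X,
        eval_C, sub_eq_zero]
      exact hy
    exact h5.to_subtype
  have h4 : Finite (Σ e : {e : Ω × Ω // quad e ∣ F.map (algebraMap K Ω)},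
      {y : Ω // y ^ 2 = nrm e.1 (b.map (algebraMap K Ω))}) := by
    have h5 := fun e : {e : Ω × Ω // quad e ∣ F.map (algebraMap K Ω)} =>
      h2 (nrm e.1 (b.map (algebraMap K Ω)))
    infer_instance
  exact @Finite.of_equiv _ _ h4 (zEq ![F.map (algebraMap K Ω), b.map (algebraMap K Ω)]).symm

end

section
variable {K R B : Type} [Field K] [CharZero K] [CommRing R] [IsDomain R] [Algebra.FiniteType ℤ R]
  [Algebra R K] [IsFractionRing R K] {Ω : Type} [Field Ω] [Algebra K Ω] [IsAlgClosed Ω]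
  [Algebra.IsAlgebraic K Ω]

/-- **The average number of the quadratic divisors with a square root of the norm**, for every model. -/
theorem asy_wZ (hK : FG K) {e : ℕ} (he : Algebra.trdeg ℚ K = e) {g : Fin 2 → R[X]}
    (hg : ∀ j, (g j).Monic) {N : R} (hN : N ≠ 0) : Asy (fun F _ _ => sT wZ g N F) e
      (Nat.card (Quot (ZConj Ω ((g 0).map (algebraMap R K)) ((g 1).map (algebraMap R K))))) := by
  have hfinS : Finite (Sol K Ω (zsys (g 0) (g 1))) := by
    have h1 := finite_zd (Ω := Ω) (F := (g 0).map (algebraMap R K))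
      (b := (g 1).map (algebraMap R K)) (((hg 0).map _).ne_zero)
    exact Finite.of_equiv _ (zsEquiv (K := K) (Ω := Ω) rfl rfl).symm
  obtain ⟨N₀, hN₀, h⟩ := asy_sys (Ω := Ω) hK he (zsys (g 0) (g 1)) hfinS
  have h1 := (h (N₀ * N) (mul_ne_zero hN₀ hN) (dvd_mul_right _ _)).1
  rw [card_zsys rfl rfl] at h1
  refine Pool.Agent.R410.NG.asy_any (isWt_wZ fun j => (g j).natDegree) he.le (fun _ => rfl)
    (fun j => ⟨hg j, rfl⟩) hN (mul_ne_zero hN₀ hN) (g' := g) ?_
  refine h1.congr 1 one_ne_zero fun F _ _ _ => ?_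
  exact sT_wZ g (N₀ * N) F

end

end Pool.Agent.Helper94.KM
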