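import Pool.Agent.Helper94.KM.L3
import Mathlib.FieldTheory.Galois.Infinite

set_option autoImplicit false
set_option linter.all false

/-!
# The orbits of the quadratic divisors with a square root of the norm
-/

namespace Pool.Agent.Helper94.KM

open Polynomial

section
variable {K Ω : Type} [Field K] [Field Ω] [Algebra K Ω]

theorem fix_adjoin {S : Set Ω} {z : Ω} (hz : z ∈ IntermediateField.adjoin K S) (τ : Ω ≃ₐ[K] Ω)
    (hτ : ∀ s ∈ S, τ s = s) : τ z = z := by
  induction hz using IntermediateField.adjoin_induction with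
  | mem x hx => exact hτ x hx
  | algebraMap x => exact τ.commutes x
  | add x y _ _ hx hy => rw [map_add, hx, hy]
  | inv x _ hx => rw [map_inv₀, hx]
  | mul x y _ _ hx hy => rw [map_mul, hx, hy]

theorem mem_adjoin_of_fix [IsGalois K Ω] {S : Set Ω} {z : Ω}
    (h : ∀ τ : Ω ≃ₐ[K] Ω, (∀ s ∈ S, τ s = s) → τ z = z) : z ∈ IntermediateField.adjoin K S := by
  rw [← InfiniteGalois.fixedField_fixingSubgroup (IntermediateField.adjoin K S),
    IntermediateField.mem_fixedField_iff]
  intro τ hτ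
  rw [IntermediateField.mem_fixingSubgroup_iff] at hτ
  exact h τ fun s hs => hτ s (IntermediateField.subset_adjoin K S hs)

/-- the product of the values of `b` at the zeros of `D` is a nonzero square in the field generated by the
coefficients of `D` -/
def SplitD (b : K[X]) (D : Polynomial Ω) : Prop :=
  ∃ x₁ x₂ z : Ω, D = (X - C x₁) * (X - C x₂) ∧ z ∈ IntermediateField.adjoin K {x₁ + x₂, x₁ * x₂} ∧
    z ≠ 0 ∧ z ^ 2 = aeval x₁ b * aeval x₂ b

theorem zconj_equiv (F b : K[X]) : Equivalence (ZConj Ω F b) :=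
  { refl := fun x => ⟨AlgEquiv.refl, rfl, rfl, rfl⟩
    symm := fun {x y} ⟨σ, h1, h2, h3⟩ => ⟨σ.symm, by rw [← h1, AlgEquiv.symm_apply_apply],
      by rw [← h2, AlgEquiv.symm_apply_apply], by rw [← h3, AlgEquiv.symm_apply_apply]⟩
    trans := fun {x y z} ⟨σ, h1, h2, h3⟩ ⟨τ, h1', h2', h3'⟩ => ⟨σ.trans τ,
      by rw [AlgEquiv.trans_apply, h1, h1'], by rw [AlgEquiv.trans_apply, h2, h2'],
      by rw [AlgEquiv.trans_apply, h3, h3']⟩ }

theorem zconj_of {F b : K[X]} {x y : ZD Ω F b}
    (h : Quot.mk (ZConj Ω F b) x = Quot.mk (ZConj Ω F b) y) : ZConj Ω F b x y :=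
  (zconj_equiv F b).eqvGen_iff.1 (Quot.eqvGen_exact h)

theorem qconj_equiv (F : K[X]) : Equivalence (QConj Ω F) :=
  { refl := fun x => ⟨AlgEquiv.refl, by
      have : ((AlgEquiv.refl : Ω ≃ₐ[K] Ω) : Ω →+* Ω) = RingHom.id Ω := rfl
      rw [this, Polynomial.map_id]⟩
    symm := fun {x y} ⟨σ, h1⟩ => ⟨σ.symm, by
      rw [← h1, Polynomial.map_map]
      have : ((σ.symm : Ω ≃ₐ[K] Ω) : Ω →+* Ω).comp (σ : Ω →+* Ω) = RingHom.id Ω :=
        RingHom.ext fun a => σ.symm_apply_apply a
      rw [this, Polynomial.map_id]⟩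
    trans := fun {x y z} ⟨σ, h1⟩ ⟨τ, h2⟩ => ⟨σ.trans τ, by
      rw [← h2, ← h1, Polynomial.map_map]
      rfl⟩ }

theorem qconj_of {F : K[X]} {x y : QD Ω F}
    (h : Quot.mk (QConj Ω F) x = Quot.mk (QConj Ω F) y) : QConj Ω F x y :=
  (qconj_equiv F).eqvGen_iff.1 (Quot.eqvGen_exact h)

/-- the divisor -/
noncomputable def toQ (F b : K[X]) (z : ZD Ω F b) : QD Ω F :=
  ⟨quad z.1.1, quad_monic _, quad_natDegree _, z.2.1⟩

/-- the divisor -/
noncomputable def piQ (F b : K[X]) : Quot (ZConj Ω F b) → Quot (QConj Ω F) :=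
  Quot.map (toQ F b) fun z z' ⟨σ, h1, h2, _⟩ => ⟨σ, by
    show (quad z.1.1).map (σ : Ω →+* Ω) = quad z'.1.1
    rw [quad_map]
    show quad (σ z.1.1.1, σ z.1.1.2) = _
    rw [h1, h2]⟩

variable [IsAlgClosed Ω]

/-- the fibre of an orbit -/
theorem fibre_card (F b : K[X]) (e : Ω × Ω) (he : quad e ∣ F.map (algebraMap K Ω)) (y : Ω)
    (hy : y ^ 2 = nrm e (b.map (algebraMap K Ω))) :
    ((∃ τ : Ω ≃ₐ[K] Ω, τ e.1 = e.1 ∧ τ e.2 = e.2 ∧ τ y = -y) →
      Nat.card {s : Quot (ZConj Ω F b) // piQ F b s =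
        Quot.mk _ ⟨quad e, quad_monic _, quad_natDegree _, he⟩} = 1) ∧
    ((¬ ∃ τ : Ω ≃ₐ[K] Ω, τ e.1 = e.1 ∧ τ e.2 = e.2 ∧ τ y = -y) →
      Nat.card {s : Quot (ZConj Ω F b) // piQ F b s =
        Quot.mk _ ⟨quad e, quad_monic _, quad_natDegree _, he⟩} = 2) := by
  set o : Quot (QConj Ω F) := Quot.mk _ ⟨quad e, quad_monic _, quad_natDegree _, he⟩ with ho
  let sp : Quot (ZConj Ω F b) := Quot.mk _ ⟨(e, y), he, hy⟩
  let sm : Quot (ZConj Ω F b) := Quot.mk _ ⟨(e, -y), he, by rw [neg_sq]; exact hy⟩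
  have hset : {s : Quot (ZConj Ω F b) | piQ F b s = o} = {sp, sm} := by
    ext s
    rw [Set.mem_setOf_eq, Set.mem_insert_iff, Set.mem_singleton_iff]
    constructor
    · intro hs
      induction s using Quot.ind with
      | mk z =>
        obtain ⟨σ, hσ⟩ := qconj_of (F := F) (x := toQ F b z) hs
        have h1 : quad (σ z.1.1.1, σ z.1.1.2) = quad e :=
          (quad_map (σ : Ω →+* Ω) z.1.1).symm.trans hσ
        have h2 := quad_inj h1
        have h3 : σ z.1.2 ^ 2 = y ^ 2 := by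
          rw [hy, ← map_pow, z.2.2]
          have h4 := nrm_map (σ : Ω →+* Ω) z.1.1 (b.map (algebraMap K Ω))
          have h5 : (b.map (algebraMap K Ω)).map (σ : Ω →+* Ω) = b.map (algebraMap K Ω) := by
            rw [Polynomial.map_map]
            congr 1
            exact RingHom.ext fun a => σ.commutes a
          rw [h5] at h4
          have h6 : ((σ : Ω →+* Ω) z.1.1.1, (σ : Ω →+* Ω) z.1.1.2) = e := h2
          rw [h6] at h4
          exact h4.symm
        rcases sq_eq_sq_iff_eq_or_eq_neg.1 h3 with h4 | h4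
        · left
          exact Quot.sound ⟨σ, congrArg Prod.fst h2, congrArg Prod.snd h2, h4⟩
        · right
          exact Quot.sound ⟨σ, congrArg Prod.fst h2, congrArg Prod.snd h2, h4⟩
    · rintro (rfl | rfl) <;> rfl
  have hcard : Nat.card {s : Quot (ZConj Ω F b) // piQ F b s = o} =
      Set.ncard ({sp, sm} : Set (Quot (ZConj Ω F b))) := by
    rw [← hset]
    rfl
  rw [hcard]
  constructor
  · rintro ⟨τ, h1, h2, h3⟩
    have h4 : sp = sm := Quot.sound ⟨τ, h1, h2, h3⟩
    rw [h4, Set.pair_eq_singleton, Set.ncard_singleton]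
  · intro h
    apply Set.ncard_pair
    intro h4
    obtain ⟨τ, h1, h2, h3⟩ := zconj_of h4
    exact h ⟨τ, h1, h2, h3⟩

open Classical in
/-- **The orbits of the quadratic divisors with a square root of the norm.** -/
theorem card_zconj [IsGalois K Ω] {F : K[X]} (b : K[X]) (hF : F ≠ 0) (h2 : (2 : Ω) ≠ 0) :
    Nat.card (Quot (ZConj Ω F b)) = Nat.card (Quot (QConj Ω F)) +
      Nat.card {o : Quot (QConj Ω F) // ∃ D, Quot.mk _ D = o ∧ SplitD b D.1} := by
  have hfz : Finite (ZD Ω F b) := finite_zd hF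
  have hfq : Finite (QD Ω F) := by
    have hF' : F.map (algebraMap K Ω) ≠ 0 :=
      (Polynomial.map_ne_zero_iff (algebraMap K Ω).injective).2 hF
    have h1 := (quad_finite (F.map (algebraMap K Ω)) hF').1
    refine Finite.of_surjective (fun e : {e : Ω × Ω // quad e ∣ F.map (algebraMap K Ω)} =>
      (⟨quad e.1, quad_monic _, quad_natDegree _, e.2⟩ : QD Ω F)) fun D => ?_
    have h3 := quad_of D.2.1 D.2.2.1
    exact ⟨⟨(-D.1.coeff 1, D.1.coeff 0), by rw [← h3]; exact D.2.2.2⟩, Subtype.ext h3.symm⟩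
  let _ : Fintype (Quot (QConj Ω F)) := Fintype.ofFinite _
  have key : ∀ o : Quot (QConj Ω F), Nat.card {s : Quot (ZConj Ω F b) // piQ F b s = o} =
      1 + if (∃ D, Quot.mk _ D = o ∧ SplitD b D.1) then 1 else 0 := by
    intro o
    -- zeros and the norm
    have hzeros : ∀ D : QD Ω F, ∃ x₁ x₂ : Ω, D.1 = quad (x₁ + x₂, x₁ * x₂) := by
      intro D
      have h3 := quad_of D.2.1 D.2.2.1
      obtain ⟨x, hx⟩ := IsAlgClosed.exists_root D.1 (by
        rw [degree_eq_natDegree D.2.1.ne_zero, D.2.2.1]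
        norm_num)
      refine ⟨x, -D.1.coeff 1 - x, ?_⟩
      rw [h3] at hx
      have hx0 : x ^ 2 - (-D.1.coeff 1) * x + D.1.coeff 0 = 0 := by
        unfold quad at hx
        simpa [IsRoot] using hx
      conv_lhs => rw [h3]
      congr 2
      · ring
      · linear_combination hx0
    have hform : ∀ x₁ x₂ : Ω, quad (x₁ + x₂, x₁ * x₂) = (X - C x₁) * (X - C x₂) := by
      intro x₁ x₂
      unfold quad
      simp only [C_add, C_mul]
      ring
    have hnorm : ∀ x₁ x₂ : Ω, nrm (x₁ + x₂, x₁ * x₂) (b.map (algebraMap K Ω)) =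
        aeval x₁ b * aeval x₂ b := by
      intro x₁ x₂
      rw [nrm_split, eval_map_algebraMap, eval_map_algebraMap]
    by_cases hP : ∃ D, Quot.mk _ D = o ∧ SplitD b D.1
    · rw [if_pos hP]
      obtain ⟨D, hD, x₁, x₂, z, hD1, hz, hz0, hz2⟩ := hP
      have he : quad (x₁ + x₂, x₁ * x₂) ∣ F.map (algebraMap K Ω) := by
        rw [hform, ← hD1]
        exact D.2.2.2
      have h3 := (fibre_card F b (x₁ + x₂, x₁ * x₂) he z (by rw [hnorm, hz2])).2 ?_
      · have h4 : (Quot.mk _ ⟨quad (x₁ + x₂, x₁ * x₂), quad_monic _, quad_natDegree _, he⟩ :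
            Quot (QConj Ω F)) = o := by
          rw [← hD]
          congr 1
          exact Subtype.ext ((hform x₁ x₂).trans hD1.symm)
        rw [h4] at h3
        exact h3
      · rintro ⟨τ, h5, h6, h7⟩
        have h8 : τ z = z := fix_adjoin hz τ (by
          intro s hs
          rcases hs with rfl | hs
          · exact h5
          · rw [Set.mem_singleton_iff] at hs
            rw [hs]
            exact h6)
        rw [h8] at h7
        apply hz0
        have h9 : 2 * z = 0 := by linear_combination h7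
        exact (mul_eq_zero.1 h9).resolve_left h2
    · rw [if_neg hP, add_zero]
      induction o using Quot.ind with
      | mk D =>
        obtain ⟨x₁, x₂, hD⟩ := hzeros D
        have he : quad (x₁ + x₂, x₁ * x₂) ∣ F.map (algebraMap K Ω) := by
          rw [← hD]
          exact D.2.2.2
        obtain ⟨y, hy⟩ := IsAlgClosed.exists_pow_nat_eq (aeval x₁ b * aeval x₂ b) (n := 2) two_pos
        have h4 : (Quot.mk _ ⟨quad (x₁ + x₂, x₁ * x₂), quad_monic _, quad_natDegree _, he⟩ :
            Quot (QConj Ω F)) = Quot.mk _ D := by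
          congr 1
          exact Subtype.ext hD.symm
        rw [← h4]
        refine (fibre_card F b (x₁ + x₂, x₁ * x₂) he y (by rw [hnorm, hy])).1 ?_
        by_contra hcon
        apply hP
        refine ⟨D, rfl, x₁, x₂, y, by rw [hD, hform], ?_, ?_, hy⟩
        · refine mem_adjoin_of_fix fun τ hτ => ?_
          have h5 : τ (x₁ + x₂) = x₁ + x₂ := hτ _ (Set.mem_insert _ _)
          have h6 : τ (x₁ * x₂) = x₁ * x₂ := hτ _ (Set.mem_insert_of_mem _ rfl)
          have h7 : τ y ^ 2 = y ^ 2 := by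
            rw [← map_pow, hy, ← hnorm]
            have h8 := nrm_map (τ : Ω →+* Ω) (x₁ + x₂, x₁ * x₂) (b.map (algebraMap K Ω))
            have h9 : (b.map (algebraMap K Ω)).map (τ : Ω →+* Ω) = b.map (algebraMap K Ω) := by
              rw [Polynomial.map_map]
              congr 1
              exact RingHom.ext fun a => τ.commutes a
            rw [h9] at h8
            have h10 : ((τ : Ω →+* Ω) (x₁ + x₂, x₁ * x₂).1, (τ : Ω →+* Ω) (x₁ + x₂, x₁ * x₂).2) =
                (x₁ + x₂, x₁ * x₂) := Prod.ext h5 h6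
            rw [h10] at h8
            exact h8.symm
          rcases sq_eq_sq_iff_eq_or_eq_neg.1 h7 with h8 | h8
          · exact h8
          · exact absurd ⟨τ, h5, h6, h8⟩ hcon
        · rintro rfl
          exact hcon ⟨AlgEquiv.refl, rfl, rfl, by simp⟩
  rw [Nat.card_congr (Equiv.sigmaFiberEquiv (piQ F b)).symm, Nat.card_sigma,
    Finset.sum_congr rfl fun o _ => key o, Finset.sum_add_distrib, Finset.sum_const, smul_eq_mul,
    mul_one, Finset.card_univ, ← Nat.card_eq_fintype_card]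
  congr 1
  rw [Finset.sum_boole, Nat.card_eq_fintype_card, Fintype.card_subtype]
  rfl

end

end Pool.Agent.Helper94.KM
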