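import Pool.Agent.Helper94.KM.L3
import Pool.Agent.R410.NG.CBr

set_option autoImplicit false
set_option linter.all false
set_option maxHeartbeats 1000000

/-!
# The sum of the characters of the norms over all the quadratic polynomials
-/

namespace Pool.Agent.Helper94.KM

open Polynomial NumberField
open Pool.Agent.R410.LW (FG)
open Pool.Agent.R410.NG (Asy S2 S2_eq chi chi_sq chi_zero char_of asy_nsq phA phA_inj phA_frac phA_apply
  trdeg_line fg_line asy_hom)
open Pool.Agent.R410.BS (hom_le)

section
variable {A : Type} [CommRing A]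

/-- the universal quadratic polynomial over `A[t][u]` -/
noncomputable def ut (A : Type) [CommRing A] : A[X][X][X] := X ^ 2 - C (C X) * X + C X

theorem ut_monic [Nontrivial A] : (ut A).Monic := by
  unfold ut
  monicity!

/-- the remainder -/
noncomputable def rt (b : A[X]) : A[X][X][X] := b.map ((C : A[X] →+* A[X][X]).comp C) %ₘ ut A

/-- the norm -/
noncomputable def Nt (b : A[X]) : A[X][X] :=
  (rt b).coeff 0 ^ 2 + (rt b).coeff 0 * (rt b).coeff 1 * C X + (rt b).coeff 1 ^ 2 * X

theorem Nt_map [Nontrivial A] {F : Type} [Field F] (Φ : A[X][X] →+* F) (b : A[X]) :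
    Φ (Nt b) = nrm (Φ (C X), Φ X) (b.map (Φ.comp (C.comp C))) := by
  have h1 : (rt b).map Φ = b.map (Φ.comp (C.comp C)) %ₘ quad (Φ (C X), Φ X) := by
    unfold rt
    rw [Polynomial.map_modByMonic _ ut_monic, Polynomial.map_map]
    congr 1
    unfold ut quad
    simp
  have hr : ∀ j, Φ ((rt b).coeff j) = (b.map (Φ.comp (C.comp C)) %ₘ quad (Φ (C X), Φ X)).coeff j := by
    intro j
    rw [← coeff_map, h1]
  unfold Nt
  simp only [map_add, map_mul, map_pow, hr]
  rfl

theorem S2_Nt [IsDomain A] {F : Type} [Field F] [Fintype F] [Fintype (A →+* F)] (b : A[X]) :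
    S2 (Nt b) F = ∑ ψ : A →+* F, ∑ e : F × F, chi F (nrm e (b.map ψ)) := by
  have hfX : Finite (A[X] →+* F) := Finite.of_equiv _
    (Pool.Agent.R410.NG.polyEquiv (A := A) (F := F)).symm
  let _ := Fintype.ofFinite (A[X] →+* F)
  rw [S2_eq]
  have e1 : ∀ (φ : A[X] →+* F) (u : F), chi F (eval₂ φ u (Nt b)) =
      chi F (nrm (φ X, u) (b.map (φ.comp C))) := by
    intro φ u
    have h1 := Nt_map (eval₂RingHom φ u) b
    have h2 : (eval₂RingHom φ u).comp (C.comp C) = φ.comp C := by
      refine RingHom.ext fun a => ?_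
      show eval₂ φ u (C (C a)) = _
      rw [eval₂_C]
      rfl
    rw [h2] at h1
    have h3 : (eval₂RingHom φ u (C X), eval₂RingHom φ u X) = (φ X, u) := by
      refine Prod.ext ?_ ?_
      · show eval₂ φ u (C X) = _
        rw [eval₂_C]
      · show eval₂ φ u X = _
        rw [eval₂_X]
    rw [h3] at h1
    rw [← h1]
    rfl
  rw [Finset.sum_congr rfl fun φ _ => Finset.sum_congr rfl fun u _ => e1 φ u]
  refine (Fintype.sum_equiv (Pool.Agent.R410.NG.polyEquiv (A := A) (F := F)) _ (fun z =>
    ∑ u : F, chi F (nrm (z.2, u) (b.map z.1))) fun φ => rfl).trans ?_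
  rw [Fintype.sum_prod_type]
  refine Finset.sum_congr rfl fun ψ _ => ?_
  rw [Fintype.sum_prod_type]

end

section
variable {F : Type} [Field F]

theorem exists_zeros {L : Type} [Field L] [IsAlgClosed L] (e : L × L) :
    ∃ x₁ x₂ : L, e = (x₁ + x₂, x₁ * x₂) := by
  obtain ⟨x, hx⟩ := IsAlgClosed.exists_root (quad e) (by
    rw [degree_eq_natDegree (quad_monic _).ne_zero, quad_natDegree]
    norm_num)
  have hx0 : x ^ 2 - e.1 * x + e.2 = 0 := by
    unfold quad at hx
    simpa [IsRoot] using hx
  refine ⟨x, e.1 - x, Prod.ext ?_ ?_⟩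
  · show e.1 = x + (e.1 - x)
    ring
  · show e.2 = x * (e.1 - x)
    linear_combination hx0

theorem nrm_sq (e : F × F) (s : F[X]) : nrm e (s ^ 2) = nrm e s ^ 2 := by
  set L := AlgebraicClosure F
  obtain ⟨x₁, x₂, h⟩ := exists_zeros (L := L) (algebraMap F L e.1, algebraMap F L e.2)
  apply (algebraMap F L).injective
  rw [map_pow, ← nrm_map, ← nrm_map, h, nrm_split, nrm_split, Polynomial.map_pow, eval_pow, eval_pow]
  ring

open Classical in
/-- the quadratic polynomials which are not prime to `s` -/
theorem nrm_zero_le [Fintype F] {s : F[X]} (hs : s ≠ 0) :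
    ∑ e : F × F, (if nrm e s = 0 then (1 : ℝ) else 0) ≤ s.natDegree * Fintype.card F := by
  set L := AlgebraicClosure F
  have hs' : s.map (algebraMap F L) ≠ 0 := (Polynomial.map_ne_zero_iff (algebraMap F L).injective).2 hs
  rw [Fintype.sum_prod_type]
  have key : ∀ t : F, ∑ u : F, (if nrm (t, u) s = 0 then (1 : ℝ) else 0) ≤ s.natDegree := by
    intro t
    rw [Finset.sum_boole]
    have h1 : ((Finset.univ.filter fun u : F => nrm (t, u) s = 0).image (algebraMap F L)) ⊆
        ((s.map (algebraMap F L)).roots.toFinset.image fun r => algebraMap F L t * r - r ^ 2) := by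
      intro z hz
      obtain ⟨u, hu, rfl⟩ := Finset.mem_image.1 hz
      rw [Finset.mem_filter] at hu
      obtain ⟨x₁, x₂, h⟩ := exists_zeros (L := L) (algebraMap F L t, algebraMap F L u)
      have h2 := nrm_map (algebraMap F L) (t, u) s
      rw [hu.2, map_zero] at h2
      have h3 : nrm (algebraMap F L t, algebraMap F L u) (s.map (algebraMap F L)) = 0 := h2
      rw [h, nrm_split] at h3
      have h4 : algebraMap F L t = x₁ + x₂ := congrArg Prod.fst h
      have h5 : algebraMap F L u = x₁ * x₂ := congrArg Prod.snd h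
      rcases mul_eq_zero.1 h3 with h6 | h6
      · refine Finset.mem_image.2 ⟨x₁, ?_, ?_⟩
        · rw [Multiset.mem_toFinset, mem_roots hs']
          exact h6
        · rw [h4, h5]
          ring
      · refine Finset.mem_image.2 ⟨x₂, ?_, ?_⟩
        · rw [Multiset.mem_toFinset, mem_roots hs']
          exact h6
        · rw [h4, h5]
          ring
    have h2 := Finset.card_le_card h1
    rw [Finset.card_image_of_injective _ (algebraMap F L).injective] at h2
    have h3 := (Finset.card_image_le (s := (s.map (algebraMap F L)).roots.toFinset)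
      (f := fun r => algebraMap F L t * r - r ^ 2)).trans ((Multiset.toFinset_card_le _).trans
        (card_roots' _))
    rw [natDegree_map] at h3
    exact_mod_cast h2.trans h3
  refine (Finset.sum_le_sum fun t _ => key t).trans ?_
  rw [Finset.sum_const, nsmul_eq_mul, Finset.card_univ, mul_comm]

end

section
variable {M K : Type} [Field M] [CharZero M] [Field K] [CharZero K] [Algebra M K] {ω : K}

/-- an element of the field of the line with a polynomial square -/
theorem sq_line (hω : Transcendental M ω) (htop : IntermediateField.adjoin M {ω} = ⊤) {b : M[X]}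
    (h : IsSquare (aeval ω b)) : IsSquare b := by
  let _ : Algebra M[X] K := (phA (M := M) M ω).toAlgebra
  have hfr : IsFractionRing M[X] K := phA_frac M hω htop
  have hmap : ∀ p : M[X], algebraMap M[X] K p = aeval ω p := by
    intro p
    show phA (M := M) M ω p = _
    rw [phA_apply]
    congr 1
    exact Polynomial.map_id
  obtain ⟨κ, hκ⟩ := h
  have h1 : IsIntegral M[X] (κ ^ 2) := by
    rw [sq, ← hκ, ← hmap]
    exact isIntegral_algebraMap
  obtain ⟨s, hs⟩ := IsIntegrallyClosed.exists_algebraMap_eq_of_isIntegral_pow two_pos h1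
  refine ⟨s, IsFractionRing.injective M[X] K ?_⟩
  rw [map_mul, hs, ← hκ, hmap]

/-- the norm is a square only if the polynomial is a square -/
theorem nt_square {A : Type} [CommRing A] [IsDomain A] [Algebra A M] [IsFractionRing A M]
    (hω : Transcendental M ω) (htop : IntermediateField.adjoin M {ω} = ⊤) {b : M[X]} (hb : b.Monic)
    {bA : A[X]} (hbA : bA.map (algebraMap A M) = b) (h : IsSquare ((Nt bA).map (phA (M := M) A ω))) :
    IsSquare b := by
  -- the translation of the line
  let _ : Algebra M[X] K := (phA (M := M) M ω).toAlgebra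
  have hfr : IsFractionRing M[X] K := phA_frac M hω htop
  have hmap : ∀ p : M[X], algebraMap M[X] K p = aeval ω p := by
    intro p
    show phA (M := M) M ω p = _
    rw [phA_apply]
    congr 1
    exact Polynomial.map_id
  let g : M[X] →+* RatFunc K := (algebraMap K[X] (RatFunc K)).comp
    ((taylorAlgHom ω : K[X] →ₐ[K] K[X]).toRingHom.comp (mapRingHom (algebraMap M K)))
  have hg : Function.Injective g := by
    refine (RatFunc.algebraMap_injective K).comp ((taylor_injective ω).comp ?_)
    exact Polynomial.map_injective _ (algebraMap M K).injective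
  let σ : K →+* RatFunc K := IsFractionRing.lift hg
  have hσ : ∀ p : M[X], σ (aeval ω p) = g p := by
    intro p
    rw [← hmap]
    exact IsFractionRing.lift_algebraMap hg p
  have hσM : ∀ a : M, σ (algebraMap M K a) = algebraMap K[X] (RatFunc K) (C (algebraMap M K a)) := by
    intro a
    have h1 := hσ (C a)
    rw [aeval_C] at h1
    rw [h1]
    show algebraMap K[X] (RatFunc K) (taylor ω ((C a : M[X]).map (algebraMap M K))) = _
    rw [Polynomial.map_C, taylor_C]
  have hσω : σ ω = algebraMap K[X] (RatFunc K) (X + C ω) := by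
    have h1 := hσ X
    rw [aeval_X] at h1
    rw [h1]
    show algebraMap K[X] (RatFunc K) (taylor ω ((X : M[X]).map (algebraMap M K))) = _
    rw [Polynomial.map_X, taylor_X]
  let θ : K[X] →+* RatFunc K := eval₂RingHom σ (algebraMap K[X] (RatFunc K) (X * C ω))
  have h1 : IsSquare (θ ((Nt bA).map (phA (M := M) A ω))) := h.map θ
  have h2 : θ ((Nt bA).map (phA (M := M) A ω)) =
      algebraMap K[X] (RatFunc K) (b.map (algebraMap M K) * C (aeval ω b)) := by
    have h3 := Nt_map (θ.comp (mapRingHom (phA (M := M) A ω))) bA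
    have h4 : (θ.comp (mapRingHom (phA (M := M) A ω))) (C X) =
        algebraMap K[X] (RatFunc K) X + algebraMap K[X] (RatFunc K) (C ω) := by
      show θ ((C X : A[X][X]).map (phA (M := M) A ω)) = _
      rw [Polynomial.map_C]
      show eval₂ σ _ (C (phA (M := M) A ω X)) = _
      rw [eval₂_C, phA_apply, Polynomial.map_X, aeval_X, hσω, map_add]
    have h5 : (θ.comp (mapRingHom (phA (M := M) A ω))) X =
        algebraMap K[X] (RatFunc K) X * algebraMap K[X] (RatFunc K) (C ω) := by
      show θ ((X : A[X][X]).map (phA (M := M) A ω)) = _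
      rw [Polynomial.map_X]
      show eval₂ σ _ X = _
      rw [eval₂_X, map_mul]
    have h6 : bA.map ((θ.comp (mapRingHom (phA (M := M) A ω))).comp (C.comp C)) =
        b.map ((algebraMap K[X] (RatFunc K)).comp (C.comp (algebraMap M K))) := by
      rw [← hbA, Polynomial.map_map]
      congr 1
      refine RingHom.ext fun a => ?_
      show θ ((C (C a) : A[X][X]).map (phA (M := M) A ω)) = _
      rw [Polynomial.map_C]
      show eval₂ σ _ (C (phA (M := M) A ω (C a))) = _
      rw [eval₂_C, phA_apply, Polynomial.map_C, aeval_C, hσM]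
      rfl
    rw [h4, h5, h6, nrm_split] at h3
    have h7 : θ ((Nt bA).map (phA (M := M) A ω)) =
        (θ.comp (mapRingHom (phA (M := M) A ω))) (Nt bA) := rfl
    rw [h7, h3, map_mul]
    have h8 : ∀ z : K[X], (b.map ((algebraMap K[X] (RatFunc K)).comp (C.comp (algebraMap M K)))).eval
        (algebraMap K[X] (RatFunc K) z) = algebraMap K[X] (RatFunc K) (aeval z b) := by
      intro z
      rw [eval_map, aeval_def, hom_eval₂]
      rfl
    have h9 : aeval (X : K[X]) b = b.map (algebraMap M K) := by
      rw [aeval_def, IsScalarTower.algebraMap_eq M K K[X], ← eval₂_map]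
      exact eval₂_C_X
    have h10 : aeval (C ω : K[X]) b = C (aeval ω b) := aeval_algebraMap_apply K[X] ω b
    rw [h8, h8, h9, h10]
  rw [h2] at h1
  obtain ⟨r, hr⟩ := h1
  have h3 : IsIntegral K[X] (r ^ 2) := by
    rw [sq, ← hr]
    exact isIntegral_algebraMap
  obtain ⟨s, hs⟩ := IsIntegrallyClosed.exists_algebraMap_eq_of_isIntegral_pow two_pos h3
  have h4 : b.map (algebraMap M K) * C (aeval ω b) = s * s := by
    apply RatFunc.algebraMap_injective K
    rw [hr, ← hs, map_mul]
  have h5 := congrArg leadingCoeff h4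
  rw [leadingCoeff_mul, leadingCoeff_mul, (hb.map _).leadingCoeff, one_mul, leadingCoeff_C] at h5
  exact sq_line hω htop ⟨_, h5⟩

/-- **The sum of the characters of the norms.** -/
theorem asy_Nt (hM : FG M) {d : ℕ} (hd : Algebra.trdeg ℚ M = d) (hω : Transcendental M ω)
    (htop : IntermediateField.adjoin M {ω} = ⊤) {b : M[X]} (hb : b.Monic)
    {A : Type} [CommRing A] [IsDomain A] [Algebra.FiniteType ℤ A] [Algebra A M] [IsFractionRing A M]
    {bA : A[X]} (hbA : bA.map (algebraMap A M) = b)
    (hsq : IsSquare b → ∃ s : A[X], s.Monic ∧ bA = s ^ 2) :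
    Asy (fun F _ _ => (Nat.card F : ℝ)⁻¹ * S2 (Nt bA) F) (d + 1)
      (open Classical in if IsSquare b then (1 : ℝ) else 0) := by
  classical
  have htr : Algebra.trdeg ℚ K = (d + 1 : ℕ) := trdeg_line hd hω htop
  have hKF : FG K := fg_line hM htop
  apply Asy.divq
  have hred : ∀ (F : Type) [Field F] [Finite F],
      (Nat.card F : ℝ) * ((Nat.card F : ℝ)⁻¹ * S2 (Nt bA) F) = S2 (Nt bA) F := by
    intro F _ _
    have hq0 : (Nat.card F : ℝ) ≠ 0 := by exact_mod_cast (Nat.card_pos (α := F)).ne'
    exact mul_inv_cancel_left₀ hq0 _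
  by_cases h : IsSquare b
  · rw [if_pos h]
    obtain ⟨s, hs, hbs⟩ := hsq h
    have h1 := (asy_hom hM hd A).mulq.mulq
    obtain ⟨C3, hC3, g3⟩ := hom_le (R := A) (K := M) (IsFractionRing.injective A M) hd.le
    refine h1.near ⟨s.natDegree * C3, 2, by positivity, two_ne_zero, ?_⟩
    intro F _ _ hF
    have hF2 := char_of hF
    let _ := Fintype.ofFinite F
    let _ := Fintype.ofFinite (A →+* F)
    rw [hred, S2_Nt]
    have e1 : ∀ ψ : A →+* F, |∑ e : F × F, chi F (nrm e (bA.map ψ)) - (Nat.card F : ℝ) ^ 2| ≤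
        s.natDegree * (Nat.card F : ℝ) := by
      intro ψ
      have e2 : ∀ e : F × F, chi F (nrm e (bA.map ψ)) =
          1 - (if nrm e (s.map ψ) = 0 then (1 : ℝ) else 0) := by
        intro e
        rw [hbs, Polynomial.map_pow, nrm_sq]
        by_cases h : nrm e (s.map ψ) = 0
        · rw [h, if_pos rfl, zero_pow two_ne_zero, chi_zero]
          ring
        · rw [if_neg h, chi_sq hF2 h]
          ring
      have h4 := nrm_zero_le (hs.map ψ).ne_zero
      rw [(hs.natDegree_map ψ)] at h4
      have h5 : 0 ≤ ∑ e : F × F, (if nrm e (s.map ψ) = 0 then (1 : ℝ) else 0) :=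
        Finset.sum_nonneg fun e _ => by split_ifs <;> norm_num
      rw [Finset.sum_congr rfl fun e _ => e2 e, Finset.sum_sub_distrib, Finset.sum_const,
        Finset.card_univ, nsmul_eq_mul, mul_one, Fintype.card_prod, Nat.card_eq_fintype_card]
      push_cast
      rw [abs_le]
      constructor <;> nlinarith
    have e2 : ∑ ψ : A →+* F, ∑ e : F × F, chi F (nrm e (bA.map ψ)) -
        (Nat.card F : ℝ) * ((Nat.card F : ℝ) * Nat.card (A →+* F)) =
        ∑ ψ : A →+* F, (∑ e : F × F, chi F (nrm e (bA.map ψ)) - (Nat.card F : ℝ) ^ 2) := by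
      rw [Finset.sum_sub_distrib, Finset.sum_const, Finset.card_univ, nsmul_eq_mul,
        Nat.card_eq_fintype_card (α := A →+* F)]
      ring
    rw [e2]
    have h6 := g3 F
    have hq1 : (1 : ℝ) ≤ (Nat.card F : ℝ) := by exact_mod_cast Nat.card_pos
    have hs1 : √(Nat.card F : ℝ) ≤ (Nat.card F : ℝ) := by
      have h5 : 1 ≤ √(Nat.card F : ℝ) := Real.one_le_sqrt.2 hq1
      have hss : √(Nat.card F : ℝ) * √(Nat.card F : ℝ) = (Nat.card F : ℝ) :=
        Real.mul_self_sqrt (by linarith)
      nlinarith
    calc |∑ ψ : A →+* F, (∑ e : F × F, chi F (nrm e (bA.map ψ)) - (Nat.card F : ℝ) ^ 2)| *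
          √(Nat.card F : ℝ) ≤
        (∑ ψ : A →+* F, |∑ e : F × F, chi F (nrm e (bA.map ψ)) - (Nat.card F : ℝ) ^ 2|) *
          √(Nat.card F : ℝ) :=
          mul_le_mul_of_nonneg_right (Finset.abs_sum_le_sum_abs _ _) (Real.sqrt_nonneg _)
      _ ≤ (∑ ψ : A →+* F, (s.natDegree * (Nat.card F : ℝ))) * (Nat.card F : ℝ) :=
          mul_le_mul (Finset.sum_le_sum fun ψ _ => e1 ψ) hs1 (Real.sqrt_nonneg _) (by positivity)
      _ = s.natDegree * (Nat.card (A →+* F) : ℝ) * (Nat.card F : ℝ) * (Nat.card F : ℝ) := by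
          rw [Finset.sum_const, Finset.card_univ, nsmul_eq_mul,
            Nat.card_eq_fintype_card (α := A →+* F)]
          ring
      _ ≤ s.natDegree * (C3 * (Nat.card F : ℝ) ^ d) * (Nat.card F : ℝ) * (Nat.card F : ℝ) := by
          refine mul_le_mul_of_nonneg_right (mul_le_mul_of_nonneg_right ?_ (by linarith)) (by linarith)
          exact mul_le_mul_of_nonneg_left h6 (Nat.cast_nonneg _)
      _ = s.natDegree * C3 * (Nat.card F : ℝ) ^ (d + 1 + 1) := by ring
  · rw [if_neg h]
    let φ : A[X] →+* K := phA (M := M) A ω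
    let _ : Algebra A[X] K := φ.toAlgebra
    have _ : IsFractionRing A[X] K := phA_frac A hω htop
    have hft' : Algebra.FiniteType ℤ A[X] := inferInstance
    have hft'' := Pool.Agent.R410.LW.ft_int _ hft'
    refine (asy_nsq A[X] hKF htr (a := (Nt bA).map φ) (fun h5 => h (nt_square hω htop hb hbA h5))
      (Nt bA) rfl).congr 1 one_ne_zero fun F _ _ _ => hred F

end

end Pool.Agent.Helper94.KM
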