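import Pool.Agent.Helper94.KM.L4
import Pool.Agent.Helper94.KM.L5
import Pool.Agent.Helper94.KM.J6

set_option autoImplicit false
set_option linter.all false
set_option maxHeartbeats 1000000

/-!
# The residue for the Jacobians of the curves of a pencil
-/

namespace Pool.Agent.Helper94.KM

open Polynomial NumberField IsDedekindDomain
open Pool.Agent.R410.LW (FG)
open Pool.Agent.R410.NG (Asy Wt IsWt sT sR sT_eq sR_eq avg all_models residue_shift exists_ringP
  phA phA_frac phA_apply trdeg_line fg_line asy_any asy_hom chi S2)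
open Pool.Agent.R410.BS (hom_le)
open Pool.Agent.Y707.PR (HasResidue)

theorem deg_C_mul_le {R : Type} [CommRing R] (a : R) (p : R[X]) : (C a * p).degree ≤ p.degree :=
  calc (C a * p).degree ≤ (C a).degree + p.degree := degree_mul_le _ _
    _ ≤ 0 + p.degree := by
      gcongr
      exact degree_C_le
    _ = _ := zero_add _

section
variable {F : Type} [Field F]

theorem wronski_ne {b c : F[X]} {n m : ℕ} (hc : c.Monic) (hcd : c.natDegree = n) (hb : b.Monic)
    (hbd : b.natDegree = m) (hmn : m < n) (h : ((n - m : ℕ) : F) ≠ 0) :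
    derivative c * b - c * derivative b ≠ 0 := by
  intro h0
  apply h
  have h1 : (derivative c * b - c * derivative b).coeff (n - 1 + m) = 0 := by rw [h0, coeff_zero]
  have hc1 : c.coeff n = 1 := by rw [← hcd]; exact hc
  have hb1 : b.coeff m = 1 := by rw [← hbd]; exact hb
  have hdc : (derivative c).natDegree ≤ n - 1 := by
    rw [← hcd]
    exact natDegree_derivative_le c
  have e1 : (derivative c * b).coeff (n - 1 + m) = n := by
    rw [coeff_mul_add_eq_of_natDegree_le hdc hbd.le, hb1, mul_one, coeff_derivative,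
      Nat.sub_add_cancel (by omega : 1 ≤ n), hc1, one_mul]
    have h3 : ((n - 1 : ℕ) : F) + 1 = ((n - 1 + 1 : ℕ) : F) := by push_cast; rfl
    rw [h3, Nat.sub_add_cancel (by omega : 1 ≤ n)]
  have e2 : (c * derivative b).coeff (n - 1 + m) = m := by
    rcases Nat.eq_zero_or_pos m with hm | hm
    · have hb2 : b = 1 := by
        apply hb.natDegree_eq_zero.1
        rw [hbd, hm]
      rw [hb2, derivative_one, mul_zero, coeff_zero, hm, Nat.cast_zero]
    · have hdb : (derivative b).natDegree ≤ m - 1 := by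
        rw [← hbd]
        exact natDegree_derivative_le b
      rw [show n - 1 + m = n + (m - 1) by omega, coeff_mul_add_eq_of_natDegree_le hcd.le hdb, hc1, one_mul,
        coeff_derivative, Nat.sub_add_cancel (by omega : 1 ≤ m), hb1, one_mul]
      have h3 : ((m - 1 : ℕ) : F) + 1 = ((m - 1 + 1 : ℕ) : F) := by push_cast; rfl
      rw [h3, Nat.sub_add_cancel (by omega : 1 ≤ m)]
  rw [coeff_sub, e1, e2] at h1
  rw [Nat.cast_sub hmn.le]
  exact h1

theorem wronski_deg {b c : F[X]} {n : ℕ} (hcd : c.natDegree = n) (hbd : b.natDegree ≤ n) :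
    ((derivative c * b - c * derivative b) * b).natDegree ≤ 3 * n := by
  have h1 : (derivative c * b - c * derivative b).natDegree ≤ 2 * n := by
    refine (natDegree_sub_le _ _).trans (max_le ?_ ?_)
    · refine natDegree_mul_le.trans ?_
      have := natDegree_derivative_le c
      omega
    · refine natDegree_mul_le.trans ?_
      have := natDegree_derivative_le b
      omega
  refine natDegree_mul_le.trans ?_
  omega

end

section
variable {A : Type} [CommRing A] {F : Type} [Field F]

theorem sT_poly {J : Type} [Fintype F] [Fintype (A →+* F)] [Finite (A[X] →+* F)] (w : Wt J)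
    (g : J → A[X][X]) :
    sT w g 1 F = ∑ ψ : A →+* F, ∑ v : F, w F (fun j => (g j).map (eval₂RingHom ψ v)) := by
  classical
  let _ := Fintype.ofFinite (A[X] →+* F)
  rw [sT_eq]
  have e1 : ∀ φ : A[X] →+* F, (if φ 1 ≠ 0 then w F (fun j => (g j).map φ) else 0) =
      w F (fun j => (g j).map φ) := by
    intro φ
    rw [if_pos (by rw [map_one]; exact one_ne_zero)]
  rw [Finset.sum_congr rfl fun φ _ => e1 φ]
  refine (Fintype.sum_equiv (Pool.Agent.R410.NG.polyEquiv (A := A) (F := F)).symm (fun z =>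
    w F (fun j => (g j).map (eval₂RingHom z.1 z.2))) _ fun z => rfl).symm.trans ?_
  rw [Fintype.sum_prod_type]

theorem map_C_eval (ψ : A →+* F) (v : F) (c : A[X]) :
    (c.map (C : A →+* A[X])).map (eval₂RingHom ψ v) = c.map ψ := by
  rw [Polynomial.map_map]
  congr 1
  refine RingHom.ext fun a => ?_
  show eval₂ ψ v (C a) = _
  rw [eval₂_C]

theorem map_pencil (ψ : A →+* F) (v : F) (b c : A[X]) :
    (c.map (C : A →+* A[X]) + C X * b.map (C : A →+* A[X])).map (eval₂RingHom ψ v) =
      c.map ψ + C v * b.map ψ := by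
  rw [Polynomial.map_add, Polynomial.map_mul, map_C_eval, map_C_eval, Polynomial.map_C]
  congr 3
  show eval₂ ψ v X = v
  rw [eval₂_X]

end

section
variable {M K : Type} [Field M] [CharZero M] [Field K] [CharZero K] [Algebra M K] {ω : K}
  {k : Type} [Field k] [NumberField k] {Ω : Type} [Field Ω] [Algebra K Ω] [IsAlgClosed Ω]
  [Algebra.IsAlgebraic K Ω]

open Classical in
/-- the average of the traces on the second exterior power -/
theorem asy_wJ_pencil (hM : FG M) {d : ℕ} (hd : Algebra.trdeg ℚ M = d) (hω : Transcendental M ω)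
    (htop : IntermediateField.adjoin M {ω} = ⊤) {b c : M[X]} (hc : c.Monic)
    (hodd : Odd c.natDegree) (hb : b.Monic) (hbc : b.natDegree < c.natDegree)
    {R : Type} [CommRing R] [IsDomain R] [Algebra.FiniteType ℤ R] [Algebra R K] [IsFractionRing R K]
    {G : R[X]} (hG : G.Monic) (hGm : G.map (algebraMap R K) =
      c.map (algebraMap M K) + C ω * b.map (algebraMap M K))
    {N : R} (hN : N ≠ 0) : Asy (fun F _ _ => sT wJ (fun _ => G) N F) (d + 1)
      (1 + ((Nat.card (Quot (ZConj Ω (c.map (algebraMap M K) + C ω * b.map (algebraMap M K))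
        (b.map (algebraMap M K)))) : ℝ) -
        Nat.card (Quot (QConj Ω (c.map (algebraMap M K) + C ω * b.map (algebraMap M K))))) -
        if IsSquare b then (1 : ℝ) else 0) := by
  have hn0 : 0 < c.natDegree := hodd.pos
  -- the square root
  obtain ⟨s, hs⟩ : ∃ s : M[X], IsSquare b → s.Monic ∧ b = s ^ 2 := by
    by_cases h : IsSquare b
    · obtain ⟨s, hs⟩ := h
      have h1 : s.leadingCoeff * s.leadingCoeff = 1 := by
        rw [← leadingCoeff_mul, ← hs]
        exact hb
      refine ⟨C s.leadingCoeff * s, fun _ => ⟨?_, ?_⟩⟩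
      · rw [Monic, leadingCoeff_mul, leadingCoeff_C, h1]
      · rw [mul_pow, ← C_pow, sq s.leadingCoeff, h1, C_1, one_mul, sq, hs]
    · exact ⟨1, fun h' => absurd h' h⟩
  obtain ⟨A, hft, hfr, -, hP⟩ := exists_ringP (k := ℚ) hM ![c, b, s]
  obtain ⟨cA, hcA⟩ : ∃ q : A[X], q.map (algebraMap A M) = c := hP 0
  obtain ⟨bA, hbA⟩ : ∃ q : A[X], q.map (algebraMap A M) = b := hP 1
  obtain ⟨sA, hsA⟩ : ∃ q : A[X], q.map (algebraMap A M) = s := hP 2
  have hAinj : Function.Injective (algebraMap A M) := IsFractionRing.injective A M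
  have hcAm : cA.Monic := monic_of_injective hAinj (by rw [hcA]; exact hc)
  have hbAm : bA.Monic := monic_of_injective hAinj (by rw [hbA]; exact hb)
  have hcAd : cA.natDegree = c.natDegree := by rw [← hcA, hcAm.natDegree_map]
  have hbAd : bA.natDegree = b.natDegree := by rw [← hbA, hbAm.natDegree_map]
  have hsq : IsSquare b → ∃ s : A[X], s.Monic ∧ bA = s ^ 2 := by
    intro h
    obtain ⟨h1, h2⟩ := hs h
    refine ⟨sA, monic_of_injective hAinj (by rw [hsA]; exact h1), ?_⟩
    apply Polynomial.map_injective _ hAinj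
    rw [Polynomial.map_pow, hsA, hbA, h2]
  let φ : A[X] →+* K := phA (M := M) A ω
  let _ : Algebra A[X] K := φ.toAlgebra
  have _ : IsFractionRing A[X] K := phA_frac A hω htop
  have htr : Algebra.trdeg ℚ K = (d + 1 : ℕ) := trdeg_line hd hω htop
  have hKF : FG K := fg_line hM htop
  have hft' : Algebra.FiniteType ℤ A[X] := inferInstance
  have hft'' := Pool.Agent.R410.LW.ft_int _ hft'
  -- the model over the line
  let GB : A[X][X] := cA.map (C : A →+* A[X]) + C X * bA.map (C : A →+* A[X])
  have hbdeg : (C X * bA.map (C : A →+* A[X]) : A[X][X]).degree <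
      (cA.map (C : A →+* A[X])).degree := by
    rw [hcAm.degree_map, degree_eq_natDegree hcAm.ne_zero, hcAd]
    refine lt_of_le_of_lt (deg_C_mul_le _ _) ?_
    rw [hbAm.degree_map, degree_eq_natDegree hbAm.ne_zero, hbAd]
    exact_mod_cast hbc
  have hGBm : GB.Monic := (hcAm.map _).add_of_left hbdeg
  have hφC : φ.comp C = (algebraMap M K).comp (algebraMap A M) := by
    refine RingHom.ext fun a => ?_
    show phA (M := M) A ω (C a) = _
    rw [phA_apply, Polynomial.map_C, aeval_C]
    rfl
  have hφX : φ X = ω := by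
    show phA (M := M) A ω X = _
    rw [phA_apply, Polynomial.map_X, aeval_X]
  have hBK : (bA.map (C : A →+* A[X])).map (algebraMap A[X] K) = b.map (algebraMap M K) := by
    show (bA.map (C : A →+* A[X])).map φ = _
    rw [Polynomial.map_map, hφC, ← Polynomial.map_map, hbA]
  have hCK : (cA.map (C : A →+* A[X])).map (algebraMap A[X] K) = c.map (algebraMap M K) := by
    show (cA.map (C : A →+* A[X])).map φ = _
    rw [Polynomial.map_map, hφC, ← Polynomial.map_map, hcA]
  have hGBK : GB.map (algebraMap A[X] K) =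
      c.map (algebraMap M K) + C ω * b.map (algebraMap M K) := by
    show (cA.map (C : A →+* A[X]) + C X * bA.map (C : A →+* A[X])).map (algebraMap A[X] K) = _
    rw [Polynomial.map_add, Polynomial.map_mul, hBK, hCK, Polynomial.map_C]
    congr 3
  have hbKdeg : (C ω * b.map (algebraMap M K)).degree < (c.map (algebraMap M K)).degree := by
    rw [hc.degree_map, degree_eq_natDegree hc.ne_zero]
    refine lt_of_le_of_lt (deg_C_mul_le _ _) ?_
    rw [hb.degree_map, degree_eq_natDegree hb.ne_zero]
    exact_mod_cast hbc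
  have hFd : (c.map (algebraMap M K) + C ω * b.map (algebraMap M K)).natDegree = c.natDegree := by
    rw [natDegree_add_eq_left_of_degree_lt hbKdeg, hc.natDegree_map]
  have hGBd : GB.natDegree = c.natDegree := by
    rw [← hGBm.natDegree_map (algebraMap A[X] K), hGBK, hFd]
  have hGd : G.natDegree = c.natDegree := by
    rw [← hG.natDegree_map (algebraMap R K), hGm, hFd]
  -- the main terms
  have t0 := asy_wQ (Ω := Ω) hKF htr hGBm (N := (1 : A[X])) one_ne_zero
  rw [hGBK] at t0
  have tZ := asy_wZ (Ω := Ω) hKF htr (g := ![GB, bA.map (C : A →+* A[X])]) (by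
    intro j
    fin_cases j
    · exact hGBm
    · exact hbAm.map _) (N := (1 : A[X])) one_ne_zero
  rw [show (![GB, bA.map (C : A →+* A[X])] : Fin 2 → A[X][X]) 0 = GB from rfl,
    show (![GB, bA.map (C : A →+* A[X])] : Fin 2 → A[X][X]) 1 = bA.map (C : A →+* A[X]) from rfl,
    hGBK, hBK] at tZ
  have tN := asy_Nt (A := A) hM hd hω htop hb hbA hsq
  have tH := (asy_hom hM hd A).mulq
  have tt := (tH.add (tZ.add t0.neg)).add tN.neg
  obtain ⟨C1, hC1, hle⟩ := hom_le (R := A) (K := M) hAinj (e := d) hd.le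
  have t1 : Asy (fun F _ _ => sT wJ (fun _ => GB) 1 F) (d + 1)
      (1 + ((Nat.card (Quot (ZConj Ω (c.map (algebraMap M K) + C ω * b.map (algebraMap M K))
        (b.map (algebraMap M K)))) : ℝ) +
        -(Nat.card (Quot (QConj Ω (c.map (algebraMap M K) + C ω * b.map (algebraMap M K)))) : ℝ)) +
        -if IsSquare b then (1 : ℝ) else 0) := by
    refine tt.near ⟨(3 * c.natDegree + (2 * c.natDegree) ^ 2) * C1,
      2 * (c.natDegree - b.natDegree), by positivity,
      mul_ne_zero two_ne_zero (by omega), fun F _ _ hF => ?_⟩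
    let _ : Fintype F := Fintype.ofFinite F
    let _ : Fintype (A →+* F) := Fintype.ofFinite _
    rw [Nat.cast_mul] at hF
    have hchar : ringChar F ≠ 2 := Pool.Agent.R410.NG.char_of (left_ne_zero_of_mul hF)
    have hnF : ((c.natDegree - b.natDegree : ℕ) : F) ≠ 0 := right_ne_zero_of_mul hF
    have p1 : sT wJ (fun _ => GB) 1 F =
        ∑ ψ : A →+* F, ∑ v : F, wJ F (fun _ => cA.map ψ + C v * bA.map ψ) := by
      rw [sT_poly]
      refine Finset.sum_congr rfl fun ψ _ => Finset.sum_congr rfl fun v _ => ?_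
      congr 1
      funext j
      exact map_pencil ψ v bA cA
    have p2 : sT wQ (fun _ => GB) 1 F =
        ∑ ψ : A →+* F, ∑ v : F, wQ F (fun _ => cA.map ψ + C v * bA.map ψ) := by
      rw [sT_poly]
      refine Finset.sum_congr rfl fun ψ _ => Finset.sum_congr rfl fun v _ => ?_
      congr 1
      funext j
      exact map_pencil ψ v bA cA
    have p3 : sT wZ ![GB, bA.map (C : A →+* A[X])] 1 F =
        ∑ ψ : A →+* F, ∑ v : F, wZ F ![cA.map ψ + C v * bA.map ψ, bA.map ψ] := by
      rw [sT_poly]
      refine Finset.sum_congr rfl fun ψ _ => Finset.sum_congr rfl fun v _ => ?_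
      congr 1
      funext j
      fin_cases j
      · exact map_pencil ψ v bA cA
      · exact map_C_eval ψ v bA
    have p4 := S2_Nt (F := F) bA
    have e1 : sT wJ (fun _ => GB) 1 F - ((Nat.card F : ℝ) * (Nat.card (A →+* F) : ℝ) +
        (sT wZ ![GB, bA.map (C : A →+* A[X])] 1 F + -sT wQ (fun _ => GB) 1 F) +
          -((Nat.card F : ℝ)⁻¹ * S2 (Nt bA) F)) =
        ∑ ψ : A →+* F, (∑ v : F, wJ F (fun _ => cA.map ψ + C v * bA.map ψ) - ((Fintype.card F : ℝ) +
          ∑ v : F, ∑ e : F × F, (if quad e ∣ cA.map ψ + C v * bA.map ψ then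
            chi F (nrm e (bA.map ψ)) else 0) -
          (Fintype.card F : ℝ)⁻¹ * ∑ e : F × F, chi F (nrm e (bA.map ψ)))) := by
      have p5 : ∑ ψ : A →+* F, ∑ v : F, wZ F ![cA.map ψ + C v * bA.map ψ, bA.map ψ] -
          ∑ ψ : A →+* F, ∑ v : F, wQ F (fun _ => cA.map ψ + C v * bA.map ψ) =
          ∑ ψ : A →+* F, ∑ v : F, ∑ e : F × F, (if quad e ∣ cA.map ψ + C v * bA.map ψ then
            chi F (nrm e (bA.map ψ)) else 0) := by
        rw [← Finset.sum_sub_distrib]
        refine Finset.sum_congr rfl fun ψ _ => ?_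
        rw [← Finset.sum_sub_distrib]
        refine Finset.sum_congr rfl fun v _ => ?_
        exact wZ_eq ![cA.map ψ + C v * bA.map ψ, bA.map ψ]
      rw [Finset.sum_sub_distrib, Finset.sum_sub_distrib, Finset.sum_add_distrib, Finset.sum_const,
        Finset.card_univ, nsmul_eq_mul, ← Finset.mul_sum, ← p4, ← p5, p1, p2, p3,
        Nat.card_eq_fintype_card, Nat.card_eq_fintype_card]
      ring
    have e2 : ∀ ψ : A →+* F, |∑ v : F, wJ F (fun _ => cA.map ψ + C v * bA.map ψ) -
        ((Fintype.card F : ℝ) +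
          ∑ v : F, ∑ e : F × F, (if quad e ∣ cA.map ψ + C v * bA.map ψ then
            chi F (nrm e (bA.map ψ)) else 0) -
          (Fintype.card F : ℝ)⁻¹ * ∑ e : F × F, chi F (nrm e (bA.map ψ)))| ≤
        3 * c.natDegree + (2 * c.natDegree) ^ 2 := by
      intro ψ
      have hcψ : (cA.map ψ).natDegree = c.natDegree := by rw [hcAm.natDegree_map, hcAd]
      have hbψ : (bA.map ψ).natDegree = b.natDegree := by rw [hbAm.natDegree_map, hbAd]
      have hW := wronski_ne (hcAm.map ψ) hcψ (hbAm.map ψ) hbψ hbc hnF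
      refine (sum_pencil (bA.map ψ) (cA.map ψ) hchar (mul_ne_zero hW (hbAm.map ψ).ne_zero)).trans ?_
      have h3 := wronski_deg hcψ (hbψ.le.trans hbc.le)
      have h4 : ((bA.map ψ) ^ 2).natDegree ≤ 2 * c.natDegree := by
        rw [natDegree_pow, hbψ]
        omega
      have h5 : (((derivative (cA.map ψ) * bA.map ψ - cA.map ψ * derivative (bA.map ψ)) *
          bA.map ψ).natDegree : ℝ) ≤ 3 * c.natDegree := by exact_mod_cast h3
      have h6 : (((bA.map ψ) ^ 2).natDegree : ℝ) ≤ 2 * c.natDegree := by exact_mod_cast h4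
      have h7 : (((bA.map ψ) ^ 2).natDegree : ℝ) ^ 2 ≤ (2 * c.natDegree) ^ 2 :=
        pow_le_pow_left₀ (Nat.cast_nonneg _) h6 2
      linarith
    have hq1 : (1 : ℝ) ≤ (Nat.card F : ℝ) := by exact_mod_cast Nat.card_pos
    have hs0 : 0 ≤ √(Nat.card F : ℝ) := Real.sqrt_nonneg _
    have hsqq : √(Nat.card F : ℝ) ≤ Nat.card F := by
      rw [Real.sqrt_le_left (by linarith)]
      nlinarith
    have e3 : |sT wJ (fun _ => GB) 1 F - ((Nat.card F : ℝ) * (Nat.card (A →+* F) : ℝ) +
        (sT wZ ![GB, bA.map (C : A →+* A[X])] 1 F + -sT wQ (fun _ => GB) 1 F) +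
          -((Nat.card F : ℝ)⁻¹ * S2 (Nt bA) F))| ≤
        (C1 * (Nat.card F : ℝ) ^ d) * (3 * c.natDegree + (2 * c.natDegree) ^ 2) := by
      rw [e1]
      refine (Finset.abs_sum_le_sum_abs _ _).trans ((Finset.sum_le_sum fun ψ _ => e2 ψ).trans ?_)
      rw [Finset.sum_const, Finset.card_univ, nsmul_eq_mul, ← Nat.card_eq_fintype_card]
      exact mul_le_mul_of_nonneg_right (hle F) (by positivity)
    calc _ ≤ (C1 * (Nat.card F : ℝ) ^ d) * (3 * c.natDegree + (2 * c.natDegree) ^ 2) *
          (Nat.card F : ℝ) := mul_le_mul e3 hsqq hs0 (by positivity)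
      _ = _ := by
        rw [pow_succ]
        ring
  have t2 := asy_any (isWt_wJ hodd) htr.le (fun _ => by rw [hGm, hGBK]) (fun _ => ⟨hG, hGd⟩) hN
    (one_ne_zero : (1 : A[X]) ≠ 0) t1
  rw [sub_eq_add_neg, sub_eq_add_neg]
  exact t2

end

end Pool.Agent.Helper94.KM
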