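import Pool.Agent.Helper94.KM.L6

set_option autoImplicit false
set_option linter.all false
set_option maxHeartbeats 1000000

/-!
# The residue for the Jacobians of the curves of a pencil
-/

namespace Pool.Agent.Helper94.KM

open Polynomial NumberField IsDedekindDomain
open Pool.Agent.R410.LW (FG)
open Pool.Agent.R410.NG (Asy Wt IsWt sT sR sT_eq sR_eq avg all_models residue_shift trdeg_line fg_line)
open Pool.Agent.R410.BS (hom_le)
open Pool.Agent.Y707.PR (HasResidue)

section
variable {M K : Type} [Field M] [CharZero M] [Field K] [CharZero K] [Algebra M K] {ω : K}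
  {k : Type} [Field k] [NumberField k] (Ω : Type) [Field Ω] [Algebra K Ω]

/-- the number of the orbits of the divisors with the property -/
noncomputable def splitCard (b F : K[X]) : ℕ :=
  Nat.card {o : Quot (QConj Ω F) // ∃ D, Quot.mk _ D = o ∧ SplitD b D.1}

open Classical in
/-- the rank of the Néron-Severi group -/
noncomputable def rkJ (b : M[X]) (F : K[X]) : ℤ :=
  1 + splitCard Ω (b.map (algebraMap M K)) F - if IsSquare (C b.leadingCoeff⁻¹ * b) then 1 else 0

variable {Ω}

theorem splitD_scale (b : K[X]) {β : K} (hβ : β ≠ 0) (D : Polynomial Ω) :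
    SplitD (C β * b) D ↔ SplitD b D := by
  have hβ' : algebraMap K Ω β ≠ 0 := (_root_.map_ne_zero _).2 hβ
  constructor
  · rintro ⟨x₁, x₂, z, h1, h2, h3, h4⟩
    refine ⟨x₁, x₂, algebraMap K Ω β⁻¹ * z, h1, mul_mem (IntermediateField.algebraMap_mem _ _) h2,
      mul_ne_zero ((_root_.map_ne_zero _).2 (inv_ne_zero hβ)) h3, ?_⟩
    rw [mul_pow, h4, map_mul, map_mul, aeval_C, aeval_C, map_inv₀]
    field_simp
  · rintro ⟨x₁, x₂, z, h1, h2, h3, h4⟩
    refine ⟨x₁, x₂, algebraMap K Ω β * z, h1, mul_mem (IntermediateField.algebraMap_mem _ _) h2,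
      mul_ne_zero hβ' h3, ?_⟩
    rw [mul_pow, h4, map_mul, map_mul, aeval_C, aeval_C]
    ring

variable [IsAlgClosed Ω] [Algebra.IsAlgebraic K Ω] [IsGalois K Ω]

variable (Ω) in
/-- the residue for a monic polynomial `b` -/
theorem residue_J_monic (hM : FG M) {d : ℕ} (hd : Algebra.trdeg ℚ M = d) (hω : Transcendental M ω)
    (htop : IntermediateField.adjoin M {ω} = ⊤) {b c : M[X]} (hc : c.Monic) (hodd : Odd c.natDegree)
    (hb : b.Monic) (hbc : b.natDegree < c.natDegree)
    {R : Type} [CommRing R] [IsDomain R] [Algebra.FiniteType ℤ R] [Algebra R K] [IsFractionRing R K]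
    [Algebra (𝓞 k) R]
    {G : R[X]} (hG : G.Monic) (hGm : G.map (algebraMap R K) =
      c.map (algebraMap M K) + C ω * b.map (algebraMap M K))
    {N : R} (hN : N ≠ 0) (S : Finset (HeightOneSpectrum (𝓞 k))) :
    HasResidue S (fun v => (Ideal.absNorm v.asIdeal : ℝ) * avg wJ (fun _ : Unit => G) N (d + 1) v) 2
      (rkJ Ω b (c.map (algebraMap M K) + C ω * b.map (algebraMap M K))) := by
  classical
  have htr : Algebra.trdeg ℚ K = (d + 1 : ℕ) := trdeg_line hd hω htop
  have hbKdeg : (C ω * b.map (algebraMap M K)).degree < (c.map (algebraMap M K)).degree := by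
    rw [hc.degree_map, degree_eq_natDegree hc.ne_zero]
    refine lt_of_le_of_lt (deg_C_mul_le _ _) ?_
    rw [hb.degree_map, degree_eq_natDegree hb.ne_zero]
    exact_mod_cast hbc
  have hFm : (c.map (algebraMap M K) + C ω * b.map (algebraMap M K)).Monic :=
    (hc.map _).add_of_left hbKdeg
  have hGd : G.natDegree = c.natDegree := by
    rw [← hG.natDegree_map (algebraMap R K), hGm, natDegree_add_eq_left_of_degree_lt hbKdeg,
      hc.natDegree_map]
  have hw : IsWt wJ (fun _ => c.natDegree) _ := isWt_wJ hodd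
  obtain ⟨κ, iκ, L', iL, nL, a, ha, C2, N2, hC2, hN2, g2⟩ :=
    asy_wJ_pencil (Ω := Ω) hM hd hω htop hc hodd hb hbc hG hGm hN
  have hcΩ : CharZero Ω := charZero_of_injective_algebraMap (algebraMap K Ω).injective
  have hb1 : C b.leadingCoeff⁻¹ * b = b := by
    rw [hb.leadingCoeff, inv_one, C_1, one_mul]
  have hval : (∑ j, a j) = ((rkJ Ω b (c.map (algebraMap M K) + C ω * b.map (algebraMap M K)) : ℤ) :
      ℝ) := by
    rw [ha, card_zconj (Ω := Ω) (b.map (algebraMap M K)) hFm.ne_zero two_ne_zero]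
    unfold rkJ splitCard
    rw [hb1]
    push_cast
    split_ifs <;> ring
  obtain ⟨C3, hC3, g3⟩ := hom_le (R := R) (K := K) (IsFractionRing.injective R K) (e := d + 1)
    (by rw [htr])
  apply residue_shift
  have key := all_models (K := K) (R := R) (B := R) hw (e := d + 1) (by rw [htr]) rfl (fun _ => rfl)
    (g := fun _ => G) (g' := fun _ => G) (fun j => ⟨hG, hGd⟩) hN hN L' a
    (r := rkJ Ω b (c.map (algebraMap M K) + C ω * b.map (algebraMap M K)))
    hval ?_ ⟨C2, N2, hC2, hN2, g2⟩ S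
  · exact key
  refine ⟨C3 * (((c.natDegree : ℝ) ^ 2 + c.natDegree) / 2), 1, by positivity, one_ne_zero,
    fun F _ _ _ ψ => ?_⟩
  let _ : Fintype (R →+* F) := Fintype.ofFinite _
  rw [sR_eq]
  calc |∑ φ : R →+* F, if φ.comp (algebraMap (𝓞 k) R) = ψ ∧ φ N ≠ 0 then
        wJ F (fun j => G.map φ) else 0| ≤
      ∑ φ : R →+* F, |if φ.comp (algebraMap (𝓞 k) R) = ψ ∧ φ N ≠ 0 then
        wJ F (fun j => G.map φ) else 0| := Finset.abs_sum_le_sum_abs _ _
    _ ≤ ∑ φ : R →+* F, ((c.natDegree : ℝ) ^ 2 + c.natDegree) / 2 := by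
        refine Finset.sum_le_sum fun φ _ => ?_
        split_ifs
        · exact wJ_bound hodd F _ fun j => ⟨hG.map φ, by rw [hG.natDegree_map, hGd]⟩
        · rw [abs_zero]
          positivity
    _ = (Nat.card (R →+* F) : ℝ) * (((c.natDegree : ℝ) ^ 2 + c.natDegree) / 2) := by
        rw [Finset.sum_const, Finset.card_univ, nsmul_eq_mul, Nat.card_eq_fintype_card]
    _ ≤ (C3 * (Nat.card F : ℝ) ^ (d + 1)) * (((c.natDegree : ℝ) ^ 2 + c.natDegree) / 2) :=
        mul_le_mul_of_nonneg_right (g3 F) (by positivity)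
    _ = _ := by ring

variable (Ω) in
/-- **The residue for the Jacobians of a pencil.** -/
theorem residue_J_pencil (hM : FG M) {d : ℕ} (hd : Algebra.trdeg ℚ M = d)
    (hω : Transcendental M ω) (htop : IntermediateField.adjoin M {ω} = ⊤) {b c : M[X]} (hc : c.Monic)
    (hodd : Odd c.natDegree) (hb0 : b ≠ 0) (hbc : b.natDegree < c.natDegree)
    {R : Type} [CommRing R] [IsDomain R] [Algebra.FiniteType ℤ R] [Algebra R K] [IsFractionRing R K]
    [Algebra (𝓞 k) R]
    {G : R[X]} (hG : G.Monic) (hGm : G.map (algebraMap R K) =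
      c.map (algebraMap M K) + C ω * b.map (algebraMap M K))
    {N : R} (hN : N ≠ 0) (S : Finset (HeightOneSpectrum (𝓞 k))) :
    HasResidue S (fun v => (Ideal.absNorm v.asIdeal : ℝ) * avg wJ (fun _ : Unit => G) N (d + 1) v) 2
      (rkJ Ω b (c.map (algebraMap M K) + C ω * b.map (algebraMap M K))) := by
  classical
  set β := b.leadingCoeff with hβ
  have hβ0 : β ≠ 0 := leadingCoeff_ne_zero.2 hb0
  have hβK : algebraMap M K β ≠ 0 := (_root_.map_ne_zero _).2 hβ0
  set b₁ : M[X] := C β⁻¹ * b with hb₁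
  have hb₁m : b₁.Monic := by
    rw [Monic, hb₁, leadingCoeff_mul, leadingCoeff_C, ← hβ, inv_mul_cancel₀ hβ0]
  have hb₁d : b₁.natDegree < c.natDegree := by
    rw [hb₁, natDegree_C_mul (inv_ne_zero hβ0)]
    exact hbc
  set ω' : K := algebraMap M K β * ω with hω'
  have hωω' : ω = algebraMap M K β⁻¹ * ω' := by
    rw [hω', map_inv₀, inv_mul_cancel_left₀ hβK]
  have hω't : Transcendental M ω' := by
    intro h
    apply hω
    rw [hωω']
    exact (isAlgebraic_algebraMap _).mul h
  have htop' : IntermediateField.adjoin M {ω'} = ⊤ := by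
    rw [eq_top_iff, ← htop, IntermediateField.adjoin_le_iff, Set.singleton_subset_iff]
    show ω ∈ IntermediateField.adjoin M {ω'}
    rw [hωω']
    exact mul_mem (IntermediateField.algebraMap_mem _ _)
      (IntermediateField.subset_adjoin M _ (Set.mem_singleton _))
  have hF : c.map (algebraMap M K) + C ω * b.map (algebraMap M K) =
      c.map (algebraMap M K) + C ω' * b₁.map (algebraMap M K) := by
    congr 1
    rw [hb₁, Polynomial.map_mul, Polynomial.map_C, hω', ← mul_assoc, ← C_mul, map_inv₀,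
      mul_right_comm, mul_inv_cancel₀ hβK, one_mul]
  have h1 := residue_J_monic (k := k) Ω hM hd hω't htop' hc hodd hb₁m hb₁d hG (by rw [hGm, hF]) hN S
  have h2 : rkJ Ω b₁ (c.map (algebraMap M K) + C ω' * b₁.map (algebraMap M K)) =
      rkJ Ω b (c.map (algebraMap M K) + C ω * b.map (algebraMap M K)) := by
    rw [hF]
    unfold rkJ splitCard
    have e1 : C b₁.leadingCoeff⁻¹ * b₁ = C b.leadingCoeff⁻¹ * b := by
      rw [hb₁m.leadingCoeff, inv_one, C_1, one_mul, hb₁, hβ]
    have e2 : ∀ D : Polynomial Ω, SplitD (b₁.map (algebraMap M K)) D ↔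
        SplitD (b.map (algebraMap M K)) D := by
      intro D
      rw [hb₁, Polynomial.map_mul, Polynomial.map_C]
      exact splitD_scale _ ((_root_.map_ne_zero _).2 (inv_ne_zero hβ0)) D
    rw [e1]
    simp only [e2]
  rw [h2] at h1
  exact h1

end

end Pool.Agent.Helper94.KM
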