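import Pool.Agent.Helper94.KM.L7
import Pool.Agent.R410.NG.Sf

set_option autoImplicit false
set_option linter.all false

/-!
# Linear combinations of series
-/

namespace Pool.Agent.Helper94.KM

open NumberField IsDedekindDomain
open Pool.Agent.Y707.PR (HasResidue series)
open Pool.Agent.R410.NG (residue_add)

section
variable {k : Type} [Field k] [NumberField k]

/-- the multiple of a series -/
theorem residue_smul {S : Finset (HeightOneSpectrum (𝓞 k))} {b : HeightOneSpectrum (𝓞 k) → ℝ}
    {s₀ r : ℝ} (h : HasResidue S b s₀ r) (a : ℝ) :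
    HasResidue S (fun v => a * b v) s₀ (a * r) := by
  obtain ⟨h1, G, hG, h2⟩ := h
  have key : ∀ (v : HeightOneSpectrum (𝓞 k)) (s : ℂ), (((a * b v : ℝ) : ℂ)) *
      (Real.log (Ideal.absNorm v.asIdeal) : ℂ) * (Ideal.absNorm v.asIdeal : ℂ) ^ (-s) =
      (a : ℂ) * ((b v : ℂ) * (Real.log (Ideal.absNorm v.asIdeal) : ℂ) *
        (Ideal.absNorm v.asIdeal : ℂ) ^ (-s)) := by
    intro v s
    push_cast
    ring
  refine ⟨fun s hs => ?_, fun s => (a : ℂ) * G s, analyticAt_const.mul hG, ?_⟩
  · exact ((h1 s hs).mul_left (a : ℂ)).congr fun v => (key v.1 s).symm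
  · filter_upwards [h2] with s e1 hs
    have h3 : series S (fun v => a * b v) s = (a : ℂ) * series S b s := by
      unfold series
      rw [← tsum_mul_left]
      exact tsum_congr fun v => key v.1 s
    rw [h3, e1 hs]
    push_cast
    ring

/-- the sum of several series -/
theorem residue_sum {ι : Type} (T : Finset ι) {S : Finset (HeightOneSpectrum (𝓞 k))}
    {b : ι → HeightOneSpectrum (𝓞 k) → ℝ} {s₀ : ℝ} {r : ι → ℝ}
    {b₀ : HeightOneSpectrum (𝓞 k) → ℝ} {r₀ : ℝ} (h₀ : HasResidue S b₀ s₀ r₀)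
    (h : ∀ i ∈ T, HasResidue S (b i) s₀ (r i)) :
    HasResidue S (fun v => b₀ v + ∑ i ∈ T, b i v) s₀ (r₀ + ∑ i ∈ T, r i) := by
  classical
  induction T using Finset.induction_on with
  | empty => simpa using h₀
  | insert i T hi ih =>
    have h1 := residue_add (ih fun j hj => h j (Finset.mem_insert_of_mem hj))
      (h i (Finset.mem_insert_self _ _))
    rw [Finset.sum_insert hi]
    have e1 : (fun v => b₀ v + ∑ i ∈ T, b i v + b i v) = fun v => b₀ v + ∑ i ∈ insert i T, b i v := by
      funext v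
      rw [Finset.sum_insert hi]
      ring
    rw [e1] at h1
    have e2 : r₀ + ∑ i ∈ T, r i + r i = r₀ + (r i + ∑ i ∈ T, r i) := by ring
    rw [e2] at h1
    exact h1

end

end Pool.Agent.Helper94.KM
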