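import Pool.Agent.Helper94.KM.Sys
import Pool.Agent.Helper94.KM.J4

set_option autoImplicit false
set_option linter.all false

/-!
# Systems of divisors of polynomials
-/

namespace Pool.Agent.Helper94.KM

open Polynomial NumberField
open Pool.Agent.R410.LW (FG)
open Pool.Agent.R410.NG (Asy Wt IsWt sT sT_eq)

section
variable {R : Type} [CommRing R] {n : ℕ}

/-- the monic polynomial with the given lower coefficients -/
noncomputable def dv (e : Fin n → R) : R[X] := X ^ n + ∑ l : Fin n, C (e l) * X ^ (l : ℕ)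

theorem dv_low (e : Fin n → R) : (∑ l : Fin n, C (e l) * X ^ (l : ℕ) : R[X]).degree < n := by
  refine (degree_sum_le _ _).trans_lt ((Finset.sup_lt_iff (WithBot.bot_lt_coe n)).2 fun l _ => ?_)
  refine lt_of_le_of_lt (degree_C_mul_X_pow_le _ _) ?_
  exact WithBot.coe_lt_coe.2 (Nat.cast_lt.2 l.2)

theorem dv_monic (e : Fin n → R) : (dv e).Monic := monic_X_pow_add (dv_low e)

theorem dv_natDegree [Nontrivial R] (e : Fin n → R) : (dv e).natDegree = n := by
  unfold dv
  rw [add_comm]
  rw [natDegree_add_eq_right_of_degree_lt]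
  · exact natDegree_X_pow n
  · rw [degree_X_pow]
    exact dv_low e

theorem dv_coeff (e : Fin n → R) (l : Fin n) : (dv e).coeff l = e l := by
  unfold dv
  rw [coeff_add, coeff_X_pow, if_neg l.2.ne, zero_add, finset_sum_coeff]
  rw [Finset.sum_eq_single l]
  · rw [coeff_C_mul, coeff_X_pow, if_pos rfl, mul_one]
  · intro j _ hj
    rw [coeff_C_mul, coeff_X_pow, if_neg (fun h => hj (Fin.ext h.symm)), mul_zero]
  · intro h
    exact absurd (Finset.mem_univ _) h

theorem dv_inj {e e' : Fin n → R} (h : dv e = dv e') : e = e' := by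
  funext l
  rw [← dv_coeff e, ← dv_coeff e', h]

theorem dv_of {D : R[X]} (h1 : D.Monic) (h2 : D.natDegree = n) :
    dv (fun l : Fin n => D.coeff l) = D := by
  nontriviality R
  ext j
  rcases lt_trichotomy j n with h | h | h
  · exact dv_coeff (fun l : Fin n => D.coeff l) ⟨j, h⟩
  · have h3 := dv_monic (fun l : Fin n => D.coeff l)
    rw [Monic, leadingCoeff, dv_natDegree] at h3
    rw [Monic, leadingCoeff, h2] at h1
    rw [h, h3, h1]
  · rw [coeff_eq_zero_of_natDegree_lt (by rw [dv_natDegree]; exact h),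
      coeff_eq_zero_of_natDegree_lt (by rw [h2]; exact h)]

theorem dv_map {R' : Type} [CommRing R'] (f : R →+* R') (e : Fin n → R) :
    (dv e).map f = dv (fun l => f (e l)) := by
  unfold dv
  rw [Polynomial.map_add, Polynomial.map_pow, Polynomial.map_X, Polynomial.map_sum]
  simp

end

section
variable {m : ℕ} (j : Fin m → ℕ)

/-- the index type of the coefficients -/
abbrev Ix : Type := Σ i : Fin m, Fin (j i)

/-- the number of the tuples of divisors of the degrees `j` -/
noncomputable def wDj : Wt (Fin m) := fun F _ p =>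
  (Nat.card {e : Ix j → F // ∀ i, dv (fun l => e ⟨i, l⟩) ∣ p i} : ℝ)

variable {R : Type} [CommRing R]

/-- the remainder -/
noncomputable def rD (G : Fin m → R[X]) (i : Fin m) : (MvPolynomial (Ix j) R)[X] :=
  (G i).map MvPolynomial.C %ₘ dv fun l => MvPolynomial.X ⟨i, l⟩

/-- the system of the equations of the divisors -/
noncomputable def dsys (G : Fin m → R[X]) : Ix j → MvPolynomial (Ix j) R :=
  fun c => (rD j G c.1).coeff c.2

variable {j}

theorem dsys_zero [Nontrivial R] {F : Type} [Field F] (Φ : MvPolynomial (Ix j) R →+* F)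
    (G : Fin m → R[X]) : (∀ c, Φ (dsys j G c) = 0) ↔
      ∀ i, dv (fun l => Φ (MvPolynomial.X ⟨i, l⟩)) ∣ (G i).map (Φ.comp MvPolynomial.C) := by
  have hr : ∀ i, (rD j G i).map Φ = (G i).map (Φ.comp MvPolynomial.C) %ₘ
      dv (fun l => Φ (MvPolynomial.X ⟨i, l⟩)) := by
    intro i
    unfold rD
    rw [Polynomial.map_modByMonic _ (dv_monic _), Polynomial.map_map, dv_map]
  constructor
  · intro h i
    rw [← modByMonic_eq_zero_iff_dvd (dv_monic _), ← hr]
    ext a
    rw [coeff_map, coeff_zero]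
    by_cases ha : a < j i
    · exact h ⟨i, ⟨a, ha⟩⟩
    · have h2 : (rD j G i).coeff a = 0 := by
        apply coeff_eq_zero_of_degree_lt
        unfold rD
        refine lt_of_lt_of_le (degree_modByMonic_lt _ (dv_monic _)) ?_
        rw [degree_eq_natDegree (dv_monic _).ne_zero, dv_natDegree]
        exact_mod_cast not_lt.1 ha
      rw [h2, map_zero]
  · rintro h ⟨i, l⟩
    have h1 := h i
    rw [← modByMonic_eq_zero_iff_dvd (dv_monic _), ← hr] at h1
    show Φ ((rD j G i).coeff l) = 0
    rw [← coeff_map, h1, coeff_zero]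

/-- the points of the system over a point of `R` -/
noncomputable def dEquiv [Nontrivial R] {F : Type} [Field F] (G : Fin m → R[X]) (N : R) :
    {Φ : MvPolynomial (Ix j) R →+* F // (∀ c, Φ (dsys j G c) = 0) ∧ Φ (MvPolynomial.C N) ≠ 0} ≃
      Σ φ : {φ : R →+* F // φ N ≠ 0}, {e : Ix j → F // ∀ i, dv (fun l => e ⟨i, l⟩) ∣ (G i).map φ.1} where
  toFun Φ := ⟨⟨Φ.1.comp MvPolynomial.C, Φ.2.2⟩, ⟨fun c => Φ.1 (MvPolynomial.X c),
    (dsys_zero Φ.1 G).1 Φ.2.1⟩⟩
  invFun z := ⟨MvPolynomial.eval₂Hom z.1.1 z.2.1, by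
    have h1 : (MvPolynomial.eval₂Hom z.1.1 z.2.1).comp MvPolynomial.C = z.1.1 :=
      RingHom.ext fun a => by rw [RingHom.comp_apply, MvPolynomial.eval₂Hom_C]
    refine ⟨?_, ?_⟩
    · rw [dsys_zero, h1]
      intro i
      have h2 := z.2.2 i
      simpa only [MvPolynomial.eval₂Hom_X'] using h2
    · rw [MvPolynomial.eval₂Hom_C]
      exact z.1.2⟩
  left_inv Φ := by
    apply Subtype.ext
    apply MvPolynomial.ringHom_ext
    · intro a
      simp
    · intro i
      simp
  right_inv z := by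
    rcases z with ⟨⟨φ, hφ⟩, ⟨e, hQ⟩⟩
    have gen : ∀ (φ' : R →+* F) (hφ' : φ' N ≠ 0) (e' : Ix j → F)
        (hQ' : ∀ i, dv (fun l => e' ⟨i, l⟩) ∣ (G i).map φ'), φ' = φ → e' = e →
        (⟨⟨φ', hφ'⟩, ⟨e', hQ'⟩⟩ : Σ φ : {φ : R →+* F // φ N ≠ 0},
          {e : Ix j → F // ∀ i, dv (fun l => e ⟨i, l⟩) ∣ (G i).map φ.1}) = ⟨⟨φ, hφ⟩, ⟨e, hQ⟩⟩ := by
      intro φ' hφ' e' hQ' h1 h2
      subst h1 h2
      rfl
    refine gen _ _ _ _ ?_ ?_
    · exact RingHom.ext fun a => by rw [RingHom.comp_apply, MvPolynomial.eval₂Hom_C]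
    · funext c
      exact MvPolynomial.eval₂Hom_X' _ _ _

theorem sT_wDj [IsDomain R] [Algebra.FiniteType ℤ R] (G : Fin m → R[X]) (N : R) (F : Type) [Field F]
    [Finite F] : sT (wDj j) G N F = (Nat.card {Φ : MvPolynomial (Ix j) R →+* F //
      (∀ c, Φ (dsys j G c) = 0) ∧ Φ (MvPolynomial.C N) ≠ 0} : ℝ) := by
  classical
  have hfin : Finite (R →+* F) := inferInstance
  let _ : Fintype {φ : R →+* F // φ N ≠ 0} := Fintype.ofFinite _
  rw [Nat.card_congr (dEquiv G N), Nat.card_sigma]
  unfold sT wDj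
  rw [finsum_eq_sum_of_fintype, Nat.cast_sum]

end

section
variable {F : Type} [Field F]

/-- the number of the monic divisors -/
theorem monic_divisors (p : F[X]) (hp : p ≠ 0) : Finite {D : F[X] // D.Monic ∧ D ∣ p} ∧
    Nat.card {D : F[X] // D.Monic ∧ D ∣ p} ≤ 2 ^ p.natDegree := by
  classical
  set L := AlgebraicClosure F
  have hp' : p.map (algebraMap F L) ≠ 0 := (Polynomial.map_ne_zero_iff (algebraMap F L).injective).2 hp
  let T := (p.map (algebraMap F L)).roots.powerset.toFinset
  have hinj : Function.Injective (fun D : {D : F[X] // D.Monic ∧ D ∣ p} =>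
      (⟨(D.1.map (algebraMap F L)).roots, by
        rw [Multiset.mem_toFinset, Multiset.mem_powerset]
        exact roots.le_of_dvd hp' (Polynomial.map_dvd _ D.2.2)⟩ : {s // s ∈ T})) := by
    intro D D' h
    have h1 : (D.1.map (algebraMap F L)).roots = (D'.1.map (algebraMap F L)).roots :=
      congrArg (fun z => z.1) h
    have h2 := (IsAlgClosed.splits (D.1.map (algebraMap F L))).eq_prod_roots_of_monic (D.2.1.map _)
    have h3 := (IsAlgClosed.splits (D'.1.map (algebraMap F L))).eq_prod_roots_of_monic (D'.2.1.map _)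
    apply Subtype.ext
    apply Polynomial.map_injective _ (algebraMap F L).injective
    rw [h2, h3, h1]
  refine ⟨Finite.of_injective _ hinj, ?_⟩
  refine (Nat.card_le_card_of_injective _ hinj).trans ?_
  rw [Nat.card_eq_fintype_card, Fintype.card_coe]
  refine (Multiset.toFinset_card_le _).trans ?_
  rw [Multiset.card_powerset]
  refine Nat.pow_le_pow_right two_pos ?_
  refine (card_roots' _).trans ?_
  rw [natDegree_map]

end

end Pool.Agent.Helper94.KM
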