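import Pool.Agent.Helper94.KM.N1
import Pool.Agent.R410.NG.Sh

set_option autoImplicit false
set_option linter.all false
set_option maxHeartbeats 1000000

/-!
# The average number of the tuples of divisors
-/

namespace Pool.Agent.Helper94.KM

open Polynomial NumberField IsDedekindDomain
open Pool.Agent.R410.LW (FG)
open Pool.Agent.R410.NG (Asy Wt IsWt sT sR sT_eq sR_eq avg all_models sR_bound residue_shift)
open Pool.Agent.Y707.PR (HasResidue)

section
variable {m : ℕ} (j : Fin m → ℕ) {K : Type} [Field K] (Ω : Type) [Field Ω] [Algebra K Ω]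

/-- the tuples of divisors of the degrees `j` -/
abbrev DD (F : Fin m → K[X]) : Type :=
  {e : Ix j → Ω // ∀ i, dv (fun l => e ⟨i, l⟩) ∣ (F i).map (algebraMap K Ω)}

/-- conjugate tuples -/
def DConj (F : Fin m → K[X]) (e e' : DD j Ω F) : Prop := ∃ σ : Ω ≃ₐ[K] Ω, ∀ c, σ (e.1 c) = e'.1 c

variable {j Ω} {R : Type} [CommRing R] [IsDomain R] [Algebra R K]

/-- the solutions of the system -/
noncomputable def dsEquiv {F : Fin m → K[X]} {G : Fin m → R[X]}
    (hG : ∀ i, (G i).map (algebraMap R K) = F i) : Sol K Ω (dsys j G) ≃ DD j Ω F := by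
  have key : ∀ x : Ix j → Ω, (∀ c, evt K x (dsys j G c) = 0) ↔
      ∀ i, dv (fun l => x ⟨i, l⟩) ∣ (F i).map (algebraMap K Ω) := by
    intro x
    have h1 : (evt K (R := R) x).comp MvPolynomial.C = (algebraMap K Ω).comp (algebraMap R K) :=
      RingHom.ext fun a => by rw [RingHom.comp_apply, evt, MvPolynomial.eval₂Hom_C]
    have h2 : ∀ i, evt K (R := R) x (MvPolynomial.X i) = x i := fun i => by
      rw [evt, MvPolynomial.eval₂Hom_X']
    rw [dsys_zero, h1]
    refine forall_congr' fun i => ?_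
    rw [← hG i, Polynomial.map_map]
    simp only [h2]
  exact Equiv.subtypeEquivRight key

theorem dsEquiv_val {F : Fin m → K[X]} {G : Fin m → R[X]}
    (hG : ∀ i, (G i).map (algebraMap R K) = F i) (x : Sol K Ω (dsys j G)) :
    (dsEquiv hG x).1 = x.1 := rfl

theorem card_dsys {F : Fin m → K[X]} {G : Fin m → R[X]}
    (hG : ∀ i, (G i).map (algebraMap R K) = F i) :
    Nat.card (Quot (SConj K Ω (dsys j G))) = Nat.card (Quot (DConj j Ω F)) :=
  Nat.card_congr (Quot.congr (dsEquiv hG) fun x y => Iff.rfl)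

end

section
variable {m : ℕ} {j : Fin m → ℕ} {F : Type} [Field F]

theorem dd_inj (p : Fin m → F[X]) : Function.Injective
    (fun e : {e : Ix j → F // ∀ i, dv (fun l => e ⟨i, l⟩) ∣ p i} =>
      (fun i => ⟨dv (fun l => e.1 ⟨i, l⟩), dv_monic _, e.2 i⟩ :
        ∀ i, {D : F[X] // D.Monic ∧ D ∣ p i})) := by
  intro e e' h
  apply Subtype.ext
  funext c
  have h1 := congrFun h c.1
  have h2 := congrArg (fun z : {D : F[X] // D.Monic ∧ D ∣ p c.1} => z.1) h1
  exact congrFun (dv_inj h2) c.2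

theorem dd_finite (p : Fin m → F[X]) (hp : ∀ i, p i ≠ 0) :
    Finite {e : Ix j → F // ∀ i, dv (fun l => e ⟨i, l⟩) ∣ p i} ∧
    Nat.card {e : Ix j → F // ∀ i, dv (fun l => e ⟨i, l⟩) ∣ p i} ≤ ∏ i, 2 ^ (p i).natDegree := by
  have h1 := fun i => (monic_divisors (p i) (hp i)).1
  refine ⟨Finite.of_injective _ (dd_inj p), ?_⟩
  refine (Nat.card_le_card_of_injective _ (dd_inj p)).trans ?_
  rw [Nat.card_pi]
  exact Finset.prod_le_prod' fun i _ => (monic_divisors (p i) (hp i)).2

end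

theorem isWt_wDj {m : ℕ} (j n : Fin m → ℕ) : IsWt (wDj j) n (∏ i, (2 : ℝ) ^ (n i)) where
  c0 := by positivity
  iso F F' _ _ e p := by
    unfold wDj
    congr 1
    symm
    refine Nat.card_congr ((Equiv.piCongrRight fun _ => e.toEquiv).subtypeEquiv fun a => ?_)
    refine forall_congr' fun i => ?_
    show _ ↔ dv (fun l => e (a ⟨i, l⟩)) ∣ (p i).map (e : F →+* F')
    have h1 : dv (fun l => e (a ⟨i, l⟩)) = (dv fun l => a ⟨i, l⟩).map (e : F →+* F') :=
      (dv_map (e : F →+* F') _).symm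
    rw [h1]
    exact (map_dvd_iff (mapEquiv e)).symm
  bound F _ _ p hp := by
    have h1 := (dd_finite (j := j) p fun i => (hp i).1.ne_zero).2
    simp only [(hp _).2] at h1
    have hq : (1 : ℝ) ≤ (Nat.card F : ℝ) := by exact_mod_cast Nat.card_pos
    have hs : (1 : ℝ) ≤ √(Nat.card F : ℝ) := Real.one_le_sqrt.2 hq
    unfold wDj
    rw [Nat.abs_cast]
    have h2 : (Nat.card {e : Ix j → F // ∀ i, dv (fun l => e ⟨i, l⟩) ∣ p i} : ℝ) ≤
        ∏ i, (2 : ℝ) ^ (n i) := by exact_mod_cast h1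
    exact h2.trans (le_mul_of_one_le_right (by positivity) hs)

section
variable {K R : Type} [Field K] [CharZero K] [CommRing R] [IsDomain R] [Algebra.FiniteType ℤ R]
  [Algebra R K] [IsFractionRing R K] {Ω : Type} [Field Ω] [Algebra K Ω] [IsAlgClosed Ω]
  [Algebra.IsAlgebraic K Ω] {m : ℕ}

/-- the average number of the tuples of divisors of fixed degrees -/
theorem asy_wDj (j : Fin m → ℕ) (hK : FG K) {e : ℕ} (he : Algebra.trdeg ℚ K = e) {G : Fin m → R[X]}
    (hG : ∀ i, (G i).Monic) {N : R} (hN : N ≠ 0) : Asy (fun F _ _ => sT (wDj j) G N F) e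
      (Nat.card (Quot (DConj j Ω fun i => (G i).map (algebraMap R K)))) := by
  have hfinS : Finite (Sol K Ω (dsys j G)) := by
    have h1 := (dd_finite (j := j) (fun i => ((G i).map (algebraMap R K)).map (algebraMap K Ω))
      fun i => (((hG i).map _).map _).ne_zero).1
    exact Finite.of_equiv _ (dsEquiv (K := K) (Ω := Ω) (fun _ => rfl)).symm
  obtain ⟨N₀, hN₀, h⟩ := asy_sys (Ω := Ω) hK he (dsys j G) hfinS
  have h1 := (h (N₀ * N) (mul_ne_zero hN₀ hN) (dvd_mul_right _ _)).1
  rw [card_dsys fun _ => rfl] at h1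
  refine Pool.Agent.R410.NG.asy_any (isWt_wDj j fun i => (G i).natDegree) he.le (fun _ => rfl)
    (fun i => ⟨hG i, rfl⟩) hN (mul_ne_zero hN₀ hN) (g' := G) ?_
  refine h1.congr 1 one_ne_zero fun F _ _ _ => ?_
  exact sT_wDj G (N₀ * N) F

end

/-! ## All degrees -/

section
variable {m : ℕ} (g : Fin m → ℕ)

/-- the tuples of monic divisors of the degrees `≤ g` -/
abbrev TD {F : Type} [Field F] (p : Fin m → F[X]) : Type :=
  {D : Fin m → F[X] // ∀ i, (D i).Monic ∧ (D i).natDegree ≤ g i ∧ D i ∣ p i}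

/-- the number of the tuples of monic divisors of the degrees `≤ g` -/
noncomputable def wD : Wt (Fin m) := fun F _ p => (Nat.card (TD g p) : ℝ)

variable {g}

/-- the degrees -/
abbrev Jx (g : Fin m → ℕ) : Type :=
  {j : Fin m → ℕ // j ∈ Fintype.piFinset fun i => Finset.range (g i + 1)}

theorem mem_jx {j : Fin m → ℕ} : (j ∈ Fintype.piFinset fun i => Finset.range (g i + 1)) ↔
    ∀ i, j i ≤ g i := by
  rw [Fintype.mem_piFinset]
  exact forall_congr' fun i => by rw [Finset.mem_range, Nat.lt_succ_iff]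

/-- the tuple of divisors -/
noncomputable def toTD {F : Type} [Field F] (p : Fin m → F[X])
    (z : Σ j : Jx g, {e : Ix j.1 → F // ∀ i, dv (fun l => e ⟨i, l⟩) ∣ p i}) : TD g p :=
  ⟨fun i => dv (fun l => z.2.1 ⟨i, l⟩), fun i => ⟨dv_monic _, by
    rw [dv_natDegree]
    exact mem_jx.1 z.1.2 i, z.2.2 i⟩⟩

theorem toTD_bij {F : Type} [Field F] (p : Fin m → F[X]) : Function.Bijective (toTD (g := g) p) := by
  constructor
  · rintro ⟨⟨j, hj⟩, ⟨e, he⟩⟩ ⟨⟨j', hj'⟩, ⟨e', he'⟩⟩ h
    have h1 : ∀ i, dv (fun l => e ⟨i, l⟩) = dv (fun l => e' ⟨i, l⟩) := fun i =>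
      congrFun (congrArg (fun z : TD g p => z.1) h) i
    have h2 : j = j' := by
      funext i
      have := congrArg natDegree (h1 i)
      rwa [dv_natDegree, dv_natDegree] at this
    subst h2
    have h3 : e = e' := by
      funext c
      exact congrFun (dv_inj (h1 c.1)) c.2
    subst h3
    rfl
  · rintro ⟨D, hD⟩
    refine ⟨⟨⟨fun i => (D i).natDegree, mem_jx.2 fun i => (hD i).2.1⟩,
      ⟨fun c => (D c.1).coeff c.2, fun i => ?_⟩⟩, ?_⟩
    · have h1 : dv (fun l : Fin (D i).natDegree => (D i).coeff l) = D i := dv_of (hD i).1 rfl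
      show dv (fun l : Fin (D i).natDegree => (D i).coeff l) ∣ p i
      rw [h1]
      exact (hD i).2.2
    · apply Subtype.ext
      funext i
      have h1 : dv (fun l : Fin (D i).natDegree => (D i).coeff l) = D i := dv_of (hD i).1 rfl
      exact h1

theorem wD_eq {F : Type} [Field F] [Finite F] (p : Fin m → F[X]) :
    wD g F p = ∑ j : Jx g, wDj j.1 F p := by
  unfold wD wDj
  rw [← Nat.card_congr (Equiv.ofBijective _ (toTD_bij (g := g) p)), Nat.card_sigma, Nat.cast_sum]

theorem wD_bound {F : Type} [Field F] (p : Fin m → F[X]) (hp : ∀ i, p i ≠ 0) :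
    Nat.card (TD g p) ≤ ∏ i, 2 ^ (p i).natDegree := by
  have h1 := fun i => (monic_divisors (p i) (hp i)).1
  have hinj : Function.Injective (fun D : TD g p =>
      (fun i => ⟨D.1 i, (D.2 i).1, (D.2 i).2.2⟩ : ∀ i, {D : F[X] // D.Monic ∧ D ∣ p i})) := by
    intro D D' h
    apply Subtype.ext
    funext i
    exact congrArg (fun z : {D : F[X] // D.Monic ∧ D ∣ p i} => z.1) (congrFun h i)
  refine (Nat.card_le_card_of_injective _ hinj).trans ?_
  rw [Nat.card_pi]
  exact Finset.prod_le_prod' fun i _ => (monic_divisors (p i) (hp i)).2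

theorem isWt_wD (n : Fin m → ℕ) : IsWt (wD g) n (∏ i, (2 : ℝ) ^ (n i)) where
  c0 := by positivity
  iso F F' _ _ e p := by
    unfold wD
    congr 1
    symm
    refine Nat.card_congr ((Equiv.piCongrRight fun _ => (mapEquiv e).toEquiv).subtypeEquiv
      fun a => ?_)
    refine forall_congr' fun i => ?_
    show _ ↔ ((a i).map (e : F →+* F')).Monic ∧ ((a i).map (e : F →+* F')).natDegree ≤ g i ∧
      (a i).map (e : F →+* F') ∣ (p i).map (e : F →+* F')
    rw [natDegree_map]
    refine and_congr ?_ (and_congr Iff.rfl ?_)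
    · exact (Function.Injective.monic_map_iff (f := (e : F →+* F')) e.injective)
    · exact (map_dvd_iff (mapEquiv e)).symm
  bound F _ _ p hp := by
    have h1 := wD_bound (g := g) p fun i => (hp i).1.ne_zero
    simp only [(hp _).2] at h1
    have hq : (1 : ℝ) ≤ (Nat.card F : ℝ) := by exact_mod_cast Nat.card_pos
    have hs : (1 : ℝ) ≤ √(Nat.card F : ℝ) := Real.one_le_sqrt.2 hq
    unfold wD
    rw [Nat.abs_cast]
    have h2 : (Nat.card (TD g p) : ℝ) ≤ ∏ i, (2 : ℝ) ^ (n i) := by exact_mod_cast h1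
    exact h2.trans (le_mul_of_one_le_right (by positivity) hs)

end

section
variable {m : ℕ} (g : Fin m → ℕ) {K : Type} [Field K] (Ω : Type) [Field Ω] [Algebra K Ω]

/-- conjugate tuples -/
def TConj (F : Fin m → K[X]) (D D' : TD g fun i => (F i).map (algebraMap K Ω)) : Prop :=
  ∃ σ : Ω ≃ₐ[K] Ω, ∀ i, (D.1 i).map (σ : Ω →+* Ω) = D'.1 i

variable {g Ω}

theorem tconj_equiv (F : Fin m → K[X]) : Equivalence (TConj g Ω F) :=
  { refl := fun x => ⟨AlgEquiv.refl, fun i => by
      have : ((AlgEquiv.refl : Ω ≃ₐ[K] Ω) : Ω →+* Ω) = RingHom.id Ω := rfl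
      rw [this, Polynomial.map_id]⟩
    symm := fun {x y} ⟨σ, h1⟩ => ⟨σ.symm, fun i => by
      rw [← h1, Polynomial.map_map]
      have : ((σ.symm : Ω ≃ₐ[K] Ω) : Ω →+* Ω).comp (σ : Ω →+* Ω) = RingHom.id Ω :=
        RingHom.ext fun a => σ.symm_apply_apply a
      rw [this, Polynomial.map_id]⟩
    trans := fun {x y z} ⟨σ, h1⟩ ⟨τ, h2⟩ => ⟨σ.trans τ, fun i => by
      rw [← h2, ← h1, Polynomial.map_map]
      rfl⟩ }

/-- the orbit of the tuple of divisors -/
noncomputable def toTQ (F : Fin m → K[X]) (z : Σ j : Jx g, Quot (DConj j.1 Ω F)) :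
    Quot (TConj g Ω F) :=
  Quot.map (fun e => toTD (fun i => (F i).map (algebraMap K Ω)) ⟨z.1, e⟩)
    (fun e e' ⟨σ, h⟩ => ⟨σ, fun i => by
      show (dv fun l => e.1 ⟨i, l⟩).map (σ : Ω →+* Ω) = dv fun l => e'.1 ⟨i, l⟩
      rw [dv_map]
      congr 1
      funext l
      exact h ⟨i, l⟩⟩) z.2

theorem toTQ_bij (F : Fin m → K[X]) : Function.Bijective (toTQ (g := g) (Ω := Ω) F) := by
  constructor
  · rintro ⟨⟨j, hj⟩, q⟩ ⟨⟨j', hj'⟩, q'⟩ h
    induction q using Quot.ind with
    | mk e =>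
      induction q' using Quot.ind with
      | mk e' =>
        obtain ⟨σ, hσ⟩ := (tconj_equiv F).eqvGen_iff.1 (Quot.eqvGen_exact h)
        have h1 : ∀ i, dv (fun l => σ (e.1 ⟨i, l⟩)) = dv (fun l => e'.1 ⟨i, l⟩) := fun i =>
          (dv_map (σ : Ω →+* Ω) _).symm.trans (hσ i)
        have h2 : j = j' := by
          funext i
          have := congrArg natDegree (h1 i)
          rwa [dv_natDegree, dv_natDegree] at this
        subst h2
        have h3 : Quot.mk (DConj j Ω F) e = Quot.mk (DConj j Ω F) e' :=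
          Quot.sound ⟨σ, fun c => congrFun (dv_inj (h1 c.1)) c.2⟩
        rw [h3]
  · intro q
    induction q using Quot.ind with
    | mk D =>
      obtain ⟨⟨j, e⟩, h⟩ := (toTD_bij (g := g) fun i => (F i).map (algebraMap K Ω)).2 D
      exact ⟨⟨j, Quot.mk _ e⟩, by rw [← h]; rfl⟩

theorem card_tconj {F : Fin m → K[X]} (hF : ∀ i, F i ≠ 0) : Nat.card (Quot (TConj g Ω F)) =
    ∑ j : Jx g, Nat.card (Quot (DConj j.1 Ω F)) := by
  have h1 : ∀ j : Jx g, Finite (DD j.1 Ω F) := fun j =>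
    (dd_finite (j := j.1) (fun i => (F i).map (algebraMap K Ω)) fun i =>
      (Polynomial.map_ne_zero_iff (algebraMap K Ω).injective).2 (hF i)).1
  rw [← Nat.card_congr (Equiv.ofBijective _ (toTQ_bij (g := g) (Ω := Ω) F)), Nat.card_sigma]

end

section
variable {K R : Type} [Field K] [CharZero K] [CommRing R] [IsDomain R] [Algebra.FiniteType ℤ R]
  [Algebra R K] [IsFractionRing R K] {k : Type} [Field k] [NumberField k] [Algebra (𝓞 k) R]

/-- the residue for a bounded weight -/
theorem residue_wt {J : Type} {w : Wt J} {n : J → ℕ} {c : ℝ} (hw : IsWt w n c) {c' : ℝ}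
    (hc' : 0 ≤ c') {e : ℕ} (he : Algebra.trdeg ℚ K ≤ e) {g : J → R[X]}
    (hg : ∀ j, (g j).Monic ∧ (g j).natDegree = n j) {N : R} (hN : N ≠ 0)
    (hb : ∀ (F : Type) [Field F] [Finite F] (φ : R →+* F), |w F (fun j => (g j).map φ)| ≤ c') {r : ℤ}
    (h : Asy (fun F _ _ => sT w g N F) e r) (S : Finset (HeightOneSpectrum (𝓞 k))) :
    HasResidue S (fun v => avg w g N e v) 1 r := by
  obtain ⟨κ, iκ, L', iL, nL, a, ha, C2, N2, hC2, hN2, g2⟩ := h
  exact all_models (K := K) hw he (R := R) (B := R) (k := k) rfl (g := g) (g' := g)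
    (fun _ => rfl) hg hN hN L' a ha (sR_bound (K := K) hc' he _ _ hb) ⟨C2, N2, hC2, hN2, g2⟩ S

variable {m : ℕ} (Ω : Type) [Field Ω] [Algebra K Ω] [IsAlgClosed Ω] [Algebra.IsAlgebraic K Ω]

/-- **The residue for the numbers of the tuples of divisors.** -/
theorem residue_TD (g : Fin m → ℕ) (hK : FG K) {e : ℕ} (he : Algebra.trdeg ℚ K = e)
    {G : Fin m → R[X]} (hG : ∀ i, (G i).Monic) {N : R} (hN : N ≠ 0)
    (S : Finset (HeightOneSpectrum (𝓞 k))) :
    HasResidue S (fun v => (Ideal.absNorm v.asIdeal : ℝ) * avg (wD g) G N e v) 2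
      (Nat.card (Quot (TConj g Ω fun i => (G i).map (algebraMap R K)))) := by
  apply residue_shift
  have h1 : Asy (fun F _ _ => sT (wD g) G N F) e
      ((Nat.card (Quot (TConj g Ω fun i => (G i).map (algebraMap R K))) : ℤ) : ℝ) := by
    have h2 := Asy.sum Finset.univ (fun j : Jx g => fun F _ _ => sT (wDj j.1) G N F) _
      fun j _ => asy_wDj (Ω := Ω) j.1 hK he hG hN
    rw [card_tconj fun i => ((hG i).map _).ne_zero]
    push_cast
    refine h2.congr 1 one_ne_zero fun F _ _ _ => ?_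
    have hfin : Finite (R →+* F) := inferInstance
    let _ : Fintype (R →+* F) := Fintype.ofFinite _
    classical
    simp only [sT_eq]
    rw [Finset.sum_comm]
    refine Finset.sum_congr rfl fun φ _ => ?_
    by_cases h3 : φ N ≠ 0
    · simp only [if_pos h3]
      exact wD_eq _
    · simp only [if_neg h3, Finset.sum_const_zero]
  have h2 := residue_wt (K := K) (k := k) (isWt_wD (g := g) fun i => (G i).natDegree)
    (c' := ∏ i, (2 : ℝ) ^ (G i).natDegree) (by positivity) he.le (fun i => ⟨hG i, rfl⟩) hN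
    (fun F _ _ φ => by
      have h3 := wD_bound (g := g) (fun i => (G i).map φ) fun i => ((hG i).map φ).ne_zero
      simp only [(hG _).natDegree_map] at h3
      unfold wD
      rw [Nat.abs_cast]
      exact_mod_cast h3) h1 S
  simpa using h2

end

end Pool.Agent.Helper94.KM
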