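import Pool.Agent.Helper94.KM.N2

set_option autoImplicit false
set_option linter.all false

/-!
# The number of the divisors of small degree
-/

namespace Pool.Agent.Helper94.KM

open Polynomial Finset

open Classical in
theorem card_small {L : Type} (S : Finset L) {g : ℕ} (hS : S.card = 2 * g + 1) :
    (S.powerset.filter fun T => T.card ≤ g).card = 4 ^ g := by
  rw [← Nat.sum_range_choose_halfway g]
  rw [Finset.card_eq_sum_card_fiberwise (f := Finset.card) (t := range (g + 1))]
  · refine Finset.sum_congr rfl fun j hj => ?_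
    rw [Finset.mem_range, Nat.lt_succ_iff] at hj
    have h1 : ((S.powerset.filter fun T => T.card ≤ g).filter fun T => T.card = j) =
        S.powersetCard j := by
      ext T
      rw [Finset.mem_filter, Finset.mem_filter, Finset.mem_powerset, Finset.mem_powersetCard]
      constructor
      · rintro ⟨⟨h1, -⟩, h2⟩
        exact ⟨h1, h2⟩
      · rintro ⟨h1, h2⟩
        exact ⟨⟨h1, by omega⟩, h2⟩
    rw [h1, Finset.card_powersetCard, hS]
  · intro T hT
    rw [Finset.mem_coe, Finset.mem_filter] at hT
    rw [Finset.mem_coe, Finset.mem_range, Nat.lt_succ_iff]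
    exact hT.2

/-- the number of the monic divisors of degree at most `g` of a polynomial of degree `2 g + 1` -/
theorem card_div {L : Type} [Field L] [IsAlgClosed L] {P : L[X]} (hP : P.Monic) (hs : P.Separable)
    {g : ℕ} (hd : P.natDegree = 2 * g + 1) :
    Nat.card {D : L[X] // D.Monic ∧ D.natDegree ≤ g ∧ D ∣ P} = 4 ^ g := by
  classical
  set S := P.roots.toFinset with hSd
  have hnd : P.roots.Nodup := nodup_roots hs
  have hSv : S.val = P.roots := by rw [hSd, Multiset.toFinset_val, hnd.dedup]
  have hPS : P = ∏ x ∈ S, (X - C x) := by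
    have h1 := (IsAlgClosed.splits P).eq_prod_roots_of_monic hP
    rw [← hSv] at h1
    exact h1
  have hcard : S.card = 2 * g + 1 := by
    rw [← hd]
    conv_rhs => rw [hPS]
    rw [natDegree_finset_prod_X_sub_C_eq_card]
  rw [← card_small S hcard, ← Fintype.card_coe, ← Nat.card_eq_fintype_card]
  symm
  refine Nat.card_congr (Equiv.ofBijective (fun T => ⟨∏ x ∈ T.1, (X - C x), ?_, ?_, ?_⟩) ⟨?_, ?_⟩)
  · exact monic_prod_of_monic _ _ fun x _ => monic_X_sub_C x
  · rw [natDegree_finset_prod_X_sub_C_eq_card]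
    exact (Finset.mem_filter.1 T.2).2
  · rw [hPS]
    exact Finset.prod_dvd_prod_of_subset _ _ _ (Finset.mem_powerset.1 (Finset.mem_filter.1 T.2).1)
  · intro T T' h
    have h1 : ∏ x ∈ T.1, (X - C x) = ∏ x ∈ T'.1, (X - C x) := congrArg (fun z => z.1) h
    have h2 := congrArg roots h1
    rw [roots_prod_X_sub_C, roots_prod_X_sub_C] at h2
    exact Subtype.ext (Finset.val_injective h2)
  · rintro ⟨D, hD, hDg, hDP⟩
    have h1 : D.roots ≤ P.roots := roots.le_of_dvd hP.ne_zero hDP
    have h2 : D.roots.Nodup := Multiset.nodup_of_le h1 hnd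
    have h3 : D.roots.toFinset.val = D.roots := by rw [Multiset.toFinset_val, h2.dedup]
    have h4 : D = ∏ x ∈ D.roots.toFinset, (X - C x) := by
      have h5 := (IsAlgClosed.splits D).eq_prod_roots_of_monic hD
      rw [← h3] at h5
      exact h5
    refine ⟨⟨D.roots.toFinset, Finset.mem_filter.2 ⟨Finset.mem_powerset.2 ?_, ?_⟩⟩, ?_⟩
    · rw [hSd]
      exact Multiset.toFinset_subset.2 (Multiset.subset_of_le h1)
    · have h6 : (∏ x ∈ D.roots.toFinset, (X - C x)).natDegree = D.roots.toFinset.card :=
        natDegree_finset_prod_X_sub_C_eq_card D.roots.toFinset (fun x => x)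
      rw [← h4] at h6
      omega
    · exact Subtype.ext h4.symm

/-- the number of the tuples -/
theorem card_TD {m : ℕ} {g : Fin m → ℕ} {L : Type} [Field L] [IsAlgClosed L] {P : Fin m → L[X]}
    (hP : ∀ i, (P i).Monic) (hs : ∀ i, (P i).Separable) (hd : ∀ i, (P i).natDegree = 2 * g i + 1) :
    Nat.card (TD g P) = 2 ^ (2 * ∑ i, g i) := by
  have h1 : Nat.card (TD g P) = ∏ i, Nat.card {D : L[X] // D.Monic ∧ D.natDegree ≤ g i ∧ D ∣ P i} := by
    rw [← Nat.card_pi]
    exact Nat.card_congr (Equiv.subtypePiEquivPi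
      (p := fun i (D : L[X]) => D.Monic ∧ D.natDegree ≤ g i ∧ D ∣ P i))
  rw [h1, Finset.prod_congr rfl fun i _ => card_div (hP i) (hs i) (hd i), Finset.prod_pow_eq_pow_sum,
    pow_mul]
  norm_num

end Pool.Agent.Helper94.KM
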