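import Pool.Agent.Helper94.KM.Sys
import Pool.Agent.Helper94.KM.Cnt

set_option autoImplicit false
set_option linter.all false

/-!
# The singular points of the surfaces `y² = P(t, x)`
-/

namespace Pool.Agent.Helper94.KM

open Polynomial NumberField IsDedekindDomain
open Pool.Agent.Y707.PR (HasResidue)
open Pool.Agent.R410.LW (FG)

section
variable {R : Type} [CommRing R]

/-- The derivative with respect to `t` of a polynomial in `x` over `R[t]`. -/
noncomputable def derivT (P : R[X][X]) : R[X][X] := P.sum fun j c => monomial j (derivative c)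

theorem derivT_coeff (P : R[X][X]) (j : ℕ) : (derivT P).coeff j = derivative (P.coeff j) := by
  unfold derivT
  rw [Polynomial.sum_def, finset_sum_coeff]
  simp only [coeff_monomial]
  rw [Finset.sum_ite_eq' P.support j fun i => derivative (P.coeff i)]
  split_ifs with h
  · rfl
  · rw [notMem_support_iff.1 h, derivative_zero]

theorem derivT_map {R' : Type} [CommRing R'] (φ : R →+* R') (P : R[X][X]) :
    derivT (P.map (mapRingHom φ)) = (derivT P).map (mapRingHom φ) := by
  ext1 j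
  rw [derivT_coeff, coeff_map, coeff_map, derivT_coeff, coe_mapRingHom, derivative_map]

/-- The value `P(t, x)`. -/
noncomputable def value (P : R[X][X]) (Q : R × R) : R := (P.map (evalRingHom Q.1)).eval Q.2

/-- `P`, `∂P/∂x` and `∂P/∂t` are zero at the point. -/
def IsSing (P : R[X][X]) (Q : R × R) : Prop :=
  value P Q = 0 ∧ value (derivative P) Q = 0 ∧ value (derivT P) Q = 0

variable (R) in
/-- the polynomial in two variables -/
noncomputable def toMv : R[X][X] →+* MvPolynomial (Fin 2) R :=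
  eval₂RingHom (eval₂RingHom MvPolynomial.C (MvPolynomial.X 0)) (MvPolynomial.X 1)

theorem toMv_hom {F : Type} [CommRing F] (Φ : MvPolynomial (Fin 2) R →+* F) (P : R[X][X]) :
    Φ (toMv R P) = value (P.map (mapRingHom (Φ.comp MvPolynomial.C)))
      (Φ (MvPolynomial.X 0), Φ (MvPolynomial.X 1)) := by
  have h : Φ.comp (toMv R) = (evalRingHom (Φ (MvPolynomial.X 1))).comp
      ((mapRingHom (evalRingHom (Φ (MvPolynomial.X 0)))).comp
        (mapRingHom (mapRingHom (Φ.comp MvPolynomial.C)))) := by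
    apply Polynomial.ringHom_ext'
    · apply Polynomial.ringHom_ext'
      · refine RingHom.ext fun a => ?_
        simp [toMv]
      · simp [toMv]
    · simp [toMv]
  exact congrArg (fun g => g P) h

/-- the system of equations of the singular points -/
noncomputable def sys (G : R[X][X]) : Fin 3 → MvPolynomial (Fin 2) R :=
  ![toMv R G, toMv R (derivative G), toMv R (derivT G)]

theorem sys_zero {F : Type} [CommRing F] (Φ : MvPolynomial (Fin 2) R →+* F) (G : R[X][X]) :
    (∀ c, Φ (sys G c) = 0) ↔ IsSing (G.map (mapRingHom (Φ.comp MvPolynomial.C)))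
      (Φ (MvPolynomial.X 0), Φ (MvPolynomial.X 1)) := by
  rw [Fin.forall_fin_succ, Fin.forall_fin_two]
  unfold IsSing
  rw [derivT_map, derivative_map, ← toMv_hom, ← toMv_hom, ← toMv_hom]
  rfl

/-- the points of the system over a point of `R` -/
noncomputable def singEquiv {F O : Type} [Field F] [CommRing O] (ρ : O →+* R) (G : R[X][X]) (N : R)
    (ψ : O →+* F) :
    {Φ : MvPolynomial (Fin 2) R →+* F // ((∀ c, Φ (sys G c) = 0) ∧ Φ (MvPolynomial.C N) ≠ 0) ∧
      Φ.comp ((MvPolynomial.C : R →+* MvPolynomial (Fin 2) R).comp ρ) = ψ} ≃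
      Σ φ : {φ : R →+* F // φ.comp ρ = ψ ∧ φ N ≠ 0},
        {Q : F × F // IsSing (G.map (mapRingHom φ.1)) Q} where
  toFun Φ := ⟨⟨Φ.1.comp MvPolynomial.C, Φ.2.2, Φ.2.1.2⟩,
    ⟨(Φ.1 (MvPolynomial.X 0), Φ.1 (MvPolynomial.X 1)), (sys_zero Φ.1 G).1 Φ.2.1.1⟩⟩
  invFun z := ⟨MvPolynomial.eval₂Hom z.1.1 ![z.2.1.1, z.2.1.2], by
    have h1 : (MvPolynomial.eval₂Hom z.1.1 ![z.2.1.1, z.2.1.2]).comp MvPolynomial.C = z.1.1 :=
      RingHom.ext fun a => by rw [RingHom.comp_apply, MvPolynomial.eval₂Hom_C]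
    refine ⟨⟨?_, ?_⟩, ?_⟩
    · rw [sys_zero, h1, MvPolynomial.eval₂Hom_X', MvPolynomial.eval₂Hom_X']
      exact z.2.2
    · rw [MvPolynomial.eval₂Hom_C]
      exact z.1.2.2
    · rw [← RingHom.comp_assoc, h1]
      exact z.1.2.1⟩
  left_inv Φ := by
    apply Subtype.ext
    apply MvPolynomial.ringHom_ext
    · intro a
      simp
    · intro i
      fin_cases i <;> simp
  right_inv z := by
    rcases z with ⟨⟨φ, hφ⟩, ⟨⟨t, x⟩, hQ⟩⟩
    have gen : ∀ (φ' : R →+* F) (hφ' : φ'.comp ρ = ψ ∧ φ' N ≠ 0) (t' x' : F)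
        (hQ' : IsSing (G.map (mapRingHom φ')) (t', x')), φ' = φ → t' = t → x' = x →
        (⟨⟨φ', hφ'⟩, ⟨(t', x'), hQ'⟩⟩ : Σ φ : {φ : R →+* F // φ.comp ρ = ψ ∧ φ N ≠ 0},
          {Q : F × F // IsSing (G.map (mapRingHom φ.1)) Q}) = ⟨⟨φ, hφ⟩, ⟨(t, x), hQ⟩⟩ := by
      intro φ' hφ' t' x' hQ' h1 h2 h3
      subst h1 h2 h3
      rfl
    refine gen _ _ _ _ _ ?_ ?_ ?_
    · exact RingHom.ext fun a => by rw [RingHom.comp_apply, MvPolynomial.eval₂Hom_C]
    · rw [MvPolynomial.eval₂Hom_X']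
      rfl
    · rw [MvPolynomial.eval₂Hom_X']
      rfl

end

section
variable {K : Type} [Field K] (Ω : Type) [Field Ω] [Algebra K Ω]

/-- The singular points over `Ω`. -/
abbrev SingPt (F : K[X][X]) : Type :=
  {Q : Ω × Ω // IsSing (F.map (mapRingHom (algebraMap K Ω))) Q}

/-- conjugate singular points -/
def SingConj (F : K[X][X]) (P Q : SingPt Ω F) : Prop :=
  ∃ σ : Ω ≃ₐ[K] Ω, σ P.1.1 = Q.1.1 ∧ σ P.1.2 = Q.1.2

variable {Ω}

theorem value_ring (Q : Ω × Ω) : ∃ f : K[X][X] →+* Ω, ∀ P : K[X][X],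
    f P = value (P.map (mapRingHom (algebraMap K Ω))) Q :=
  ⟨(evalRingHom Q.2).comp ((mapRingHom (evalRingHom Q.1)).comp
    (mapRingHom (mapRingHom (algebraMap K Ω)))), fun _ => rfl⟩

theorem exists_disc {F : K[X][X]} (hs : (F.map (algebraMap K[X] (RatFunc K))).Separable) :
    ∃ (D : K[X]) (u v : K[X][X]), D ≠ 0 ∧ u * F + v * derivative F = C D := by
  obtain ⟨a, b, hab⟩ := hs
  obtain ⟨b1, hb1, h1⟩ := IsLocalization.integerNormalization_spec (nonZeroDivisors K[X]) a
  obtain ⟨b2, hb2, h2⟩ := IsLocalization.integerNormalization_spec (nonZeroDivisors K[X]) b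
  refine ⟨b1 * b2, C b2 * IsLocalization.integerNormalization (nonZeroDivisors K[X]) a,
    C b1 * IsLocalization.integerNormalization (nonZeroDivisors K[X]) b,
    mul_ne_zero (nonZeroDivisors.ne_zero hb1) (nonZeroDivisors.ne_zero hb2), ?_⟩
  apply Polynomial.map_injective (algebraMap K[X] (RatFunc K)) (RatFunc.algebraMap_injective K)
  rw [Polynomial.map_add, Polynomial.map_mul, Polynomial.map_mul, Polynomial.map_mul,
    Polynomial.map_mul, h1, h2, map_C, map_C, map_C, ← derivative_map, map_mul]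
  rw [Algebra.smul_def, Algebra.smul_def]
  have e1 : (algebraMap K[X] (RatFunc K)[X]) b1 = C (algebraMap K[X] (RatFunc K) b1) := rfl
  have e2 : (algebraMap K[X] (RatFunc K)[X]) b2 = C (algebraMap K[X] (RatFunc K) b2) := rfl
  rw [e1, e2]
  calc _ = C (algebraMap K[X] (RatFunc K) b1) * C (algebraMap K[X] (RatFunc K) b2) *
      (a * F.map (algebraMap K[X] (RatFunc K)) +
        b * derivative (F.map (algebraMap K[X] (RatFunc K)))) := by ring
    _ = _ := by rw [hab, mul_one, C_mul]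

/-- there are only finitely many singular points -/
theorem finite_sing {F : K[X][X]} (hF : F.Monic)
    (hs : (F.map (algebraMap K[X] (RatFunc K))).Separable) : Finite (SingPt Ω F) := by
  obtain ⟨D, u, v, hD, key⟩ := exists_disc hs
  have hT : {t : Ω | aeval t D = 0}.Finite := by
    refine (D.rootSet_finite Ω).subset fun t ht => ?_
    rw [mem_rootSet]
    exact ⟨hD, ht⟩
  have hX : ∀ t : Ω, {x : Ω | value (F.map (mapRingHom (algebraMap K Ω))) (t, x) = 0}.Finite := by
    intro t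
    have hm : (((F.map (mapRingHom (algebraMap K Ω))).map (evalRingHom t))).Monic :=
      (hF.map _).map _
    refine (Multiset.finite_toSet
      ((F.map (mapRingHom (algebraMap K Ω))).map (evalRingHom t)).roots).subset fun x hx => ?_
    exact (mem_roots hm.ne_zero).2 hx
  have hfin : {Q : Ω × Ω | IsSing (F.map (mapRingHom (algebraMap K Ω))) Q}.Finite := by
    refine (hT.biUnion fun t _ => (hX t).image fun x => (t, x)).subset ?_
    rintro ⟨t, x⟩ ⟨e1, e2, -⟩
    refine Set.mem_biUnion (x := t) ?_ ⟨x, e1, rfl⟩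
    obtain ⟨f, hf⟩ := value_ring (K := K) ((t, x) : Ω × Ω)
    have h3 := congrArg f key
    rw [derivative_map] at e2
    have h4 : f F = 0 := by rw [hf]; exact e1
    have h5 : f (derivative F) = 0 := by rw [hf]; exact e2
    rw [map_add, map_mul, map_mul, h4, h5, mul_zero, mul_zero, add_zero] at h3
    show aeval t D = 0
    rw [hf, Polynomial.map_C] at h3
    have h6 : value (C ((mapRingHom (algebraMap K Ω)) D)) (t, x) = aeval t D := by
      unfold value
      rw [map_C, eval_C, coe_mapRingHom, coe_evalRingHom, aeval_def, eval_map]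
    rw [← h6, ← h3]
  exact hfin.to_subtype

variable {R : Type} [CommRing R] [Algebra R K]

/-- the solutions of the system -/
noncomputable def solEquiv {F : K[X][X]} {G : R[X][X]}
    (hG : G.map (mapRingHom (algebraMap R K)) = F) : Sol K Ω (sys G) ≃ SingPt Ω F := by
  have key : ∀ x : Fin 2 → Ω, (∀ c, evt K x (sys G c) = 0) ↔
      IsSing (F.map (mapRingHom (algebraMap K Ω))) (x 0, x 1) := by
    intro x
    have h1 : (evt K (R := R) x).comp MvPolynomial.C = (algebraMap K Ω).comp (algebraMap R K) :=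
      RingHom.ext fun a => by rw [RingHom.comp_apply, evt, MvPolynomial.eval₂Hom_C]
    rw [sys_zero, h1, ← hG, Polynomial.map_map, ← mapRingHom_comp]
    have h2 : ∀ i, evt K (R := R) x (MvPolynomial.X i) = x i := fun i => by
      rw [evt, MvPolynomial.eval₂Hom_X']
    rw [h2, h2]
  exact
    { toFun := fun x => ⟨(x.1 0, x.1 1), (key x.1).1 x.2⟩
      invFun := fun Q => ⟨![Q.1.1, Q.1.2], (key _).2 Q.2⟩
      left_inv := fun x => by
        apply Subtype.ext
        funext i
        fin_cases i <;> rfl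
      right_inv := fun Q => rfl }

theorem card_sing {F : K[X][X]} {G : R[X][X]} (hG : G.map (mapRingHom (algebraMap R K)) = F) :
    Nat.card (Quot (SConj K Ω (sys G))) = Nat.card (Quot (SingConj Ω F)) := by
  refine Nat.card_congr (Quot.congr (solEquiv hG) fun x y => ?_)
  constructor
  · rintro ⟨σ, hσ⟩
    exact ⟨σ, hσ 0, hσ 1⟩
  · rintro ⟨σ, h0, h1⟩
    refine ⟨σ, fun i => ?_⟩
    fin_cases i
    · exact h0
    · exact h1

end

section
variable {k : Type} [Field k] [NumberField k] {K : Type} [Field K] [CharZero K] {Ω : Type} [Field Ω]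
  [Algebra K Ω] [IsAlgClosed Ω] [Algebra.IsAlgebraic K Ω] {R : Type} [CommRing R] [IsDomain R]
  [Algebra.FiniteType ℤ R] [Algebra R K] [IsFractionRing R K]

variable (Ω) in
/-- **The residue of the series of the average numbers of the singular points.** -/
theorem residue_sing (hK : FG K) {e : ℕ} (he : Algebra.trdeg ℚ K = e) {F : K[X][X]} (hF : F.Monic)
    (hs : (F.map (algebraMap K[X] (RatFunc K))).Separable) (ρ : 𝓞 k →+* R) {G : R[X][X]}
    (hG : G.map (mapRingHom (algebraMap R K)) = F) :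
    ∃ N₀ : R, N₀ ≠ 0 ∧ ∀ N : R, N ≠ 0 → N₀ ∣ N → ∀ S : Finset (HeightOneSpectrum (𝓞 k)),
      HasResidue S (fun v => ((Nat.card (𝓞 k ⧸ v.asIdeal) : ℝ) ^ e)⁻¹ *
        ∑ᶠ φ : {φ : R →+* 𝓞 k ⧸ v.asIdeal // φ.comp ρ = Ideal.Quotient.mk v.asIdeal ∧ φ N ≠ 0},
          (Nat.card {Q : (𝓞 k ⧸ v.asIdeal) × (𝓞 k ⧸ v.asIdeal) //
            IsSing (G.map (mapRingHom φ.1)) Q} : ℝ)) 1 (Nat.card (Quot (SingConj Ω F))) := by
  have hfinS : Finite (Sol K Ω (sys G)) := by
    have := finite_sing (Ω := Ω) hF hs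
    exact Finite.of_equiv _ (solEquiv hG).symm
  obtain ⟨N₀, hN₀, h⟩ := asy_sys hK he (sys G) hfinS
  refine ⟨N₀, hN₀, fun N hN hdvd S => ?_⟩
  obtain ⟨h1, C, hC, h2⟩ := h N hN hdvd
  have h3 := residue_count (k := k) (ρ := (MvPolynomial.C : R →+* MvPolynomial (Fin 2) R).comp ρ)
    (P := fun F _ Φ => (∀ c, Φ (sys G c) = 0) ∧ Φ (MvPolynomial.C N) ≠ 0)
    (fun F _ _ => finite_homs R (Fin 2) F) (fun F F' _ _ ε Φ => by
      have e1 : ∀ a, ((ε : F →+* F').comp Φ) a = 0 ↔ Φ a = 0 := fun a => by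
        rw [RingHom.comp_apply]
        exact map_eq_zero_iff _ ε.injective
      simp only [e1, ne_eq]) (C := C) h1 h2 S
  rw [card_sing hG] at h3
  convert h3 using 2 with v
  unfold cntAvg
  congr 1
  have hfv := Pool.Agent.H341R2.finite_v v
  have hfin : Finite (R →+* 𝓞 k ⧸ v.asIdeal) := inferInstance
  let _ : Fintype {φ : R →+* 𝓞 k ⧸ v.asIdeal // φ.comp ρ = Ideal.Quotient.mk v.asIdeal ∧ φ N ≠ 0} :=
    Fintype.ofFinite _
  rw [Nat.card_congr (singEquiv ρ G N (Ideal.Quotient.mk v.asIdeal)), Nat.card_sigma, Nat.cast_sum,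
    finsum_eq_sum_of_fintype]

end

end Pool.Agent.Helper94.KM
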