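import Pool.Agent.Helper94.KM.Orb
import Pool.Agent.R410.NG.Sg

set_option autoImplicit false
set_option linter.all false

/-!
# The average number of the rational nodes
-/

namespace Pool.Agent.Helper94.KM

open Polynomial NumberField IsDedekindDomain
open Pool.Agent.R410.LW (FG frac_of_closure)
open Pool.Agent.R410.NG (Asy Ff Wt IsWt sR sT sT_eq avg all_models sR_bound)
open Pool.Agent.Y707.PR (HasResidue)

/-- the number of the tuples whose components are the point at infinity or roots -/
noncomputable def nodes {ι : Type} (F : Type) [Field F] (p : ι → F[X]) : ℕ :=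
  Nat.card {P : ι → Option F // ∀ i, ∀ y ∈ P i, (p i).eval y = 0}

/-- the tuples whose components are the point at infinity or roots -/
abbrev Nd {K : Type} [Field K] {ι : Type} (Ω : Type) [Field Ω] [Algebra K Ω] (G : ι → K[X]) : Type :=
  {P : ι → Option Ω // ∀ i, ∀ y ∈ P i, aeval y (G i) = 0}

/-- conjugate tuples -/
def NRel {K : Type} [Field K] {ι : Type} (Ω : Type) [Field Ω] [Algebra K Ω] (G : ι → K[X])
    (P Q : Nd Ω G) : Prop :=
  ∃ σ : Ω ≃ₐ[K] Ω, ∀ i, (P.1 i).map σ = Q.1 i

section
variable {K : Type} [Field K] {Ω : Type} [Field Ω] [Algebra K Ω] {ι : Type}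

theorem card_orb (G : ι → K[X]) (t : K) (ht : ∀ i, (G i).eval t ≠ 0) :
    Nat.card (Quot (Conj Ω fun i => (X - C t) * G i)) = Nat.card (Quot (NRel Ω G)) := by
  classical
  have hg : ∀ i, ((G i).map (algebraMap K Ω)).eval (algebraMap K Ω t) ≠ 0 := by
    intro i
    rw [eval_map, eval₂_at_apply]
    exact (map_ne_zero_iff _ (algebraMap K Ω).injective).2 (ht i)
  have hA : ∀ x : ι → Ω, (∀ i, aeval (x i) ((X - C t) * G i) = 0) ↔
      ∀ i, ((X - C (algebraMap K Ω t)) * (G i).map (algebraMap K Ω)).eval (x i) = 0 := by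
    intro x
    refine forall_congr' fun i => ?_
    rw [← eval_map_algebraMap, Polynomial.map_mul, Polynomial.map_sub, Polynomial.map_X, Polynomial.map_C]
  have hB : ∀ P : ι → Option Ω, (∀ i, ∀ y ∈ P i, ((G i).map (algebraMap K Ω)).eval y = 0) ↔
      ∀ i, ∀ y ∈ P i, aeval y (G i) = 0 := by
    intro P
    refine forall_congr' fun i => forall_congr' fun y => ?_
    rw [eval_map_algebraMap]
  let e : Tup Ω (fun i => (X - C t) * G i) ≃ Nd Ω G := (Equiv.subtypeEquivRight hA).trans
    ((optTuple (algebraMap K Ω t) (fun i => (G i).map (algebraMap K Ω)) hg).trans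
      (Equiv.subtypeEquivRight hB))
  have he : ∀ (x : Tup Ω (fun i => (X - C t) * G i)) (i : ι),
      (e x).1 i = if x.1 i = algebraMap K Ω t then none else some (x.1 i) := fun x i =>
    optTuple_apply _ _ hg _ i
  refine Nat.card_congr (Quot.congr e fun x y => ?_)
  unfold Conj NRel
  refine exists_congr fun σ => forall_congr' fun i => ?_
  rw [he, he]
  have hσt : σ (algebraMap K Ω t) = algebraMap K Ω t := σ.commutes t
  by_cases hx : x.1 i = algebraMap K Ω t
  · rw [if_pos hx, hx, hσt]
    by_cases hy : y.1 i = algebraMap K Ω t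
    · rw [if_pos hy, hy]
      simp
    · rw [if_neg hy]
      simp [Ne.symm hy]
  · rw [if_neg hx]
    by_cases hy : y.1 i = algebraMap K Ω t
    · rw [if_pos hy, hy]
      simp only [Option.map_some, reduceCtorEq, iff_false]
      intro h
      exact hx (σ.injective (h.trans hσt.symm))
    · rw [if_neg hy]
      simp

end

theorem card_root_le {F : Type} [Field F] {p : F[X]} (hp : p ≠ 0) :
    Nat.card {y : F // p.eval y = 0} ≤ p.natDegree := by
  classical
  have h1 : Nat.card {y : F // p.eval y = 0} = p.roots.toFinset.card := by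
    rw [Nat.card_congr (Equiv.subtypeEquivRight (q := fun y => y ∈ p.roots.toFinset) fun y => by
      rw [Multiset.mem_toFinset, mem_roots hp, IsRoot.def]), Nat.card_eq_fintype_card, Fintype.card_coe]
  rw [h1]
  exact (Multiset.toFinset_card_le _).trans (card_roots' p)

theorem nodes_le {ι : Type} [Fintype ι] {F : Type} [Field F] [Finite F] {p : ι → F[X]} {n : ι → ℕ}
    (hp : ∀ i, (p i).Monic ∧ (p i).natDegree = n i) : nodes F p ≤ ∏ i, (n i + 1) := by
  classical
  unfold nodes
  rw [Nat.card_congr (Equiv.subtypePiEquivPi (p := fun i (o : Option F) => ∀ y ∈ o, (p i).eval y = 0)),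
    Nat.card_pi]
  refine Finset.prod_le_prod' fun i _ => ?_
  have h1 : Nat.card {o : Option F // ∀ y ∈ o, (p i).eval y = 0} ≤
      Nat.card (Option {y : F // (p i).eval y = 0}) := by
    refine Nat.card_le_card_of_injective (fun o => match o with
      | ⟨none, _⟩ => none
      | ⟨some y, h⟩ => some ⟨y, h y rfl⟩) ?_
    rintro ⟨_ | y, h⟩ ⟨_ | z, h'⟩ hab
    · rfl
    · simp at hab
    · simp at hab
    · simp only [Option.some.injEq, Subtype.mk.injEq] at hab
      subst hab
      rfl
  refine h1.trans ?_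
  rw [Finite.card_option]
  have h2 := card_root_le (hp i).1.ne_zero
  rw [(hp i).2] at h2
  omega

/-- the weight -/
noncomputable def wN (ι : Type) : Wt ι := fun F _ p => (nodes F p : ℝ)

theorem isWt_wN {ι : Type} [Fintype ι] (n : ι → ℕ) : IsWt (wN ι) n ((∏ i, (n i + 1) : ℕ) : ℝ) where
  c0 := Nat.cast_nonneg _
  iso F F' _ _ e p := by
    unfold wN nodes
    congr 1
    refine (Nat.card_congr ((Equiv.piCongrRight fun _ => Equiv.optionCongr e.toEquiv).subtypeEquiv
      fun P => forall_congr' fun i => ?_)).symm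
    show (∀ y ∈ P i, (p i).eval y = 0) ↔
      ∀ y ∈ (P i).map e, ((p i).map (e : F →+* F')).eval y = 0
    rcases P i with _ | z
    · simp
    · have h1 : ((p i).map (e : F →+* F')).eval (e z) = e ((p i).eval z) := by
        rw [eval_map]
        exact (hom_eval₂ (p i) (RingHom.id F) (e : F →+* F') z).symm
      simp only [Option.mem_def, Option.some.injEq, forall_eq', Option.map_some]
      rw [h1]
      exact (map_eq_zero_iff e e.injective).symm
  bound F _ _ p hp := by
    have hq : (1 : ℝ) ≤ (Nat.card F : ℝ) := by exact_mod_cast Nat.card_pos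
    unfold wN
    rw [Nat.abs_cast]
    have h1 : ((nodes F p : ℕ) : ℝ) ≤ ((∏ i, (n i + 1) : ℕ) : ℝ) := by exact_mod_cast nodes_le hp
    exact h1.trans (le_mul_of_one_le_right (Nat.cast_nonneg _) (Real.one_le_sqrt.2 hq))

section
variable {K R : Type} [Field K] [CharZero K] [CommRing R] [IsDomain R] [Algebra.FiniteType ℤ R]
  [Algebra R K] [IsFractionRing R K] {Ω : Type} [Field Ω] [Algebra K Ω] [IsAlgClosed Ω]
  [Algebra.IsAlgebraic K Ω] {ι : Type} [Fintype ι] {k : Type} [Field k] [NumberField k]
  [Algebra (𝓞 k) R]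

/-- **The average number of the rational nodes** -/
theorem residue_nodes (hK : FG K) {e : ℕ} (he : Algebra.trdeg ℚ K = e) (G : ι → R[X])
    (hm : ∀ i, (G i).Monic) (hs : ∀ i, ((G i).map (algebraMap R K)).Separable) {N : R} (hN : N ≠ 0)
    (S : Finset (HeightOneSpectrum (𝓞 k))) :
    HasResidue S (fun v => avg (wN ι) G N e v) 1
      (Nat.card (Quot (NRel Ω fun i => (G i).map (algebraMap R K)))) := by
  classical
  -- an integer which is not a root
  obtain ⟨t, ht⟩ : ∃ t : ℕ, ∀ i, (G i).eval (t : R) ≠ 0 := by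
    have hinj : Function.Injective (fun n : ℕ => (n : R)) := by
      intro a b hab
      have h1 : ((a : ℕ) : K) = ((b : ℕ) : K) := by
        rw [← map_natCast (algebraMap R K), ← map_natCast (algebraMap R K)]
        exact congrArg _ hab
      exact_mod_cast h1
    obtain ⟨_, ⟨t, rfl⟩, ht⟩ := (Set.infinite_range_of_injective hinj).exists_notMem_finset
      (Finset.univ.biUnion fun i => (G i).roots.toFinset)
    refine ⟨t, fun i h => ht ?_⟩
    rw [Finset.mem_biUnion]
    refine ⟨i, Finset.mem_univ i, ?_⟩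
    rw [Multiset.mem_toFinset, mem_roots (hm i).ne_zero]
    exact h
  obtain ⟨N', hN'⟩ : ∃ N', N' = N * ∏ i, (G i).eval (t : R) := ⟨_, rfl⟩
  have hN'0 : N' ≠ 0 := by
    rw [hN']
    exact mul_ne_zero hN (Finset.prod_ne_zero_iff.2 fun i _ => ht i)
  have hKt : ∀ i, ((G i).map (algebraMap R K)).eval (algebraMap R K t) ≠ 0 := by
    intro i
    rw [eval_map, eval₂_at_apply]
    exact (map_ne_zero_iff _ (IsFractionRing.injective R K)).2 (ht i)
  have hmap : ∀ i, ((X - C (t : R)) * G i).map (algebraMap R K) =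
      (X - C (algebraMap R K t)) * (G i).map (algebraMap R K) := by
    intro i
    rw [Polynomial.map_mul, Polynomial.map_sub, Polynomial.map_X, Polynomial.map_C]
  have h1 := asy_main (Ω := Ω) hK he (fun i => (X - C (t : R)) * G i)
    (fun i => (monic_X_sub_C _).mul (hm i)) (fun i => by
      rw [(monic_X_sub_C _).natDegree_mul (hm i), natDegree_X_sub_C]
      omega) (fun i => by
      rw [hmap]
      refine (separable_X_sub_C).mul (hs i) ?_
      refine (irreducible_X_sub_C _).coprime_iff_not_dvd.2 fun h => hKt i ?_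
      rw [dvd_iff_isRoot] at h
      exact h) hN'0
  beta_reduce at h1
  have hmap' : (fun i => ((X - C (t : R)) * G i).map (algebraMap R K)) =
      fun i => (X - C (algebraMap R K t)) * (G i).map (algebraMap R K) := funext hmap
  rw [hmap', card_orb _ _ hKt] at h1
  obtain ⟨κ, iκ, L', iL, nL, a, ha, C2, N2, hC2, hN2, g2⟩ := h1
  have hb : ∀ (F : Type) [Field F] [Finite F] (φ : R →+* F), |wN ι F (fun j => (G j).map φ)| ≤
      ((∏ i, ((G i).natDegree + 1) : ℕ) : ℝ) := by
    intro F _ _ φ
    unfold wN
    rw [Nat.abs_cast]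
    exact_mod_cast nodes_le fun i => ⟨(hm i).map φ, (hm i).natDegree_map φ⟩
  have key := all_models (K := K) (isWt_wN fun i => (G i).natDegree) (e := e) he.le (R := R) (B := R)
    (k := k) rfl (g := G) (g' := G) (fun _ => rfl) (fun j => ⟨hm j, rfl⟩) hN hN'0 L' a
    (r := (Nat.card (Quot (NRel Ω fun i => (G i).map (algebraMap R K))) : ℤ))
    (by rw [ha]; push_cast; rfl)
    (sR_bound (K := K) (Nat.cast_nonneg _) he.le _ _ hb) ⟨C2, N2, hC2, hN2, fun F _ _ hF => by
      have h2 := g2 F hF
      have hfinR : Finite (R →+* F) := inferInstance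
      let _ : Fintype (R →+* F) := Fintype.ofFinite _
      have h3 : sT (wN ι) G N' F = (Nat.card (Σ φ : {φ : R →+* F // φ N' ≠ 0},
          {y : ι → F // ∀ i, (((X - C (t : R)) * G i).map φ.1).eval (y i) = 0}) : ℝ) := by
        unfold sT wN
        rw [Nat.card_sigma, finsum_eq_sum_of_fintype, Nat.cast_sum]
        refine Finset.sum_congr rfl fun φ _ => ?_
        unfold nodes
        congr 1
        have hφ : ∀ i, ((G i).map φ.1).eval (φ.1 t) ≠ 0 := by
          intro i
          rw [eval_map, eval₂_at_apply]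
          intro h0
          apply φ.2
          have h4 : φ.1 (N * ∏ i, (G i).eval (t : R)) = 0 := by
            rw [map_mul, map_prod, Finset.prod_eq_zero (Finset.mem_univ i) h0, mul_zero]
          exact (congrArg φ.1 hN').trans h4
        rw [← Nat.card_congr (optTuple (φ.1 t) (fun i => (G i).map φ.1) hφ)]
        refine Nat.card_congr (Equiv.subtypeEquivRight fun y => forall_congr' fun i => ?_)
        rw [Polynomial.map_mul, Polynomial.map_sub, Polynomial.map_X, Polynomial.map_C]
      rw [h3]
      exact h2⟩ S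
  exact_mod_cast key

end

end Pool.Agent.Helper94.KM
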