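import Pool.Agent.R410.NG.Ci
import Pool.Agent.Helper94.KM.Frac
import Pool.Agent.Helper94.KM.Alg

set_option autoImplicit false
set_option linter.all false

/-!
# Tuples of roots of monic polynomials: the average number over the points of a scheme
-/

namespace Pool.Agent.Helper94.KM

open Polynomial NumberField
open Pool.Agent.R410.LW (FG frac_of_closure)
open Pool.Agent.R410.BS (good_le)
open Pool.Agent.R410.NG (Asy Ff sH asy_sH)

theorem ft_int' {R : Type} [CommRing R] (i : Algebra ℤ R)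
    (h : @Algebra.FiniteType ℤ R _ _ i) : @Algebra.FiniteType ℤ R _ _ (Ring.toIntAlgebra R) := by
  have h1 : i = Ring.toIntAlgebra R := Subsingleton.elim _ _
  subst h1
  exact h

theorem ft_mv (R ι : Type) [CommRing R] [Algebra.FiniteType ℤ R] [Finite ι] :
    Algebra.FiniteType ℤ (MvPolynomial ι R) :=
  Algebra.FiniteType.trans (S := R) inferInstance inferInstance

theorem ft_mv' (R ι : Type) [CommRing R] [Algebra.FiniteType ℤ R] [Finite ι] :
    @Algebra.FiniteType ℤ (MvPolynomial ι R) _ _ (Ring.toIntAlgebra _) :=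
  ft_int' _ (ft_mv R ι)

theorem finite_homs (R ι F : Type) [CommRing R] [Algebra.FiniteType ℤ R] [Finite ι] [Field F] [Finite F] :
    Finite (MvPolynomial ι R →+* F) := by
  have := ft_mv' R ι
  infer_instance

section
variable {K R : Type} [Field K] [CharZero K] [CommRing R] [IsDomain R] [Algebra.FiniteType ℤ R]
  [Algebra R K] [IsFractionRing R K]

/-- the points of the ring generated by a tuple -/
theorem tuple_asy (hK : FG K) {e : ℕ} (he : Algebra.trdeg ℚ K = e) {L : Type} [Field L] [Algebra K L]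
    [FiniteDimensional K L] {ι : Type} [Finite ι] (x : ι → L)
    (hx : IntermediateField.adjoin K (Set.range x) = ⊤) (u : MvPolynomial ι R) (hu : evt K x u ≠ 0) :
    Asy (fun F _ _ => (Nat.card {Φ : MvPolynomial ι R →+* F //
      RingHom.ker (evt K (R := R) x) ≤ RingHom.ker Φ ∧ Φ u ≠ 0} : ℝ)) e 1 ∧
    ∃ (C : ℝ) (N : ℕ), 0 ≤ C ∧ N ≠ 0 ∧ ∀ (F : Type) [Field F] [Finite F], ((N : ℕ) : F) ≠ 0 →
      (Nat.card {Φ : MvPolynomial ι R →+* F //
        RingHom.ker (evt K (R := R) x) ≤ RingHom.ker Φ ∧ Φ u = 0} : ℝ) * Nat.card F ≤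
        C * (Nat.card F : ℝ) ^ e := by
  classical
  have hcL : CharZero L := charZero_of_injective_algebraMap (algebraMap K L).injective
  obtain ⟨I, hI⟩ : ∃ I, I = RingHom.ker (evt K (R := R) x) := ⟨_, rfl⟩
  let θ : MvPolynomial ι R ⧸ RingHom.ker (evt K (R := R) x) →+* L := RingHom.kerLift (evt K (R := R) x)
  have hθ : Function.Injective θ := RingHom.kerLift_injective _
  have hdom : IsDomain (MvPolynomial ι R ⧸ RingHom.ker (evt K (R := R) x)) := hθ.isDomain θ
  let _ : Algebra (MvPolynomial ι R ⧸ RingHom.ker (evt K (R := R) x)) L := θ.toAlgebra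
  have hfr : IsFractionRing (MvPolynomial ι R ⧸ RingHom.ker (evt K (R := R) x)) L := frac_tuple x hx
  have hft0 : Algebra.FiniteType ℤ (MvPolynomial ι R) := ft_mv R ι
  have hft : Algebra.FiniteType ℤ (MvPolynomial ι R ⧸ RingHom.ker (evt K (R := R) x)) :=
    Algebra.FiniteType.of_surjective (Ideal.Quotient.mkₐ ℤ _) (Ideal.Quotient.mkₐ_surjective ℤ _)
  have hft' := ft_int' _ hft
  have hFG : FG L := fg_fin hK
  have htr : Algebra.trdeg ℚ L = e := trdeg_fin he
  have hu' : Ideal.Quotient.mk (RingHom.ker (evt K (R := R) x)) u ≠ 0 := by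
    intro h0
    rw [Ideal.Quotient.eq_zero_iff_mem, RingHom.mem_ker] at h0
    exact hu h0
  refine ⟨(asy_sH (K := L) hFG htr hu').congr 1 one_ne_zero fun F _ _ _ => ?_, ?_⟩
  · unfold sH
    rw [Nat.card_congr (quotEquiv (F := F) (RingHom.ker (evt K (R := R) x)) u)]
  · obtain ⟨C, N, hC, hN, h⟩ := good_le (K := L) hθ htr.le hu'
    refine ⟨C, N, hC, hN, fun F _ _ hF => ?_⟩
    have h1 := (h F hF).2
    rw [Nat.card_congr (quotEquiv0 (F := F) (RingHom.ker (evt K (R := R) x)) u)] at h1
    exact h1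

end

section
variable {K R : Type} [Field K] [CharZero K] [CommRing R] [IsDomain R] [Algebra.FiniteType ℤ R]
  [Algebra R K] [IsFractionRing R K] {Ω : Type} [Field Ω] [Algebra K Ω] [IsAlgClosed Ω]
  [Algebra.IsAlgebraic K Ω] {ι : Type} [Fintype ι]

/-- the same for a tuple of elements of the algebraic closure -/
theorem tuple_asy' (hK : FG K) {e : ℕ} (he : Algebra.trdeg ℚ K = e) (x : ι → Ω)
    (u : MvPolynomial ι R) (hu : evt K x u ≠ 0) :
    Asy (fun F _ _ => (Nat.card {Φ : MvPolynomial ι R →+* F //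
      RingHom.ker (evt K (R := R) x) ≤ RingHom.ker Φ ∧ Φ u ≠ 0} : ℝ)) e 1 ∧
    ∃ (C : ℝ) (N : ℕ), 0 ≤ C ∧ N ≠ 0 ∧ ∀ (F : Type) [Field F] [Finite F], ((N : ℕ) : F) ≠ 0 →
      (Nat.card {Φ : MvPolynomial ι R →+* F //
        RingHom.ker (evt K (R := R) x) ≤ RingHom.ker Φ ∧ Φ u = 0} : ℝ) * Nat.card F ≤
        C * (Nat.card F : ℝ) ^ e := by
  let L := IntermediateField.adjoin K (Set.range x)
  let xL : ι → L := fun i => ⟨x i, IntermediateField.subset_adjoin K _ ⟨i, rfl⟩⟩
  have hfin : FiniteDimensional K L := IntermediateField.finiteDimensional_adjoin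
    fun y _ => Algebra.IsIntegral.isIntegral y
  have hcomp : (L.val : L →+* Ω).comp (evt K (R := R) xL) = evt K (R := R) x := by
    apply MvPolynomial.ringHom_ext
    · intro a
      rw [RingHom.comp_apply, evt, evt, MvPolynomial.eval₂Hom_C, MvPolynomial.eval₂Hom_C]
      rfl
    · intro i
      rw [RingHom.comp_apply, evt, evt, MvPolynomial.eval₂Hom_X', MvPolynomial.eval₂Hom_X']
      rfl
  have hker : RingHom.ker (evt K (R := R) xL) = RingHom.ker (evt K (R := R) x) := by
    rw [← hcomp]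
    ext f
    rw [RingHom.mem_ker, RingHom.mem_ker, RingHom.comp_apply]
    exact (map_eq_zero_iff _ (L.val : L →+* Ω).injective).symm
  have h := tuple_asy (R := R) hK he xL (adjoin_tuple x) u (by
    intro h0
    apply hu
    rw [← hcomp, RingHom.comp_apply, h0, map_zero])
  rw [hker] at h
  exact h

/-- the tuples of the roots -/
abbrev Tup (Ω : Type) [Field Ω] [Algebra K Ω] (G : ι → K[X]) : Type :=
  {x : ι → Ω // ∀ i, aeval (x i) (G i) = 0}

/-- conjugate tuples -/
def Conj (Ω : Type) [Field Ω] [Algebra K Ω] (G : ι → K[X]) (x y : Tup Ω G) : Prop :=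
  ∃ σ : Ω ≃ₐ[K] Ω, ∀ i, σ (x.1 i) = y.1 i

theorem finite_tup {G : ι → K[X]} (hG : ∀ i, G i ≠ 0) : Finite (Tup Ω G) := by
  have h1 : ∀ i, Finite {y : Ω // aeval y (G i) = 0} := by
    intro i
    refine Set.Finite.to_subtype (s := {y : Ω | aeval y (G i) = 0}) ?_
    refine (Polynomial.rootSet_finite (G i) Ω).subset fun y hy => ?_
    rw [Polynomial.mem_rootSet]
    exact ⟨hG i, hy⟩
  exact Finite.of_equiv _ (Equiv.subtypePiEquivPi (p := fun i (y : Ω) => aeval y (G i) = 0)).symm

/-- equivalence of kernels and conjugacy -/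
theorem evt_conj {x y : ι → Ω} (σ : Ω ≃ₐ[K] Ω) (h : ∀ i, σ (x i) = y i) :
    RingHom.ker (evt K (R := R) x) = RingHom.ker (evt K (R := R) y) := by
  have hcomp : (σ : Ω →+* Ω).comp (evt K (R := R) x) = evt K (R := R) y := by
    apply MvPolynomial.ringHom_ext
    · intro a
      rw [RingHom.comp_apply, evt, evt, MvPolynomial.eval₂Hom_C, MvPolynomial.eval₂Hom_C,
        RingHom.comp_apply]
      exact σ.commutes _
    · intro i
      rw [RingHom.comp_apply, evt, evt, MvPolynomial.eval₂Hom_X', MvPolynomial.eval₂Hom_X']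
      exact h i
  rw [← hcomp]
  ext f
  rw [RingHom.mem_ker, RingHom.mem_ker, RingHom.comp_apply]
  exact (map_eq_zero_iff _ σ.injective).symm

/-- tuples which are not conjugate -/
theorem exists_sep (x y : ι → Ω) (h : ¬ ∃ σ : Ω ≃ₐ[K] Ω, ∀ i, σ (y i) = x i) :
    ∃ f : MvPolynomial ι R, evt K y f = 0 ∧ evt K x f ≠ 0 := by
  by_contra hcon
  push Not at hcon
  apply h
  refine exists_conj y x fun g hg => ?_
  obtain ⟨c, f, hc, hf⟩ := clear_mv (R := R) g
  have hev : ∀ z : ι → Ω, evt K z f = algebraMap K Ω (algebraMap R K c) * MvPolynomial.aeval z g := by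
    intro z
    have h1 : evt K z f = MvPolynomial.aeval z (MvPolynomial.map (algebraMap R K) f) := by
      rw [MvPolynomial.aeval_def, MvPolynomial.eval₂_map]
      rfl
    rw [h1, hf, map_mul, MvPolynomial.aeval_C]
  have h1 := hcon f (by rw [hev, hg, mul_zero])
  rw [hev] at h1
  exact (mul_eq_zero.1 h1).resolve_left fun h0 => hc (IsFractionRing.injective R K (by
    rw [(map_eq_zero (algebraMap K Ω)).1 h0, map_zero]))

/-- **The average number of the tuples of roots** over the points of a model of `K` is the number of the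
orbits of the tuples of roots in the algebraic closure under the Galois group. -/
theorem asy_main (hK : FG K) {e : ℕ} (he : Algebra.trdeg ℚ K = e) (P : ι → R[X])
    (hm : ∀ i, (P i).Monic) (hd : ∀ i, 0 < (P i).natDegree)
    (hs : ∀ i, ((P i).map (algebraMap R K)).Separable) {N : R} (hN : N ≠ 0) :
    Asy (fun F _ _ => (Nat.card (Σ φ : {φ : R →+* F // φ N ≠ 0},
      {y : ι → F // ∀ i, ((P i).map φ.1).eval (y i) = 0}) : ℝ)) e
      (Nat.card (Quot (Conj Ω fun i => (P i).map (algebraMap R K)))) := by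
  classical
  set G : ι → K[X] := fun i => (P i).map (algebraMap R K) with hG
  have hG0 : ∀ i, G i ≠ 0 := fun i => ((hm i).map _).ne_zero
  have hfinT : Finite (Tup Ω G) := finite_tup hG0
  let _ : Fintype (Tup Ω G) := Fintype.ofFinite _
  let _ : Fintype (Quot (Conj Ω G)) := Fintype.ofFinite _
  let rep : Quot (Conj Ω G) → Tup Ω G := fun o => o.exists_rep.choose
  have hrep : ∀ o, Quot.mk _ (rep o) = o := fun o => o.exists_rep.choose_spec
  have hCN : ∀ x : ι → Ω, evt K (R := R) x (MvPolynomial.C N) ≠ 0 := by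
    intro x
    rw [evt, MvPolynomial.eval₂Hom_C, RingHom.comp_apply, map_ne_zero_iff _ (algebraMap K Ω).injective]
    intro h2
    exact hN (IsFractionRing.injective R K (by rw [h2, map_zero]))
  -- the values of the polynomials `P i (X i)`
  have hPi : ∀ (x : ι → Ω) (i : ι), evt K (R := R) x (aeval (MvPolynomial.X i : MvPolynomial ι R) (P i)) =
      aeval (x i) (G i) := by
    intro x i
    rw [aeval_def, hom_eval₂, evt, MvPolynomial.eval₂Hom_X', hG]
    simp only
    rw [aeval_def, eval₂_map]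
    congr 1
    refine RingHom.ext fun a => ?_
    rw [RingHom.comp_apply, MvPolynomial.algebraMap_eq, MvPolynomial.eval₂Hom_C]
  -- equivalence relation
  have hequiv : ∀ x y : Tup Ω G, Quot.mk (Conj Ω G) x = Quot.mk (Conj Ω G) y → Conj Ω G x y := by
    intro x y h
    have h1 : Equivalence (Conj Ω G) :=
      { refl := fun x => ⟨AlgEquiv.refl, fun i => rfl⟩
        symm := fun {x y} ⟨σ, hσ⟩ => ⟨σ.symm, fun i => by rw [← hσ i, AlgEquiv.symm_apply_apply]⟩
        trans := fun {x y z} ⟨σ, hσ⟩ ⟨τ, hτ⟩ => ⟨σ.trans τ, fun i => by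
          rw [AlgEquiv.trans_apply, hσ, hτ]⟩ }
    exact h1.eqvGen_iff.1 (Quot.eqvGen_exact h)
  -- the separating polynomials
  have hsep : ∀ o o' : Quot (Conj Ω G), o ≠ o' → ∃ f : MvPolynomial ι R,
      evt K (rep o').1 f = 0 ∧ evt K (rep o).1 f ≠ 0 := by
    intro o o' hoo
    refine exists_sep _ _ fun h => hoo ?_
    rw [← hrep o, ← hrep o']
    exact (Quot.sound h).symm
  have hbad : ∀ o o' : Quot (Conj Ω G), ∃ (C : ℝ) (N' : ℕ), 0 ≤ C ∧ N' ≠ 0 ∧
      ∀ (F : Type) [Field F] [Finite F], ((N' : ℕ) : F) ≠ 0 → o ≠ o' →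
        (Nat.card {Φ : MvPolynomial ι R →+* F //
          (RingHom.ker (evt K (R := R) (rep o).1) ≤ RingHom.ker Φ ∧ Φ (MvPolynomial.C N) ≠ 0) ∧
          (RingHom.ker (evt K (R := R) (rep o').1) ≤ RingHom.ker Φ ∧ Φ (MvPolynomial.C N) ≠ 0)} : ℝ) *
          Nat.card F ≤ C * (Nat.card F : ℝ) ^ e := by
    intro o o'
    by_cases hoo : o = o'
    · exact ⟨0, 1, le_rfl, one_ne_zero, fun F _ _ _ h => absurd hoo h⟩
    · obtain ⟨f, hf1, hf2⟩ := hsep o o' hoo
      obtain ⟨C, N', hC, hN', h⟩ := (tuple_asy' (R := R) hK he (rep o).1 f hf2).2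
      refine ⟨C, N', hC, hN', fun F _ _ hF _ => le_trans ?_ (h F hF)⟩
      refine mul_le_mul_of_nonneg_right ?_ (Nat.cast_nonneg _)
      have hfin : Finite (MvPolynomial ι R →+* F) := finite_homs R ι F
      rw [Nat.cast_le]
      refine Nat.card_le_card_of_injective (fun Φ => ⟨Φ.1, Φ.2.1.1, Φ.2.2.1 hf1⟩) fun a b hab => ?_
      have hab' := congrArg Subtype.val hab
      exact Subtype.ext hab'
  choose C N' hC hN' hbad using hbad
  -- the sum over the orbits
  have hsum : Asy (fun F _ _ => ∑ o : Quot (Conj Ω G), (Nat.card {Φ : MvPolynomial ι R →+* F //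
      RingHom.ker (evt K (R := R) (rep o).1) ≤ RingHom.ker Φ ∧ Φ (MvPolynomial.C N) ≠ 0} : ℝ)) e
      (∑ _o : Quot (Conj Ω G), 1) :=
    Asy.sum Finset.univ (fun o => fun F _ _ => (Nat.card {Φ : MvPolynomial ι R →+* F //
      RingHom.ker (evt K (R := R) (rep o).1) ≤ RingHom.ker Φ ∧ Φ (MvPolynomial.C N) ≠ 0} : ℝ)) _
      fun o _ => (tuple_asy' (R := R) hK he (rep o).1 _ (hCN _)).1
  have hcard : (Nat.card (Quot (Conj Ω G)) : ℝ) = ∑ _o : Quot (Conj Ω G), (1 : ℝ) := by
    rw [Finset.sum_const, Finset.card_univ, nsmul_eq_mul, mul_one, Nat.card_eq_fintype_card]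
  rw [hcard]
  refine hsum.near ⟨∑ o, ∑ o', C o o', ∏ o, ∏ o', N' o o', Finset.sum_nonneg fun o _ =>
    Finset.sum_nonneg fun o' _ => hC o o', Finset.prod_ne_zero_iff.2 fun o _ =>
    Finset.prod_ne_zero_iff.2 fun o' _ => hN' o o', fun F _ _ hF => ?_⟩
  have hfin : Finite (MvPolynomial ι R →+* F) := finite_homs R ι F
  have hNF : ∀ o o', ((N' o o' : ℕ) : F) ≠ 0 := by
    intro o o' h0
    apply hF
    rw [Nat.cast_prod]
    refine Finset.prod_eq_zero (Finset.mem_univ o) ?_
    rw [Nat.cast_prod]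
    exact Finset.prod_eq_zero (Finset.mem_univ o') h0
  have hq1 : (1 : ℝ) ≤ (Nat.card F : ℝ) := by exact_mod_cast Nat.card_pos
  have hs0 : 0 ≤ √(Nat.card F : ℝ) := Real.sqrt_nonneg _
  have hsq : √(Nat.card F : ℝ) ≤ Nat.card F := by
    rw [Real.sqrt_le_left (by linarith)]
    nlinarith
  rw [← Nat.card_congr (mvEquiv (F := F) P N)]
  have key := incl (T := MvPolynomial ι R →+* F) (I := Quot (Conj Ω G))
    (fun Φ => (∀ i, Φ (aeval (MvPolynomial.X i : MvPolynomial ι R) (P i)) = 0) ∧
      Φ (MvPolynomial.C N) ≠ 0)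
    (fun o Φ => RingHom.ker (evt K (R := R) (rep o).1) ≤ RingHom.ker Φ ∧ Φ (MvPolynomial.C N) ≠ 0)
    (fun o Φ h => ⟨fun i => h.1 (by
      rw [RingHom.mem_ker, hPi]
      exact (rep o).2 i), h.2⟩) (by
      rintro Φ ⟨h1, h2⟩
      by_contra hcon
      push Not at hcon
      have h3 : ∀ x : Tup Ω G, ∃ f : MvPolynomial ι R, evt K x.1 f = 0 ∧ Φ f ≠ 0 := by
        intro x
        by_contra hc
        push Not at hc
        refine h2 (hcon (Quot.mk _ x) ?_)
        obtain ⟨σ, hσ⟩ := hequiv _ _ (hrep (Quot.mk _ x))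
        rw [evt_conj σ hσ]
        exact fun f hf => hc f hf
      choose f hf1 hf2 using h3
      have h4 : (∏ x, f x) ∈ idl P := by
        refine mem_idl ((algebraMap K Ω).comp (algebraMap R K))
          ((algebraMap K Ω).injective.comp (IsFractionRing.injective R K)) P hm hd (fun i => ?_) _
          fun x hx => ?_
        · have h5 : ((P i).map ((algebraMap K Ω).comp (algebraMap R K))).Separable := by
            rw [← Polynomial.map_map]
            exact (hs i).map
          have h6 : ((P i).map ((algebraMap K Ω).comp (algebraMap R K))).roots.toFinset.card =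
              (P i).natDegree := by
            rw [Multiset.toFinset_card_of_nodup (nodup_roots h5),
              ← (IsAlgClosed.splits _).natDegree_eq_card_roots, (hm i).natDegree_map]
          refine ⟨_, h6, fun y hy => ?_⟩
          rw [Multiset.mem_toFinset, mem_roots', IsRoot.def, eval_map] at hy
          exact hy.2
        · have hx' : ∀ i, aeval (x i) (G i) = 0 := by
            intro i
            rw [hG, aeval_def, eval₂_map]
            exact hx i
          have h8 : evt K x (∏ x, f x) = 0 := by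
            rw [map_prod]
            exact Finset.prod_eq_zero (Finset.mem_univ ⟨x, hx'⟩) (hf1 ⟨x, hx'⟩)
          exact h8
      have h5 : idl P ≤ RingHom.ker Φ := by
        unfold idl
        rw [Ideal.span_le]
        rintro _ ⟨i, rfl⟩
        exact h1 i
      have h6 : Φ (∏ x, f x) = 0 := h5 h4
      rw [map_prod, Finset.prod_eq_zero_iff] at h6
      obtain ⟨x, _, hx⟩ := h6
      exact hf2 x hx)
  calc _ ≤ (∑ o, ∑ o', (if o = o' then 0 else (Nat.card {Φ : MvPolynomial ι R →+* F //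
          (RingHom.ker (evt K (R := R) (rep o).1) ≤ RingHom.ker Φ ∧ Φ (MvPolynomial.C N) ≠ 0) ∧
          (RingHom.ker (evt K (R := R) (rep o').1) ≤ RingHom.ker Φ ∧ Φ (MvPolynomial.C N) ≠ 0)} : ℝ))) *
          √(Nat.card F : ℝ) := by
        refine mul_le_mul_of_nonneg_right (key.trans (le_of_eq ?_)) hs0
        congr!
    _ = ∑ o, ∑ o', (if o = o' then 0 else (Nat.card {Φ : MvPolynomial ι R →+* F //
          (RingHom.ker (evt K (R := R) (rep o).1) ≤ RingHom.ker Φ ∧ Φ (MvPolynomial.C N) ≠ 0) ∧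
          (RingHom.ker (evt K (R := R) (rep o').1) ≤ RingHom.ker Φ ∧ Φ (MvPolynomial.C N) ≠ 0)} : ℝ)) *
          √(Nat.card F : ℝ) := by
        rw [Finset.sum_mul]
        exact Finset.sum_congr rfl fun o _ => Finset.sum_mul _ _ _
    _ ≤ ∑ o, ∑ o', C o o' * (Nat.card F : ℝ) ^ e := by
        refine Finset.sum_le_sum fun o _ => Finset.sum_le_sum fun o' _ => ?_
        split_ifs with hoo
        · rw [zero_mul]
          exact mul_nonneg (hC _ _) (by positivity)
        · exact (mul_le_mul_of_nonneg_left hsq (Nat.cast_nonneg _)).trans (hbad o o' F (hNF o o') hoo)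
    _ = _ := by
        rw [Finset.sum_mul]
        exact Finset.sum_congr rfl fun o _ => (Finset.sum_mul _ _ _).symm

end

end Pool.Agent.Helper94.KM
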